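import Pool.Agent.Helper66.E7.Avg

/-!
# Project 7E: averages of the functions `BB`
-/

set_option autoImplicit false

open Complex Filter Topology MeasureTheory Set

namespace Pool.Agent.E7

/-- the function of one dual variable -/
noncomputable def Bk (T f ρ k τ : ℝ) : ℝ := BB T f (2 * Real.pi * (ρ * T + τ) ^ 2 / (T * k))

/-- basic range of the frequencies -/
def FR (T η : ℝ) : Prop := T ^ (-(1 / 100) : ℝ) ≤ |η| ∧ |η| ≤ T ^ (1 / 100 : ℝ) ∧ T ^ (-(1 / 100) : ℝ) ≤ η ^ 2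

theorem ev_rpow {a : ℝ} (ha : 0 < a) (C : ℝ) : ∀ᶠ T : ℝ in atTop, C ≤ T ^ a :=
  (tendsto_rpow_atTop ha).eventually_ge_atTop C

theorem ev_log {a : ℝ} (ha : 0 < a) (C : ℝ) : ∀ᶠ T : ℝ in atTop, C * Real.log T ≤ T ^ a := by
  have h := (isLittleO_log_rpow_atTop ha).bound (c := 1 / (|C| + 1)) (by positivity)
  filter_upwards [h, eventually_ge_atTop 1] with T hT h1
  have h2 := Real.log_nonneg h1
  have h3 : 0 ≤ T ^ a := Real.rpow_nonneg (by linarith) _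
  rw [Real.norm_of_nonneg h2, Real.norm_of_nonneg h3] at hT
  have h4 : (|C| + 1) * Real.log T ≤ T ^ a := by
    rw [one_div, inv_mul_eq_div, le_div_iff₀ (by positivity)] at hT
    linarith
  have h5 := le_abs_self C
  nlinarith

/-- the error of the representation -/
theorem avB_err (hF2 : StmtF2) (hFB : StmtFB) : ∀ᶠ T : ℝ in atTop, ∀ ρ : ℝ, 1 ≤ ρ → ρ ≤ T ^ (1 / 100 : ℝ) →
    ∀ η f k : ℝ, 1 ≤ k → ‖av (T ^ (1 / 3 : ℝ)) η (Bk T f ρ k) - av (T ^ (1 / 3 : ℝ)) η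
      (fun τ => (∫ q in (-(3 * Real.log T))..(Real.log ρ), bl f (ρ * T + τ) k q) +
        ∫ q in (Real.log ρ)..(3 * Real.log T), bu f (ρ * T + τ) k q)‖ ≤ T ^ (-(3 / 5) : ℝ) := by
  filter_upwards [eventually_ge_atTop 3, ev_rpow (a := 1 / 15) (by norm_num) 82, ev_rpow (a := 1) (by norm_num) 3]
    with T hT3 h82 _ ρ hρ1 hρT η f k hk
  have hT0 : 0 < T := by linarith
  have hT1 : 1 ≤ T := by linarith
  have hlog : 1 ≤ Real.log T := by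
    rw [Real.le_log_iff_exp_le hT0]
    have := Real.exp_one_lt_d9
    linarith
  have hR0 : 0 < T ^ (1 / 3 : ℝ) := Real.rpow_pos_of_pos hT0 _
  have hRT : T ^ (1 / 3 : ℝ) ≤ T := by
    calc T ^ (1 / 3 : ℝ) ≤ T ^ (1:ℝ) := Real.rpow_le_rpow_of_exponent_le hT1 (by norm_num)
      _ = T := Real.rpow_one T
  have hlr0 : 0 ≤ Real.log ρ := Real.log_nonneg hρ1
  have hlr : Real.log ρ ≤ 1 / 100 * Real.log T := by
    rw [← Real.log_rpow hT0]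
    exact Real.log_le_log (by linarith) hρT
  have hi1 : IntervalIntegrable (Bk T f ρ k) volume 0 (T ^ (1 / 3 : ℝ)) :=
    BB_ii hFB (f := f) (ρ := ρ) hT1 hR0.le (k := k) (by linarith) (by linarith)
  have hi2 : IntervalIntegrable (fun τ => (∫ q in (-(3 * Real.log T))..(Real.log ρ), bl f (ρ * T + τ) k q) +
      ∫ q in (Real.log ρ)..(3 * Real.log T), bu f (ρ * T + τ) k q) volume 0 (T ^ (1 / 3 : ℝ)) := by
    simp_rw [expand]
    have hi : ∀ α β φ a b : ℝ, ∀ C : ℝ, IntervalIntegrable (fun τ => C * II α β φ a b (ρ * T + τ)) volume 0 (T ^ (1 / 3 : ℝ)) :=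
      fun α β φ a b C => (II_ii α β φ a b T ρ _).const_mul C
    exact ((((((hi _ _ _ _ _ _).add (hi _ _ _ _ _ _)).add (hi _ _ _ _ _ _)).add (hi _ _ _ _ _ _)).add (hi _ _ _ _ _ _)).add
      (hi _ _ _ _ _ _)).add (hi _ _ _ _ _ _)
  have e1 : av (T ^ (1 / 3 : ℝ)) η (Bk T f ρ k) = av (T ^ (1 / 3 : ℝ)) η
      (fun τ => (Bk T f ρ k τ + -1 * ((∫ q in (-(3 * Real.log T))..(Real.log ρ), bl f (ρ * T + τ) k q) +
        ∫ q in (Real.log ρ)..(3 * Real.log T), bu f (ρ * T + τ) k q)) +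
        ((∫ q in (-(3 * Real.log T))..(Real.log ρ), bl f (ρ * T + τ) k q) +
        ∫ q in (Real.log ρ)..(3 * Real.log T), bu f (ρ * T + τ) k q)) := by
    congr 1
    ext τ
    ring
  rw [e1, av_add (hi1.add (hi2.const_mul _)) hi2, add_sub_cancel_right]
  apply av_norm_le hR0
  intro τ hτ
  have hρT' : T ≤ ρ * T := by nlinarith
  have h := hF2 T f ρ (ρ * T + τ) k (3 * Real.log T) hT1 hρ1 (by linarith [hτ.1]) (by linarith [hτ.2]) hk (by linarith)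
  have e2 : Bk T f ρ k τ + -1 * ((∫ q in (-(3 * Real.log T))..(Real.log ρ), bl f (ρ * T + τ) k q) +
        ∫ q in (Real.log ρ)..(3 * Real.log T), bu f (ρ * T + τ) k q) =
      BB T f (2 * Real.pi * (ρ * T + τ) ^ 2 / (T * k)) - ((∫ q in (-(3 * Real.log T))..(Real.log ρ), bl f (ρ * T + τ) k q) +
        ∫ q in (Real.log ρ)..(3 * Real.log T), bu f (ρ * T + τ) k q) := by
    unfold Bk
    ring
  rw [e2]
  refine h.trans ?_
  have e3 : Real.exp (-(3 * Real.log T)) = T ^ (-(3:ℝ)) := by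
    rw [Real.rpow_def_of_pos hT0]; congr 1; ring
  rw [e3]
  have e4 : 2 * ((ρ * T + τ) / (ρ * T) - 1) ≤ 2 * T ^ (-(2 / 3) : ℝ) := by
    have h5 : (ρ * T + τ) / (ρ * T) - 1 = τ / (ρ * T) := by field_simp; ring
    rw [h5]
    have h6 : τ / (ρ * T) ≤ T ^ (1 / 3 : ℝ) / T := by
      apply div_le_div₀ hR0.le hτ.2 hT0 hρT'
    have h7 : T ^ (1 / 3 : ℝ) / T = T ^ (-(2 / 3) : ℝ) := by
      nth_rewrite 2 [← Real.rpow_one T]
      rw [← Real.rpow_sub hT0]; norm_num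
    rw [← h7]
    linarith
  have e5 : 40 * (ρ * T + τ) * T ^ (-(3:ℝ)) ≤ 80 * T ^ (-(2 / 3) : ℝ) := by
    have h5 : ρ * T + τ ≤ 2 * (T ^ (1 / 100 : ℝ) * T) := by
      have h8 := mul_le_mul_of_nonneg_right hρT hT0.le
      have h9 := hτ.2
      linarith
    have h6 : T ^ (1 / 100 : ℝ) * T = T ^ (101 / 100 : ℝ) := by
      nth_rewrite 2 [← Real.rpow_one T]
      rw [← Real.rpow_add hT0]; norm_num
    have h7 : T ^ (101 / 100 : ℝ) * T ^ (-(3:ℝ)) ≤ T ^ (-(2 / 3) : ℝ) := by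
      rw [← Real.rpow_add hT0]
      exact Real.rpow_le_rpow_of_exponent_le hT1 (by norm_num)
    rw [h6] at h5
    have h8 : 0 ≤ T ^ (-(3:ℝ)) := Real.rpow_nonneg hT0.le _
    nlinarith
  have e6 : 82 * T ^ (-(2 / 3) : ℝ) ≤ T ^ (-(3 / 5) : ℝ) := by
    have h5 : T ^ (-(3 / 5) : ℝ) = T ^ (1 / 15 : ℝ) * T ^ (-(2 / 3) : ℝ) := by
      rw [← Real.rpow_add hT0]; norm_num
    rw [h5]
    exact mul_le_mul_of_nonneg_right h82 (Real.rpow_nonneg hT0.le _)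
  linarith

theorem norm_cosf (f : ℝ) : ‖(Real.cos f : ℂ)‖ ≤ 1 := by
  rw [Complex.norm_real]
  exact Real.abs_cos_le_one f

/-- non-resonant averages -/
theorem avB_nr (hF2 : StmtF2) (hFB : StmtFB) (hG : StmtG) : ∀ᶠ T : ℝ in atTop, ∀ ρ : ℝ, 1 ≤ ρ → ρ ≤ T ^ (1 / 100 : ℝ) →
    ∀ η f k : ℝ, 1 ≤ k → FR T η → T ^ (-(1 / 100) : ℝ) ≤ |η ^ 2 - 4 / k| →
    ‖av (T ^ (1 / 3 : ℝ)) η (Bk T f ρ k)‖ ≤ T ^ (-(27 / 50) : ℝ) := by
  obtain ⟨T0, hG⟩ := hG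
  filter_upwards [avB_err hF2 hFB, eventually_ge_atTop T0, eventually_ge_atTop 3, ev_rpow (a := 1 / 100) (by norm_num) 8]
    with T herr hT0' hT3 h8 ρ hρ1 hρT η f k hk hη hres
  have hT0 : 0 < T := by linarith
  have hT1 : 1 ≤ T := by linarith
  have hlog : 0 ≤ Real.log T := Real.log_nonneg hT1
  have hlr0 : 0 ≤ Real.log ρ := Real.log_nonneg hρ1
  have hlr : Real.log ρ ≤ 1 / 100 * Real.log T := by
    rw [← Real.log_rpow hT0]
    exact Real.log_le_log (by linarith) hρT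
  have hk1 : |1 / k| ≤ 1 := by
    rw [abs_of_nonneg (by positivity), div_le_one (by linarith)]; exact hk
  have ha : |-(3 * Real.log T)| ≤ 4 * Real.log T := by
    rw [abs_neg, abs_of_nonneg (by positivity)]; linarith
  have hb : |Real.log ρ| ≤ 4 * Real.log T := by
    rw [abs_of_nonneg hlr0]; linarith
  have hc : |3 * Real.log T| ≤ 4 * Real.log T := by
    rw [abs_of_nonneg (by positivity)]; linarith
  have hsq : T ^ (-(1 / 100) : ℝ) ≤ |η ^ 2| := by rw [abs_of_nonneg (sq_nonneg _)]; exact hη.2.2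
  have g00 : ∀ a b : ℝ, |a| ≤ 4 * Real.log T → |b| ≤ 4 * Real.log T → ‖osc T ρ η 0 0 0 a b‖ ≤ T ^ (-(11 / 20) : ℝ) :=
    fun a b h1 h2 => hG T hT0' ρ hρ1 hρT η hη.1 hη.2.1 0 0 (by simp) (by simp) (by simpa using hsq) 0 a b h1 h2
  have g01 : ∀ a b : ℝ, |a| ≤ 4 * Real.log T → |b| ≤ 4 * Real.log T → ‖osc T ρ η 0 (1 / k) 0 a b‖ ≤ T ^ (-(11 / 20) : ℝ) :=
    fun a b h1 h2 => hG T hT0' ρ hρ1 hρT η hη.1 hη.2.1 0 (1 / k) (by simp) hk1 (by simpa using hsq) 0 a b h1 h2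
  have g10 : ‖osc T ρ η 1 0 f (Real.log ρ) (3 * Real.log T)‖ ≤ T ^ (-(11 / 20) : ℝ) :=
    hG T hT0' ρ hρ1 hρT η hη.1 hη.2.1 1 0 (by simp) (by simp) (by simpa using hsq) f _ _ hb hc
  have g11 : ‖osc T ρ η 1 (1 / k) f (Real.log ρ) (3 * Real.log T)‖ ≤ T ^ (-(11 / 20) : ℝ) :=
    hG T hT0' ρ hρ1 hρT η hη.1 hη.2.1 1 (1 / k) (by simp) hk1 (by
      rw [show η ^ 2 - 4 * (1 * (1 / k)) = η ^ 2 - 4 / k by ring]; exact hres) f _ _ hb hc
  have g12 : ‖osc T ρ η 1 (-(1 / k)) f (Real.log ρ) (3 * Real.log T)‖ ≤ T ^ (-(11 / 20) : ℝ) :=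
    hG T hT0' ρ hρ1 hρT η hη.1 hη.2.1 1 (-(1 / k)) (by simp) (by rwa [abs_neg]) (by
      have h4 : 0 ≤ 4 / k := by positivity
      rw [show η ^ 2 - 4 * (1 * (-(1 / k))) = η ^ 2 + 4 / k by ring, abs_of_nonneg (by positivity)]
      linarith [hη.2.2]) f _ _ hb hc
  have h0 := herr ρ hρ1 hρT η f k hk
  rw [av_expand] at h0
  set E := T ^ (-(11 / 20) : ℝ) with hE
  have hcf := norm_cosf f
  have m1 : ∀ z : ℂ, ‖z‖ ≤ E → ‖(Real.cos f : ℂ) * z‖ ≤ E := fun z hz => by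
    rw [norm_mul]; nlinarith [norm_nonneg z, norm_nonneg (Real.cos f : ℂ)]
  have m2 : ∀ z : ℂ, ‖z‖ ≤ E → ‖-(Real.cos f : ℂ) * z‖ ≤ E := fun z hz => by
    rw [norm_mul, norm_neg]; nlinarith [norm_nonneg z, norm_nonneg (Real.cos f : ℂ)]
  have m3 : ∀ z : ℂ, ‖z‖ ≤ E → ‖(1 / 2 : ℂ) * z‖ ≤ E := fun z hz => by
    rw [norm_mul]
    have : ‖(1 / 2 : ℂ)‖ = 1 / 2 := by norm_num
    rw [this]; nlinarith [norm_nonneg z]
  have m4 : ∀ z : ℂ, ‖z‖ ≤ E → ‖(-1 : ℂ) * z‖ ≤ E := fun z hz => by simpa using hz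
  have hE5 : T ^ (-(3 / 5) : ℝ) ≤ E := Real.rpow_le_rpow_of_exponent_le hT1 (by norm_num)
  have hfin : 8 * E ≤ T ^ (-(27 / 50) : ℝ) := by
    have h5 : T ^ (-(27 / 50) : ℝ) = T ^ (1 / 100 : ℝ) * E := by
      rw [hE, ← Real.rpow_add hT0]; norm_num
    rw [h5]
    exact mul_le_mul_of_nonneg_right h8 (Real.rpow_nonneg hT0.le _)
  have hsum := norm_add_le (av (T ^ (1 / 3 : ℝ)) η (Bk T f ρ k) - ((Real.cos f : ℂ) * osc T ρ η 0 0 0 (-(3 * Real.log T)) (Real.log ρ) +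
    -(Real.cos f : ℂ) * osc T ρ η 0 (1 / k) 0 (-(3 * Real.log T)) (Real.log ρ) + (Real.cos f : ℂ) * osc T ρ η 0 0 0 (Real.log ρ) (3 * Real.log T) +
      -1 * osc T ρ η 1 0 f (Real.log ρ) (3 * Real.log T) + -(Real.cos f : ℂ) * osc T ρ η 0 (1 / k) 0 (Real.log ρ) (3 * Real.log T) +
      1 / 2 * osc T ρ η 1 (1 / k) f (Real.log ρ) (3 * Real.log T) +
      1 / 2 * osc T ρ η 1 (-(1 / k)) f (Real.log ρ) (3 * Real.log T))) ((Real.cos f : ℂ) * osc T ρ η 0 0 0 (-(3 * Real.log T)) (Real.log ρ) +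
    -(Real.cos f : ℂ) * osc T ρ η 0 (1 / k) 0 (-(3 * Real.log T)) (Real.log ρ) + (Real.cos f : ℂ) * osc T ρ η 0 0 0 (Real.log ρ) (3 * Real.log T) +
      -1 * osc T ρ η 1 0 f (Real.log ρ) (3 * Real.log T) + -(Real.cos f : ℂ) * osc T ρ η 0 (1 / k) 0 (Real.log ρ) (3 * Real.log T) +
      1 / 2 * osc T ρ η 1 (1 / k) f (Real.log ρ) (3 * Real.log T) +
      1 / 2 * osc T ρ η 1 (-(1 / k)) f (Real.log ρ) (3 * Real.log T))
  rw [sub_add_cancel] at hsum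
  refine hsum.trans ((add_le_add h0 (norm_add_le_of_le (norm_add_le_of_le (norm_add_le_of_le (norm_add_le_of_le
    (norm_add_le_of_le (norm_add_le_of_le (m1 _ (g00 _ _ ha hb)) (m2 _ (g01 _ _ ha hb))) (m1 _ (g00 _ _ hb hc)))
    (m4 _ g10)) (m2 _ (g01 _ _ hb hc))) (m3 _ g11)) (m3 _ g12))).trans ?_)
  linarith

/-- resonant averages -/
theorem avB_res (hF2 : StmtF2) (hFB : StmtFB) (hG : StmtG) : ∀ᶠ T : ℝ in atTop, ∀ ρ : ℝ, 1 ≤ ρ → ρ ≤ T ^ (1 / 100 : ℝ) →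
    ∀ η f k : ℝ, 1 ≤ k → FR T η →
    ‖av (T ^ (1 / 3 : ℝ)) η (Bk T f ρ k) - 1 / 2 * osc T ρ η 1 (1 / k) f (Real.log ρ) (3 * Real.log T)‖ ≤ T ^ (-(27 / 50) : ℝ) := by
  obtain ⟨T0, hG⟩ := hG
  filter_upwards [avB_err hF2 hFB, eventually_ge_atTop T0, eventually_ge_atTop 3, ev_rpow (a := 1 / 100) (by norm_num) 8]
    with T herr hT0' hT3 h8 ρ hρ1 hρT η f k hk hη
  have hT0 : 0 < T := by linarith
  have hT1 : 1 ≤ T := by linarith
  have hlog : 0 ≤ Real.log T := Real.log_nonneg hT1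
  have hlr0 : 0 ≤ Real.log ρ := Real.log_nonneg hρ1
  have hlr : Real.log ρ ≤ 1 / 100 * Real.log T := by
    rw [← Real.log_rpow hT0]
    exact Real.log_le_log (by linarith) hρT
  have hk1 : |1 / k| ≤ 1 := by
    rw [abs_of_nonneg (by positivity), div_le_one (by linarith)]; exact hk
  have ha : |-(3 * Real.log T)| ≤ 4 * Real.log T := by
    rw [abs_neg, abs_of_nonneg (by positivity)]; linarith
  have hb : |Real.log ρ| ≤ 4 * Real.log T := by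
    rw [abs_of_nonneg hlr0]; linarith
  have hc : |3 * Real.log T| ≤ 4 * Real.log T := by
    rw [abs_of_nonneg (by positivity)]; linarith
  have hsq : T ^ (-(1 / 100) : ℝ) ≤ |η ^ 2| := by rw [abs_of_nonneg (sq_nonneg _)]; exact hη.2.2
  have g00 : ∀ a b : ℝ, |a| ≤ 4 * Real.log T → |b| ≤ 4 * Real.log T → ‖osc T ρ η 0 0 0 a b‖ ≤ T ^ (-(11 / 20) : ℝ) :=
    fun a b h1 h2 => hG T hT0' ρ hρ1 hρT η hη.1 hη.2.1 0 0 (by simp) (by simp) (by simpa using hsq) 0 a b h1 h2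
  have g01 : ∀ a b : ℝ, |a| ≤ 4 * Real.log T → |b| ≤ 4 * Real.log T → ‖osc T ρ η 0 (1 / k) 0 a b‖ ≤ T ^ (-(11 / 20) : ℝ) :=
    fun a b h1 h2 => hG T hT0' ρ hρ1 hρT η hη.1 hη.2.1 0 (1 / k) (by simp) hk1 (by simpa using hsq) 0 a b h1 h2
  have g10 : ‖osc T ρ η 1 0 f (Real.log ρ) (3 * Real.log T)‖ ≤ T ^ (-(11 / 20) : ℝ) :=
    hG T hT0' ρ hρ1 hρT η hη.1 hη.2.1 1 0 (by simp) (by simp) (by simpa using hsq) f _ _ hb hc
  have g12 : ‖osc T ρ η 1 (-(1 / k)) f (Real.log ρ) (3 * Real.log T)‖ ≤ T ^ (-(11 / 20) : ℝ) :=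
    hG T hT0' ρ hρ1 hρT η hη.1 hη.2.1 1 (-(1 / k)) (by simp) (by rwa [abs_neg]) (by
      have h4 : 0 ≤ 4 / k := by positivity
      rw [show η ^ 2 - 4 * (1 * (-(1 / k))) = η ^ 2 + 4 / k by ring, abs_of_nonneg (by positivity)]
      linarith [hη.2.2]) f _ _ hb hc
  have h0 := herr ρ hρ1 hρT η f k hk
  rw [av_expand] at h0
  set E := T ^ (-(11 / 20) : ℝ) with hE
  have hcf := norm_cosf f
  have m1 : ∀ z : ℂ, ‖z‖ ≤ E → ‖(Real.cos f : ℂ) * z‖ ≤ E := fun z hz => by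
    rw [norm_mul]; nlinarith [norm_nonneg z, norm_nonneg (Real.cos f : ℂ)]
  have m2 : ∀ z : ℂ, ‖z‖ ≤ E → ‖-(Real.cos f : ℂ) * z‖ ≤ E := fun z hz => by
    rw [norm_mul, norm_neg]; nlinarith [norm_nonneg z, norm_nonneg (Real.cos f : ℂ)]
  have m3 : ∀ z : ℂ, ‖z‖ ≤ E → ‖(1 / 2 : ℂ) * z‖ ≤ E := fun z hz => by
    rw [norm_mul]
    have : ‖(1 / 2 : ℂ)‖ = 1 / 2 := by norm_num
    rw [this]; nlinarith [norm_nonneg z]
  have m4 : ∀ z : ℂ, ‖z‖ ≤ E → ‖(-1 : ℂ) * z‖ ≤ E := fun z hz => by simpa using hz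
  have hE5 : T ^ (-(3 / 5) : ℝ) ≤ E := Real.rpow_le_rpow_of_exponent_le hT1 (by norm_num)
  have hfin : 8 * E ≤ T ^ (-(27 / 50) : ℝ) := by
    have h5 : T ^ (-(27 / 50) : ℝ) = T ^ (1 / 100 : ℝ) * E := by
      rw [hE, ← Real.rpow_add hT0]; norm_num
    rw [h5]
    exact mul_le_mul_of_nonneg_right h8 (Real.rpow_nonneg hT0.le _)
  have e1 : av (T ^ (1 / 3 : ℝ)) η (Bk T f ρ k) - 1 / 2 * osc T ρ η 1 (1 / k) f (Real.log ρ) (3 * Real.log T) =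
    (av (T ^ (1 / 3 : ℝ)) η (Bk T f ρ k) - ((Real.cos f : ℂ) * osc T ρ η 0 0 0 (-(3 * Real.log T)) (Real.log ρ) +
    -(Real.cos f : ℂ) * osc T ρ η 0 (1 / k) 0 (-(3 * Real.log T)) (Real.log ρ) + (Real.cos f : ℂ) * osc T ρ η 0 0 0 (Real.log ρ) (3 * Real.log T) +
      -1 * osc T ρ η 1 0 f (Real.log ρ) (3 * Real.log T) + -(Real.cos f : ℂ) * osc T ρ η 0 (1 / k) 0 (Real.log ρ) (3 * Real.log T) +
      1 / 2 * osc T ρ η 1 (1 / k) f (Real.log ρ) (3 * Real.log T) +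
      1 / 2 * osc T ρ η 1 (-(1 / k)) f (Real.log ρ) (3 * Real.log T))) + ((Real.cos f : ℂ) * osc T ρ η 0 0 0 (-(3 * Real.log T)) (Real.log ρ) +
    -(Real.cos f : ℂ) * osc T ρ η 0 (1 / k) 0 (-(3 * Real.log T)) (Real.log ρ) + (Real.cos f : ℂ) * osc T ρ η 0 0 0 (Real.log ρ) (3 * Real.log T) +
      -1 * osc T ρ η 1 0 f (Real.log ρ) (3 * Real.log T) + -(Real.cos f : ℂ) * osc T ρ η 0 (1 / k) 0 (Real.log ρ) (3 * Real.log T) +
      1 / 2 * osc T ρ η 1 (-(1 / k)) f (Real.log ρ) (3 * Real.log T)) := by ring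
  rw [e1]
  refine (norm_add_le _ _).trans ((add_le_add h0 (norm_add_le_of_le (norm_add_le_of_le (norm_add_le_of_le
    (norm_add_le_of_le (norm_add_le_of_le (m1 _ (g00 _ _ ha hb)) (m2 _ (g01 _ _ ha hb))) (m1 _ (g00 _ _ hb hc)))
    (m4 _ g10)) (m2 _ (g01 _ _ hb hc))) (m3 _ g12))).trans ?_)
  have : 0 ≤ E := Real.rpow_nonneg hT0.le _
  linarith

end Pool.Agent.E7
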