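import Pool.Agent.Helper66.E7.Ker

/-!
# Project 7E: averages of the dual functions
-/

set_option autoImplicit false

open Complex Filter Topology MeasureTheory Set
open Pool.Agent.Helper71.MR (Cin Cin_meas Cin_nonneg Cin_le_rt)

namespace Pool.Agent.E7

/-- the basic oscillatory integral -/
noncomputable def II (α β φ a b r : ℝ) : ℝ :=
  ∫ q in a..b, Real.cos (2 * Real.pi * r * (α * Real.exp (-q) + β * Real.exp q) + φ)

theorem II_cont (α β φ a b : ℝ) : Continuous (II α β φ a b) := by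
  unfold II
  apply intervalIntegral.continuous_parametric_intervalIntegral_of_continuous'
  fun_prop

theorem II_ii (α β φ a b T ρ R : ℝ) : IntervalIntegrable (fun τ => II α β φ a b (ρ * T + τ)) volume 0 R := by
  apply Continuous.intervalIntegrable
  exact (II_cont α β φ a b).comp (by fun_prop)

theorem osc_eq {T ρ η α β φ a b : ℝ} :
    av (T ^ (1 / 3 : ℝ)) η (fun τ => II α β φ a b (ρ * T + τ)) = osc T ρ η α β φ a b := by
  unfold osc av
  have hF : Continuous (Function.uncurry fun τ q : ℝ => ((kap (T ^ (1 / 3 : ℝ)) τ *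
      Real.cos (2 * Real.pi * (ρ * T + τ) * (α * Real.exp (-q) + β * Real.exp q) + φ) : ℝ) : ℂ) *
      cexp (-((2 * Real.pi * η * τ : ℝ) : ℂ) * I)) := by
    have := kap_cont (T ^ (1 / 3 : ℝ))
    simp only [Function.uncurry_def]
    fun_prop
  have h := intervalIntegral_intervalIntegral_swap (a := 0) (b := T ^ (1 / 3 : ℝ)) (c := a) (d := b)
    (F := fun τ q : ℝ => ((kap (T ^ (1 / 3 : ℝ)) τ *
      Real.cos (2 * Real.pi * (ρ * T + τ) * (α * Real.exp (-q) + β * Real.exp q) + φ) : ℝ) : ℂ) *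
      cexp (-((2 * Real.pi * η * τ : ℝ) : ℂ) * I)) (by
      refine (hF.continuousOn.integrableOn_compact (isCompact_uIcc.prod isCompact_uIcc)).mono_set
        (Set.prod_mono uIoc_subset_uIcc uIoc_subset_uIcc))
  rw [← h]
  congr 1
  ext τ
  rw [intervalIntegral.integral_mul_const]
  congr 1
  rw [intervalIntegral.integral_ofReal, intervalIntegral.integral_const_mul]
  rfl

theorem BB_meas (T f : ℝ) : Measurable (BB T f) := by
  unfold BB
  apply Measurable.add
  · exact Cin_meas.const_mul _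
  · apply Measurable.const_mul
    have h : StronglyMeasurable (fun p : ℝ × ℝ => Cin (p.1 / p.2) * Real.sin (2 * Real.pi * T * p.2 + f)) := by
      apply Measurable.stronglyMeasurable
      have := Cin_meas
      fun_prop
    exact (h.integral_prod_right' (ν := volume.restrict (Ioc (0:ℝ) 1))).measurable

theorem BB_ii (hFB : StmtFB) {T f ρ R k : ℝ} (hT : 1 ≤ T) (hR : 0 ≤ R) (hk : 0 ≤ k) (hρ : 0 ≤ ρ) :
    IntervalIntegrable (fun τ => BB T f (2 * Real.pi * (ρ * T + τ) ^ 2 / (T * k))) volume 0 R := by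
  rw [intervalIntegrable_iff_integrableOn_Ioc_of_le hR]
  have hpi := Real.pi_pos
  apply Measure.integrableOn_of_bounded (M := 100 * T * (2 * Real.pi * (ρ * T + R) ^ 2 / (T * k)) ^ (1 / 4 : ℝ)) (by simp)
  swap
  · apply Measurable.aestronglyMeasurable
    have := BB_meas T f
    fun_prop
  · rw [ae_restrict_iff' measurableSet_Ioc]
    filter_upwards with τ hτ
    rw [Real.norm_eq_abs]
    have h0 : 0 ≤ 2 * Real.pi * (ρ * T + τ) ^ 2 / (T * k) := by positivity
    refine (hFB T f _ hT h0).trans ?_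
    apply mul_le_mul_of_nonneg_left _ (by positivity)
    apply Real.rpow_le_rpow h0 _ (by norm_num)
    apply div_le_div_of_nonneg_right _ (by positivity)
    apply mul_le_mul_of_nonneg_left _ (by positivity)
    apply pow_le_pow_left₀
    · have := hτ.1
      positivity
    · linarith [hτ.2]

theorem cosprod (A B : ℝ) : Real.cos A * Real.cos B = 1 / 2 * Real.cos (A + B) + 1 / 2 * Real.cos (A - B) := by
  rw [Real.cos_add, Real.cos_sub]; ring

theorem expand (f r k a b c : ℝ) : (∫ q in a..b, bl f r k q) + (∫ q in b..c, bu f r k q) =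
    Real.cos f * II 0 0 0 a b r + -Real.cos f * II 0 (1 / k) 0 a b r + Real.cos f * II 0 0 0 b c r +
      -1 * II 1 0 f b c r + -Real.cos f * II 0 (1 / k) 0 b c r + 1 / 2 * II 1 (1 / k) f b c r +
      1 / 2 * II 1 (-(1 / k)) f b c r := by
  unfold II
  have hi : ∀ α β φ a b : ℝ, IntervalIntegrable (fun q : ℝ =>
      Real.cos (2 * Real.pi * r * (α * Real.exp (-q) + β * Real.exp q) + φ)) volume a b := by
    intro α β φ a b
    apply Continuous.intervalIntegrable
    fun_prop
  have h1 : (∫ q in a..b, bl f r k q) = Real.cos f * (∫ q in a..b, Real.cos (2 * Real.pi * r * (0 * Real.exp (-q) + 0 * Real.exp q) + 0)) +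
      -Real.cos f * (∫ q in a..b, Real.cos (2 * Real.pi * r * (0 * Real.exp (-q) + 1 / k * Real.exp q) + 0)) := by
    rw [← intervalIntegral.integral_const_mul, ← intervalIntegral.integral_const_mul,
      ← intervalIntegral.integral_add ((hi _ _ _ _ _).const_mul _) ((hi _ _ _ _ _).const_mul _)]
    congr 1
    ext q
    unfold bl
    have e1 : 2 * Real.pi * r * (0 * Real.exp (-q) + 0 * Real.exp q) + 0 = 0 := by ring
    have e2 : 2 * Real.pi * r * (0 * Real.exp (-q) + 1 / k * Real.exp q) + 0 = 2 * Real.pi * r * (Real.exp q / k) := by ring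
    rw [e1, e2, Real.cos_zero]
    ring
  have h2 : (∫ q in b..c, bu f r k q) = Real.cos f * (∫ q in b..c, Real.cos (2 * Real.pi * r * (0 * Real.exp (-q) + 0 * Real.exp q) + 0)) +
      -1 * (∫ q in b..c, Real.cos (2 * Real.pi * r * (1 * Real.exp (-q) + 0 * Real.exp q) + f)) +
      -Real.cos f * (∫ q in b..c, Real.cos (2 * Real.pi * r * (0 * Real.exp (-q) + 1 / k * Real.exp q) + 0)) +
      1 / 2 * (∫ q in b..c, Real.cos (2 * Real.pi * r * (1 * Real.exp (-q) + 1 / k * Real.exp q) + f)) +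
      1 / 2 * (∫ q in b..c, Real.cos (2 * Real.pi * r * (1 * Real.exp (-q) + -(1 / k) * Real.exp q) + f)) := by
    simp only [← intervalIntegral.integral_const_mul]
    rw [← intervalIntegral.integral_add ((hi _ _ _ _ _).const_mul _) ((hi _ _ _ _ _).const_mul _),
      ← intervalIntegral.integral_add (((hi _ _ _ _ _).const_mul _).add ((hi _ _ _ _ _).const_mul _)) ((hi _ _ _ _ _).const_mul _),
      ← intervalIntegral.integral_add ((((hi _ _ _ _ _).const_mul _).add ((hi _ _ _ _ _).const_mul _)).add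
        ((hi _ _ _ _ _).const_mul _)) ((hi _ _ _ _ _).const_mul _),
      ← intervalIntegral.integral_add (((((hi _ _ _ _ _).const_mul _).add ((hi _ _ _ _ _).const_mul _)).add
        ((hi _ _ _ _ _).const_mul _)).add ((hi _ _ _ _ _).const_mul _)) ((hi _ _ _ _ _).const_mul _)]
    congr 1
    ext q
    unfold bu
    have e1 : 2 * Real.pi * r * (0 * Real.exp (-q) + 0 * Real.exp q) + 0 = 0 := by ring
    have e2 : 2 * Real.pi * r * (0 * Real.exp (-q) + 1 / k * Real.exp q) + 0 = 2 * Real.pi * r * (Real.exp q / k) := by ring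
    have e3 : 2 * Real.pi * r * (1 * Real.exp (-q) + 0 * Real.exp q) + f = 2 * Real.pi * r * Real.exp (-q) + f := by ring
    have e4 : 2 * Real.pi * r * (1 * Real.exp (-q) + 1 / k * Real.exp q) + f =
      (2 * Real.pi * r * Real.exp (-q) + f) + 2 * Real.pi * r * (Real.exp q / k) := by ring
    have e5 : 2 * Real.pi * r * (1 * Real.exp (-q) + -(1 / k) * Real.exp q) + f =
      (2 * Real.pi * r * Real.exp (-q) + f) - 2 * Real.pi * r * (Real.exp q / k) := by ring
    rw [e1, e2, e3, e4, e5, Real.cos_zero]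
    have := cosprod (2 * Real.pi * r * Real.exp (-q) + f) (2 * Real.pi * r * (Real.exp q / k))
    linear_combination this
  rw [h1, h2]
  ring

/-- the average of the expansion -/
theorem av_expand {T ρ η f k a b c : ℝ} :
    av (T ^ (1 / 3 : ℝ)) η (fun τ => (∫ q in a..b, bl f (ρ * T + τ) k q) + ∫ q in b..c, bu f (ρ * T + τ) k q) =
    (Real.cos f : ℂ) * osc T ρ η 0 0 0 a b + -(Real.cos f : ℂ) * osc T ρ η 0 (1 / k) 0 a b + (Real.cos f : ℂ) * osc T ρ η 0 0 0 b c +
      -1 * osc T ρ η 1 0 f b c + -(Real.cos f : ℂ) * osc T ρ η 0 (1 / k) 0 b c + 1 / 2 * osc T ρ η 1 (1 / k) f b c +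
      1 / 2 * osc T ρ η 1 (-(1 / k)) f b c := by
  simp_rw [expand]
  have hi : ∀ α β φ a b : ℝ, ∀ C : ℝ, IntervalIntegrable (fun τ => C * II α β φ a b (ρ * T + τ)) volume 0 (T ^ (1 / 3 : ℝ)) :=
    fun α β φ a b C => (II_ii α β φ a b T ρ _).const_mul C
  rw [av_add ((((((hi _ _ _ _ _ _).add (hi _ _ _ _ _ _)).add (hi _ _ _ _ _ _)).add (hi _ _ _ _ _ _)).add (hi _ _ _ _ _ _)).add (hi _ _ _ _ _ _)) (hi _ _ _ _ _ _),
    av_add (((((hi _ _ _ _ _ _).add (hi _ _ _ _ _ _)).add (hi _ _ _ _ _ _)).add (hi _ _ _ _ _ _)).add (hi _ _ _ _ _ _)) (hi _ _ _ _ _ _),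
    av_add ((((hi _ _ _ _ _ _).add (hi _ _ _ _ _ _)).add (hi _ _ _ _ _ _)).add (hi _ _ _ _ _ _)) (hi _ _ _ _ _ _),
    av_add (((hi _ _ _ _ _ _).add (hi _ _ _ _ _ _)).add (hi _ _ _ _ _ _)) (hi _ _ _ _ _ _),
    av_add ((hi _ _ _ _ _ _).add (hi _ _ _ _ _ _)) (hi _ _ _ _ _ _),
    av_add (hi _ _ _ _ _ _) (hi _ _ _ _ _ _)]
  simp only [av_const_mul, osc_eq]
  push_cast
  ring

end Pool.Agent.E7
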