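import Pool.Agent.Helper66.E7.Defs

/-!
# Project 7E, block E: two-sided averages from a one-sided bound
-/

set_option autoImplicit false

open Complex Filter Topology MeasureTheory Set
open Pool.Agent.Helper57.Zeta
open Pool.Agent.Helper71.MR
open Pool.Agent.Helper71.MA

namespace Pool.Agent.E7

theorem kr_int0 : Integrable kr := by
  have h := ekr_integrable 0
  refine h.congr ?_
  filter_upwards with u
  simp

theorem stmtE : StmtE := by
  have hk := kr_int0
  have hI0 : 0 ≤ ∫ v : ℝ, kr v := integral_nonneg (fun v => (kr_pos v).le)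
  obtain ⟨d, hd⟩ : ∃ d : ℝ, d = Real.exp (-(Real.pi * Real.exp 4)) := ⟨_, rfl⟩
  have hd0 : 0 < d := by rw [hd]; exact Real.exp_pos _
  refine ⟨2 * (∫ v : ℝ, kr v) / d, by positivity, ?_⟩
  intro F A c hS K hK hF s
  have h1 : Integrable (fun v : ℝ => |F (s + v)| * kr v) := by
    refine (abs_kr_int hS s).norm.congr ?_
    filter_upwards with v
    rw [norm_mul, Real.norm_eq_abs, Real.norm_of_nonneg (kr_pos v).le]
  have h2 : ∫ v : ℝ, |F (s + v)| * kr v ≤ 2 * K * ∫ v : ℝ, kr v := by
    calc ∫ v : ℝ, |F (s + v)| * kr v ≤ ∫ v : ℝ, (2 * K * kr v - F (s + v) * kr v) := by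
          apply integral_mono h1 ((hk.const_mul _).sub (abs_kr_int hS s))
          intro v
          have h3 : |F (s + v)| ≤ 2 * K - F (s + v) := by
            have := hF (s + v)
            rw [abs_le]
            constructor <;> linarith
          have h4 := mul_le_mul_of_nonneg_right h3 (kr_pos v).le
          simp only [Pi.sub_apply]
          linarith
      _ = 2 * K * ∫ v : ℝ, kr v := by
          rw [integral_sub (hk.const_mul _) (abs_kr_int hS s), integral_const_mul, kr_real hS]
          ring
  rw [intervalIntegral.integral_of_le (by norm_num)]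
  calc ∫ v in Ioc (-2 : ℝ) 2, |F (s + v)|
      ≤ ∫ v in Ioc (-2 : ℝ) 2, d⁻¹ * (|F (s + v)| * kr v) := by
        apply integral_mono_of_nonneg
        · filter_upwards with v using abs_nonneg _
        · exact (h1.const_mul _).integrableOn
        · filter_upwards [ae_restrict_mem measurableSet_Ioc] with v hv
          have h5 : |v| ≤ 2 := abs_le.2 ⟨hv.1.le, hv.2⟩
          have h6 : d ≤ kr v := by
            refine le_trans ?_ (kr_ge v)
            rw [hd]
            apply Real.exp_le_exp.2
            have h7 : Real.exp (2 * |v|) ≤ Real.exp 4 := Real.exp_le_exp.2 (by linarith)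
            have := mul_le_mul_of_nonneg_left h7 Real.pi_pos.le
            linarith
          have h8 : 1 ≤ d⁻¹ * kr v := by
            rw [inv_mul_eq_div, le_div_iff₀ hd0]
            linarith
          calc |F (s + v)| = |F (s + v)| * 1 := (mul_one _).symm
            _ ≤ |F (s + v)| * (d⁻¹ * kr v) := mul_le_mul_of_nonneg_left h8 (abs_nonneg _)
            _ = d⁻¹ * (|F (s + v)| * kr v) := by ring
    _ ≤ ∫ v : ℝ, d⁻¹ * (|F (s + v)| * kr v) := by
        apply setIntegral_le_integral (h1.const_mul _)
        filter_upwards with v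
        have := kr_pos v
        positivity
    _ = d⁻¹ * ∫ v : ℝ, |F (s + v)| * kr v := integral_const_mul _ _
    _ ≤ d⁻¹ * (2 * K * ∫ v : ℝ, kr v) := mul_le_mul_of_nonneg_left h2 (by positivity)
    _ = 2 * (∫ v : ℝ, kr v) / d * K := by ring

end Pool.Agent.E7
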