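import Pool.Agent.Helper66.E7.Riesz

/-!
# Project 7E: one-sided bounds for the extended sums are large
-/

set_option autoImplicit false

open Complex Filter Topology MeasureTheory Set
open Pool.Agent.Helper18.ES (mu mu_le)
open Pool.Agent.Helper71.MA (Sys Fail Big)

namespace Pool.Agent.E7

/-- lower bound of the main terms -/
theorem main_term {T cH ρ s ε f : ℝ} {y j : ℕ} (hT3 : 3 ≤ T) (hcH : 0 < cH) (hρ3 : 1 ≤ ρ) (hρ2 : ρ ≤ 2 * s)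
    (hs : s = 2 / 5 * Real.sqrt (2 ^ j)) (hKT : Real.sqrt (2 ^ (j + 1)) ≤ T ^ (1 / 100 : ℝ))
    (hH : ∀ μ : ℝ, 5 / 4 * ρ ≤ μ → μ ≤ T ^ (1 / 100 : ℝ) →
      cH * Real.sqrt (μ / (ρ * T)) ≤ ‖osc T ρ (2 / μ) 1 (1 / μ ^ 2) f (Real.log ρ) (3 * Real.log T)‖)
    {m : ℕ} (hm : m ∈ Sd y j) {a : ℂ}
    (hr : ‖a + ((mu m / m : ℝ) : ℂ) * osc T ρ (2 / Real.sqrt m) 1 (1 / m) f (Real.log ρ) (3 * Real.log T)‖ ≤ ε) :
    cH / (Real.sqrt T * Real.sqrt (2 ^ (j + 1))) * (1 / Real.sqrt m) - ε ≤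
      (zp (osc T ρ (2 / Real.sqrt m) 1 (1 / m) f (Real.log ρ) (3 * Real.log T)) (mu m) * a).re := by
  obtain ⟨hm1, hm2, _, hmsq⟩ := mem_Sd hm
  have hT0 : 0 < T := by linarith
  have hsT : 0 < Real.sqrt T := Real.sqrt_pos.2 hT0
  have hm1' : (2 : ℝ) ^ j ≤ m := by exact_mod_cast hm1.le
  have hm2' : (m : ℝ) ≤ 2 ^ (j + 1) := by exact_mod_cast hm2
  have hm0 : (0:ℝ) < m := lt_of_lt_of_le (by positivity) hm1'
  have hsm : Real.sqrt (2 ^ j) ≤ Real.sqrt m := Real.sqrt_le_sqrt hm1'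
  have hsm2 : Real.sqrt m ≤ Real.sqrt (2 ^ (j + 1)) := Real.sqrt_le_sqrt hm2'
  have h8 : 5 / 4 * ρ ≤ Real.sqrt m := by
    refine le_trans ?_ hsm
    rw [hs] at hρ2
    linarith
  have hsm0 : 0 < Real.sqrt m := Real.sqrt_pos.2 hm0
  have hHm := hH (Real.sqrt m) h8 (hsm2.trans hKT)
  rw [Real.sq_sqrt hm0.le] at hHm
  have hlow : cH / Real.sqrt T ≤ ‖osc T ρ (2 / Real.sqrt m) 1 (1 / m) f (Real.log ρ) (3 * Real.log T)‖ := by
    refine le_trans ?_ hHm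
    rw [div_eq_mul_one_div]
    apply mul_le_mul_of_nonneg_left _ hcH.le
    rw [← Real.sqrt_one, ← Real.sqrt_div zero_le_one]
    apply Real.sqrt_le_sqrt
    rw [div_le_div_iff₀ hT0 (by positivity)]
    have : ρ ≤ Real.sqrt m := by linarith
    nlinarith
  set o := osc T ρ (2 / Real.sqrt m) 1 (1 / m) f (Real.log ρ) (3 * Real.log T) with ho'
  have ho : o ≠ 0 := by
    intro h
    rw [h, norm_zero] at hlow
    have : 0 < cH / Real.sqrt T := by positivity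
    linarith
  have h10 := zp_re (m := (m : ℝ)) (mu_sq hmsq) ho hr
  refine le_trans ?_ h10
  have h11 : cH / (Real.sqrt T * Real.sqrt (2 ^ (j + 1))) * (1 / Real.sqrt m) ≤ ‖o‖ / m := by
    have h12 : (m : ℝ) = Real.sqrt m * Real.sqrt m := (Real.mul_self_sqrt hm0.le).symm
    calc cH / (Real.sqrt T * Real.sqrt (2 ^ (j + 1))) * (1 / Real.sqrt m) =
          (cH / Real.sqrt T) / (Real.sqrt (2 ^ (j + 1)) * Real.sqrt m) := by
          field_simp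
      _ ≤ ‖o‖ / (Real.sqrt m * Real.sqrt m) :=
          div_le_div₀ (norm_nonneg _) hlow (by positivity) (mul_le_mul_of_nonneg_right hsm2 hsm0.le)
      _ = _ := by rw [← h12]
  linarith

/-- the main inequality, for one value of `T` -/
theorem core_T (hF : StmtF) (hQI : QI) (hJ : StmtJ) {T : ℝ} (hT3 : 3 ≤ T) {A : ℝ} {c : ℂ → ℂ} {f K CE cH : ℝ}
    (hS : Sys (FT T f) A c) (hcH : 0 < cH) (hCE0 : 0 ≤ CE) (hK : 0 ≤ K) (hle : ∀ u : ℝ, FT T f u ≤ K)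
    (hD : ∀ s : ℝ, ∫ v in (-2:ℝ)..2, |FT T f (s + v)| ≤ CE * K)
    (hnr : ∀ ρ : ℝ, 1 ≤ ρ → ρ ≤ T ^ (1 / 100 : ℝ) → ∀ η f : ℝ, FR T η →
      (∀ k : ℕ, Squarefree k → T ^ (-(1 / 100) : ℝ) ≤ |η ^ 2 - 4 / k|) →
      ‖av (T ^ (1 / 3 : ℝ)) η (fun τ => Qr T f (ρ * T + τ))‖ ≤ T ^ (-(13 / 25) : ℝ))
    (hres : ∀ ρ : ℝ, 1 ≤ ρ → ρ ≤ T ^ (1 / 100 : ℝ) → ∀ f : ℝ, ∀ m : ℕ, 1 ≤ m → (m : ℝ) ≤ T → ∀ η : ℝ, FR T η →
      (∀ k : ℕ, Squarefree k → k ≠ m → T ^ (-(1 / 100) : ℝ) ≤ |η ^ 2 - 4 / k|) →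
      ‖av (T ^ (1 / 3 : ℝ)) η (fun τ => Qr T f (ρ * T + τ)) +
        ((mu m / m : ℝ) : ℂ) * osc T ρ η 1 (1 / m) f (Real.log ρ) (3 * Real.log T)‖ ≤ T ^ (-(13 / 25) : ℝ))
    (hH : ∀ ρ : ℝ, 1 ≤ ρ → ∀ μ : ℝ, 5 / 4 * ρ ≤ μ → μ ≤ T ^ (1 / 100 : ℝ) → ∀ f : ℝ,
      cH * Real.sqrt (μ / (ρ * T)) ≤ ‖osc T ρ (2 / μ) 1 (1 / μ ^ 2) f (Real.log ρ) (3 * Real.log T)‖)
    {y j : ℕ} (hj : 3 ≤ j) (hj2 : (4 : ℝ) * 2 ^ j ≤ T ^ (1 / 400 : ℝ))
    (hfr : ∀ e : ℕ → ℤ, (∀ m, |e m| ≤ 1) → (∃ m ∈ Sd y j, e m ≠ 0) →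
      FR T (∑ m ∈ Sd y j, (e m : ℝ) * (2 / Real.sqrt m)) ∧
      ∀ k : ℕ, Squarefree k → (∃ m ∈ Sd y j, m ≠ k ∧ e m ≠ 0) →
        T ^ (-(1 / 100) : ℝ) ≤ |(∑ m ∈ Sd y j, (e m : ℝ) * (2 / Real.sqrt m)) ^ 2 - 4 / k|)
    (hcard : ((Sd y j).card : ℝ) ≤ T ^ (1 / 400 : ℝ)) (h3 : (3 : ℝ) ^ (Sd y j).card ≤ T ^ (1 / 200 : ℝ))
    (hc1 : 64 / cH ≤ T ^ (1 / 100 : ℝ)) (hc4 : 4 ≤ T ^ (1 / 100 : ℝ)) (hR2 : 2 ≤ T ^ (1 / 3 : ℝ))
    (hSg : 1 ≤ ∑ m ∈ Sd y j, 1 / Real.sqrt m) :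
    cH / 10 / (2 + CE) * ∑ m ∈ Sd y j, 1 / Real.sqrt m ≤ K := by
  have hT0 : 0 < T := by linarith
  have hT1 : 1 ≤ T := by linarith
  set S := Sd y j with hSd
  set Sg := ∑ m ∈ S, 1 / Real.sqrt m with hSgd
  set R := T ^ (1 / 3 : ℝ) with hR
  have hR0 : 0 < R := Real.rpow_pos_of_pos hT0 _
  have hRT : R ≤ T / 2 := by
    have h1 : R * R * R = T := by
      rw [hR, ← Real.rpow_add hT0, ← Real.rpow_add hT0]; norm_num
    nlinarith [mul_pos hR0 hR0]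
  set s := 2 / 5 * Real.sqrt (2 ^ j) with hs
  have hs1 : 1 ≤ s := by
    have h1 : (5 / 2 : ℝ) ≤ Real.sqrt (2 ^ j) := by
      rw [Real.le_sqrt (by norm_num) (by positivity)]
      have h2 : (2:ℝ) ^ 3 ≤ 2 ^ j := pow_le_pow_right₀ (by norm_num) hj
      linarith
    rw [hs]; linarith
  have hs0 : 0 < s := by linarith
  have hj0 : (1 : ℝ) ≤ 2 ^ j := one_le_pow₀ (by norm_num)
  have hsle : Real.sqrt (2 ^ j) ≤ 2 ^ j := by
    rw [Real.sqrt_le_left (by positivity)]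
    nlinarith
  have h400 : T ^ (1 / 400 : ℝ) ≤ T ^ (1 / 100 : ℝ) := Real.rpow_le_rpow_of_exponent_le hT1 (by norm_num)
  have hs2 : 2 * s ≤ T ^ (1 / 100 : ℝ) := by rw [hs]; linarith
  have hK2 : Real.sqrt (2 ^ (j + 1)) ≤ T ^ (1 / 100 : ℝ) := by
    have h1 : Real.sqrt (2 ^ (j + 1)) ≤ 2 ^ (j + 1) := by
      rw [Real.sqrt_le_left (by positivity)]
      have : (1 : ℝ) ≤ 2 ^ (j + 1) := one_le_pow₀ (by norm_num)
      nlinarith
    have h2 : (2:ℝ) ^ (j + 1) = 2 * 2 ^ j := by ring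
    linarith
  -- the centre
  obtain ⟨y', hy1, hy2, hy3⟩ := sel hS hD (l := Real.log T) (X := s * T) (R := R) (by positivity) hR0 (by nlinarith)
  set ρ := y' / T with hρ
  have hyρ : y' = ρ * T := by rw [hρ]; field_simp
  have hρ1 : s ≤ ρ := by rw [hρ, le_div_iff₀ hT0]; exact hy1
  have hρ2 : ρ ≤ 2 * s := by rw [hρ, div_le_iff₀ hT0]; linarith
  have hρ3 : 1 ≤ ρ := hs1.trans hρ1
  have hρ4 : ρ ≤ T ^ (1 / 100 : ℝ) := hρ2.trans hs2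
  rw [hyρ] at hy3
  have hgi : IntervalIntegrable (fun τ => kap R τ * Qr T f (ρ * T + τ)) volume 0 R :=
    (hQI T f ρ hT3 hρ3).continuousOn_mul (kap_cont R).continuousOn
  have hki : IntervalIntegrable (fun τ => kap R τ) volume 0 R := (kap_cont R).intervalIntegrable _ _
  set z : ℕ → ℂ := fun m => if Squarefree m then
    zp (osc T ρ (2 / Real.sqrt m) 1 (1 / m) f (Real.log ρ) (3 * Real.log T)) (mu m) else 1 with hz
  have hz1 : ∀ m, ‖z m‖ = 1 := by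
    intro m
    simp only [hz]
    split_ifs with h
    · exact zp_norm (mu_sq h)
    · simp
  set ω : ℕ → ℝ := fun m => 2 / Real.sqrt m with hω
  set ε := T ^ (-(13 / 25) : ℝ) with hε
  have hε0 : 0 < ε := Real.rpow_pos_of_pos hT0 _
  have hJ1 := hJ S z ω R ε (fun τ => kap R τ * Qr T f (ρ * T + τ)) hR0.le hε0.le hz1 hgi (by
    intro e he ⟨m, hm, n, hn, hmn, hem, hen⟩
    obtain ⟨h1, h2⟩ := hfr e he ⟨m, hm, hem⟩
    refine hnr ρ hρ3 hρ4 _ f h1 (fun k hk => h2 k hk ?_)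
    by_cases hmk : m = k
    · exact ⟨n, hn, fun h => hmn (hmk.trans h.symm), hen⟩
    · exact ⟨m, hm, hmk, hem⟩)
  have hJ2 := hJ S z ω R ε (fun τ => kap R τ * 1) hR0.le hε0.le hz1 (by simpa using hki) (by
    intro e he ⟨m, hm, n, hn, hmn, hem, hen⟩
    exact av_one_small hT3 hR (hfr e he ⟨m, hm, hem⟩).1)
  set P : ℝ → ℝ := fun τ => ∏ m ∈ S, (1 + (z m * cexp (-((2 * Real.pi * ω m * τ : ℝ) : ℂ) * I)).re) with hP
  have hP0 : ∀ τ, 0 ≤ P τ := fun τ => Finset.prod_nonneg fun m _ => rf_nonneg (hz1 m) (ω m) τ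
  have hPc : Continuous P := continuous_finsetProd _ fun m _ => rf_cont (z m) (ω m)
  have hfm : ∀ m ∈ S, FR T (ω m) ∧ ∀ k : ℕ, Squarefree k → k ≠ m → T ^ (-(1 / 100) : ℝ) ≤ |(ω m) ^ 2 - 4 / k| := by
    intro m hm
    have h1 := hfr (fun n => if n = m then 1 else 0) (fun n => by split_ifs <;> simp) ⟨m, hm, by simp⟩
    rw [sum_single2 hm] at h1
    refine ⟨h1.1, fun k hk hkm => h1.2 k hk ⟨m, hm, hkm.symm, by simp⟩⟩
  -- small quantities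
  have hq : T ^ (1 / 200 : ℝ) * ε ≤ 1 / 4 := by
    rw [hε, ← Real.rpow_add hT0]
    have h9 : T ^ (1 / 200 + -(13 / 25) : ℝ) ≤ T ^ (-(1 / 100) : ℝ) := Real.rpow_le_rpow_of_exponent_le hT1 (by norm_num)
    rw [Real.rpow_neg hT0.le] at h9
    have h10 : (T ^ (1 / 100 : ℝ))⁻¹ ≤ 4⁻¹ := inv_anti₀ (by norm_num) hc4
    linarith
  have h34 : T ^ (1 / 400 : ℝ) ≤ T ^ (1 / 200 : ℝ) := Real.rpow_le_rpow_of_exponent_le hT1 (by norm_num)
  have h3ε : (3:ℝ) ^ S.card * ε ≤ T ^ (1 / 200 : ℝ) * ε := mul_le_mul_of_nonneg_right h3 hε0.le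
  have hcε : (S.card : ℝ) * ε ≤ T ^ (1 / 200 : ℝ) * ε := mul_le_mul_of_nonneg_right (hcard.trans h34) hε0.le
  have hPm := prod_mean (R := R) (ε := ε) hR0 hz1 hJ2 (fun m hm => av_one_small hT3 hR (hfm m hm).1) (by linarith) (by linarith)
  have hup := upper (f := f) hF hQI hT3 hR0 hR hρ3 hs0 hρ1 hK hle hP0 hPc hPm
  have hmean := mean (D := CE * K) hF hQI hT3 hR0 hR hρ3 hs0 hy3
  have hsT : 0 < Real.sqrt T := Real.sqrt_pos.2 hT0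
  have hmain : ∀ m ∈ S, cH / (Real.sqrt T * Real.sqrt (2 ^ (j + 1))) * (1 / Real.sqrt m) - ε ≤
      (z m * av R (ω m) (fun τ => Qr T f (ρ * T + τ))).re := by
    intro m hm
    obtain ⟨hm1, hm2, _, hmsq⟩ := mem_Sd hm
    have hm0 : 1 ≤ m := by
      have : 0 < 2 ^ j := by positivity
      omega
    have hmT : (m : ℝ) ≤ T := by
      have h1 : T ^ (1 / 400 : ℝ) ≤ T ^ (1:ℝ) := Real.rpow_le_rpow_of_exponent_le hT1 (by norm_num)
      rw [Real.rpow_one] at h1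
      have h2 : (m : ℝ) ≤ 2 ^ (j + 1) := by exact_mod_cast hm2
      have h4 : (2:ℝ) ^ (j + 1) = 2 * 2 ^ j := by ring
      linarith
    obtain ⟨hF1, hF2'⟩ := hfm m hm
    have hr := hres ρ hρ3 hρ4 f m hm0 hmT (ω m) hF1 hF2'
    have h5 := main_term (y := y) (j := j) hT3 hcH hρ3 hρ2 hs hK2 (fun μ h1 h2 => hH ρ hρ3 μ h1 h2 f) hm hr
    have hzm : z m = zp (osc T ρ (2 / Real.sqrt m) 1 (1 / m) f (Real.log ρ) (3 * Real.log T)) (mu m) := by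
      simp only [hz]
      rw [if_pos hmsq]
    rw [hzm]
    exact h5
  have hsum : cH / (Real.sqrt T * Real.sqrt (2 ^ (j + 1))) * Sg - S.card * ε ≤
      ∑ m ∈ S, (z m * av R (ω m) (fun τ => Qr T f (ρ * T + τ))).re := by
    have h1 := Finset.sum_le_sum hmain
    rw [Finset.sum_sub_distrib, ← Finset.mul_sum, Finset.sum_const, nsmul_eq_mul] at h1
    exact h1
  have hJ1' := (abs_le.mp hJ1).1
  have h8 : (∑ m ∈ S, (z m * ∫ τ in (0:ℝ)..R, ((kap R τ * Qr T f (ρ * T + τ) : ℝ) : ℂ) * cexp (-((2 * Real.pi * ω m * τ : ℝ) : ℂ) * I)).re) =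
      ∑ m ∈ S, (z m * av R (ω m) (fun τ => Qr T f (ρ * T + τ))).re := rfl
  rw [h8] at hJ1'
  have h9 := (abs_le.mp hmean).1
  -- in units of 1 / (s sqrt T)
  set W := 1 / (s * Real.sqrt T) with hW
  have hW0 : 0 < W := by positivity
  have hsq2 : Real.sqrt (2 ^ (j + 1)) ≤ 4 * s := by
    rw [hs, pow_succ, Real.sqrt_mul (by positivity)]
    have h10 : Real.sqrt 2 ≤ 8 / 5 := by
      rw [Real.sqrt_le_left (by norm_num)]; norm_num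
    have h11 := Real.sqrt_nonneg ((2:ℝ) ^ j)
    nlinarith
  have hA : cH / 4 * Sg * W ≤ cH / (Real.sqrt T * Real.sqrt (2 ^ (j + 1))) * Sg := by
    have h10 : cH / 4 * W ≤ cH / (Real.sqrt T * Real.sqrt (2 ^ (j + 1))) := by
      have h11 : cH / 4 * W = cH / (Real.sqrt T * (4 * s)) := by rw [hW]; field_simp
      rw [h11]
      apply div_le_div_of_nonneg_left hcH.le
      · have : 0 < Real.sqrt (2 ^ (j + 1)) := Real.sqrt_pos.2 (by positivity)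
        positivity
      · exact mul_le_mul_of_nonneg_left hsq2 hsT.le
    have h11 : 0 ≤ Sg := by linarith
    calc cH / 4 * Sg * W = cH / 4 * W * Sg := by ring
      _ ≤ _ := mul_le_mul_of_nonneg_right h10 h11
  have hBs : (S.card : ℝ) * ε + (3:ℝ) ^ S.card * ε ≤ cH / 32 * W := by
    have h12 : (S.card : ℝ) * ε + (3:ℝ) ^ S.card * ε ≤ 2 * (T ^ (1 / 200 : ℝ) * ε) := by linarith
    refine h12.trans ?_
    have h13 : T ^ (1 / 200 : ℝ) * ε * (s * Real.sqrt T) ≤ T ^ (-(1 / 100) : ℝ) := by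
      have h14 : s ≤ T ^ (1 / 400 : ℝ) := by rw [hs]; linarith
      calc T ^ (1 / 200 : ℝ) * ε * (s * Real.sqrt T) ≤ T ^ (1 / 200 : ℝ) * ε * (T ^ (1 / 400 : ℝ) * Real.sqrt T) := by
            apply mul_le_mul_of_nonneg_left _ (by positivity)
            exact mul_le_mul_of_nonneg_right h14 hsT.le
        _ ≤ _ := by
            rw [hε, Real.sqrt_eq_rpow, ← Real.rpow_add hT0, ← Real.rpow_add hT0, ← Real.rpow_add hT0]
            exact Real.rpow_le_rpow_of_exponent_le hT1 (by norm_num)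
    have h14 : T ^ (-(1 / 100) : ℝ) ≤ cH / 64 := by
      rw [Real.rpow_neg hT0.le]
      have h15 : (T ^ (1 / 100 : ℝ))⁻¹ ≤ (64 / cH)⁻¹ := inv_anti₀ (by positivity) hc1
      rwa [inv_div] at h15
    rw [hW, mul_one_div, le_div_iff₀ (by positivity)]
    linarith
  have e1 : K / (s * Real.sqrt T) = K * W := by rw [hW]; ring
  have e2 : CE * K / (s * Real.sqrt T) = CE * K * W := by rw [hW]; ring
  rw [e1] at hup
  rw [e2] at h9
  have hfin : (cH / 4 * Sg - cH / 32) * W ≤ (2 * K + 1 / 2 * (CE * K)) * W := by nlinarith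
  have hfin2 := le_of_mul_le_mul_right hfin hW0
  rw [div_mul_eq_mul_div, div_le_iff₀ (by positivity)]
  nlinarith

end Pool.Agent.E7
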