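import Pool.Agent.Helper71.MA.Main
import Pool.Agent.Helper71.MR.Fin

/-!
# Project 7E (MP_a499ba_nt): definitions and statements of the blocks

The sums `sum_(n <= x) mu(n) cos(2 pi T n / x + f)`.
-/

set_option autoImplicit false

open Complex Filter Topology MeasureTheory Set
open Pool.Agent.Helper57.Zeta
open Pool.Agent.Helper71.MR (ms mm rr kr Cin Qf cw)
open Pool.Agent.Helper18.ES (mu)
open Pool.Agent.Helper71.MA (Sys Fail Big)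

namespace Pool.Agent.E7

/-- the weighted sums -/
noncomputable def ST (T f x : ℝ) : ℝ := ∑ n ∈ Finset.Icc 1 ⌊x⌋₊, mu n * Real.cos (2 * Real.pi * T * (n / x) + f)

/-- the extended normalised sums -/
noncomputable def FT (T f u : ℝ) : ℝ := Real.cos (2 * Real.pi * T + f) * ms u +
  2 * Real.pi * T * ∫ v in Ioi (0:ℝ),
    Real.exp (-(3 / 2 * v)) * Real.sin (2 * Real.pi * T * Real.exp (-v) + f) * ms (u - v)

/-- the Mellin factor -/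
noncomputable def WT (T f : ℝ) (w : ℂ) : ℂ := (Real.cos (2 * Real.pi * T + f) : ℂ) +
  2 * Real.pi * T * ∫ v in Ioi (0:ℝ),
    ((Real.exp (-(3 / 2 * v)) * Real.sin (2 * Real.pi * T * Real.exp (-v) + f) : ℝ) : ℂ) * cexp (-(w * v))

/-- the function on the dual side -/
noncomputable def BB (T f a : ℝ) : ℝ := Real.cos (2 * Real.pi * T + f) * Cin a +
  2 * Real.pi * T * ∫ y in Ioc (0:ℝ) 1, Cin (a / y) * Real.sin (2 * Real.pi * T * y + f)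

/-- the kernel `6 τ (R - τ) / R^3` on `[0, R]` -/
noncomputable def kap (R τ : ℝ) : ℝ := 6 * τ * (R - τ) / R ^ 3

/-- averages against the kernel, at frequency `η` -/
noncomputable def av (R η : ℝ) (g : ℝ → ℝ) : ℂ :=
  ∫ τ in (0:ℝ)..R, ((kap R τ * g τ : ℝ) : ℂ) * cexp (-((2 * Real.pi * η * τ : ℝ) : ℂ) * I)

/-- the integrand of the representation of `BB` for `q` below `log ρ` -/
noncomputable def bl (f r k q : ℝ) : ℝ := Real.cos f * (1 - Real.cos (2 * Real.pi * r * (Real.exp q / k)))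

/-- the integrand of the representation of `BB` for `q` above `log ρ` -/
noncomputable def bu (f r k q : ℝ) : ℝ := (Real.cos f - Real.cos (2 * Real.pi * r * Real.exp (-q) + f)) *
  (1 - Real.cos (2 * Real.pi * r * (Real.exp q / k)))

/-- average of `cos (2 π (ρ T + τ) (α e^-q + β e^q) + φ)` -/
noncomputable def osc (T ρ η α β φ a b : ℝ) : ℂ := ∫ q in a..b, av (T ^ (1 / 3 : ℝ)) η
  (fun τ => Real.cos (2 * Real.pi * (ρ * T + τ) * (α * Real.exp (-q) + β * Real.exp q) + φ))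

/-! ## the analytic side -/

/-- zeros on the line and simple -/
def RHS : Prop := (∀ w : ℂ, xi (1 / 2 + w) = 0 → w.re = 0) ∧ (∀ w : ℂ, xi (1 / 2 + w) = 0 → deriv xi (1 / 2 + w) ≠ 0)

/-- A1: the recurrence theorem without nonvanishing of the coefficients -/
def StmtA1 : Prop := RHS → ∀ (F : ℝ → ℝ) (A : ℝ) (c : ℂ → ℂ), Sys F A c → ∀ K : ℝ, Fail F 1 K 1 → ∀ t : ℝ, F t ≤ K

/-- A2: one zero off the line, or one multiple zero, where the coefficient is not zero, excludes one-sided bounds -/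
def StmtA2 : Prop := ¬ RHS → ∃ w0 : ℂ, xi (1 / 2 + w0) = 0 ∧ ∀ (F : ℝ → ℝ) (A : ℝ) (c : ℂ → ℂ), Sys F A c →
  c w0 ≠ 0 → ∀ K : ℝ, ¬ Fail F 1 K 1

/-- B: the extended sums are a system -/
def StmtB : Prop := ∀ T f : ℝ, ∃ A : ℝ, Sys (FT T f) A (fun w => cw w * WT T f w)

/-- C: the Mellin factor at a fixed point does not vanish for large `T`, uniformly in `f` -/
def StmtC : Prop := ∀ w : ℂ, |w.re| < 1 / 2 → w.im ≠ 0 → ∃ T1 : ℝ, ∀ T : ℝ, T1 ≤ T → ∀ f : ℝ, WT T f w ≠ 0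

/-- D: the direct side -/
def StmtD : Prop := ∀ T f : ℝ, ∃ C : ℝ, ∀ u : ℝ, 0 ≤ u →
  |FT T f u - Real.exp (-(u / 2)) * ST T f (Real.exp u)| ≤ C * Real.exp (-(u / 2))

/-- E: two-sided averages from a one-sided bound -/
def StmtE : Prop := ∃ C : ℝ, 0 ≤ C ∧ ∀ (F : ℝ → ℝ) (A : ℝ) (c : ℂ → ℂ), Sys F A c → ∀ K : ℝ, 0 ≤ K →
  (∀ t : ℝ, F t ≤ K) → ∀ s : ℝ, ∫ v in (-2:ℝ)..2, |F (s + v)| ≤ C * K

/-! ## the dual side -/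

/-- F: the dual formula -/
def StmtF : Prop := ∀ T f u : ℝ, u < 0 → Summable (fun k : ℕ => mu k / k * BB T f (2 * Real.pi * Real.exp (-u) / k)) ∧
  FT T f u = Real.exp (-(u / 2)) *
    (2 * Real.cos f - 2 * ∑' k : ℕ, mu k / k * BB T f (2 * Real.pi * Real.exp (-u) / k))

/-- FB: the crude bound -/
def StmtFB : Prop := ∀ T f a : ℝ, 1 ≤ T → 0 ≤ a → |BB T f a| ≤ 100 * T * a ^ (1 / 4 : ℝ)

/-- F2: the representation of `BB` with linear phases -/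
def StmtF2 : Prop := ∀ T f ρ r k L : ℝ, 1 ≤ T → 1 ≤ ρ → ρ * T ≤ r → r ≤ 2 * (ρ * T) → 1 ≤ k → Real.log ρ + 1 ≤ L →
  |BB T f (2 * Real.pi * r ^ 2 / (T * k)) -
    ((∫ q in (-L)..(Real.log ρ), bl f r k q) + ∫ q in (Real.log ρ)..L, bu f r k q)| ≤
    2 * (r / (ρ * T) - 1) + 40 * r * Real.exp (-L)

/-! ## oscillatory integrals -/

/-- G: non-resonant averages -/
def StmtG : Prop := ∃ T0 : ℝ, ∀ T : ℝ, T0 ≤ T → ∀ ρ : ℝ, 1 ≤ ρ → ρ ≤ T ^ (1 / 100 : ℝ) →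
  ∀ η : ℝ, T ^ (-(1 / 100) : ℝ) ≤ |η| → |η| ≤ T ^ (1 / 100 : ℝ) →
  ∀ α β : ℝ, |α| ≤ 1 → |β| ≤ 1 → T ^ (-(1 / 100) : ℝ) ≤ |η ^ 2 - 4 * (α * β)| →
  ∀ φ a b : ℝ, |a| ≤ 4 * Real.log T → |b| ≤ 4 * Real.log T → ‖osc T ρ η α β φ a b‖ ≤ T ^ (-(11 / 20) : ℝ)

/-- H: the main term -/
def StmtH : Prop := ∃ c T0 : ℝ, 0 < c ∧ ∀ T : ℝ, T0 ≤ T → ∀ ρ : ℝ, 1 ≤ ρ →
  ∀ μ : ℝ, 5 / 4 * ρ ≤ μ → μ ≤ T ^ (1 / 100 : ℝ) → ∀ f : ℝ,
  c * Real.sqrt (μ / (ρ * T)) ≤ ‖osc T ρ (2 / μ) 1 (1 / μ ^ 2) f (Real.log ρ) (3 * Real.log T)‖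

/-! ## arithmetic -/

/-- I: separation of the sums of reciprocals of square roots -/
def StmtI : Prop := ∃ K0 : ℕ, ∀ K : ℕ, K0 ≤ K → ∀ e : ℕ → ℤ, (∀ m, |e m| ≤ 1) →
  (∀ m, e m ≠ 0 → 1 ≤ m ∧ m ≤ K ∧ Squarefree m) → (∃ m, e m ≠ 0) →
  Real.exp (-Real.exp (3 * K)) ≤ |∑ m ∈ Finset.Icc 1 K, (e m : ℝ) / Real.sqrt m| ∧
  ∀ k : ℕ, Squarefree k → (∃ m, m ≠ k ∧ e m ≠ 0) →
    Real.exp (-Real.exp (3 * K)) ≤ |(∑ m ∈ Finset.Icc 1 K, (e m : ℝ) / Real.sqrt m) ^ 2 - 1 / k|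

/-- J: the Riesz product -/
def StmtJ : Prop := ∀ (S : Finset ℕ) (z : ℕ → ℂ) (ω : ℕ → ℝ) (R ε : ℝ) (g : ℝ → ℝ), 0 ≤ R → 0 ≤ ε → (∀ m, ‖z m‖ = 1) →
  IntervalIntegrable g volume 0 R →
  (∀ e : ℕ → ℤ, (∀ m, |e m| ≤ 1) → (∃ m ∈ S, ∃ n ∈ S, m ≠ n ∧ e m ≠ 0 ∧ e n ≠ 0) →
    ‖∫ τ in (0:ℝ)..R, (g τ : ℂ) * cexp (-((2 * Real.pi * (∑ m ∈ S, (e m : ℝ) * ω m) * τ : ℝ) : ℂ) * I)‖ ≤ ε) →
  |(∫ τ in (0:ℝ)..R, g τ * ∏ m ∈ S, (1 + (z m * cexp (-((2 * Real.pi * ω m * τ : ℝ) : ℂ) * I)).re)) -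
    (∫ τ in (0:ℝ)..R, g τ) -
    ∑ m ∈ S, (z m * ∫ τ in (0:ℝ)..R, (g τ : ℂ) * cexp (-((2 * Real.pi * ω m * τ : ℝ) : ℂ) * I)).re| ≤ 3 ^ S.card * ε

/-- N: squarefree numbers -/
def StmtN : Prop := ∃ N0 : ℕ, ∀ N : ℕ, N0 ≤ N → (N : ℝ) ≤ (((Finset.Ioc (8 * N) (16 * N)).filter Squarefree).card : ℝ)

/-! ## the result -/

/-- L: one-sided bounds for the extended sums are large -/
def StmtL : Prop := ∃ c T0 : ℝ, 0 < c ∧ 16 ≤ T0 ∧ ∀ T : ℝ, T0 ≤ T → ∀ f K : ℝ, (∀ u : ℝ, FT T f u ≤ K) →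
  c * Real.sqrt (Real.log (Real.log T)) ≤ K

end Pool.Agent.E7
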