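import Pool.Agent.Helper66.E7.Defs

/-!
# Project 7E (MP_a499ba_nt): stronger arithmetic blocks (divisors of primorials)
-/

set_option autoImplicit false

open Complex Filter Topology MeasureTheory Set

namespace Pool.Agent.E7

/-- the frequencies: divisors of the primorial in a dyadic interval -/
def Sd (y j : ℕ) : Finset ℕ := (Finset.Ioc (2 ^ j) (2 ^ (j + 1))).filter (fun m => m ∣ primorial y)

/-- I2: separation, for divisors of the primorial of `y`; the exponent depends on the number of primes up to `y` -/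
def StmtI2 : Prop := ∃ y0 : ℕ, ∀ y : ℕ, y0 ≤ y → ∀ e : ℕ → ℤ, (∀ m, |e m| ≤ 1) →
  (∀ m, e m ≠ 0 → m ∣ primorial y) → (∃ m, e m ≠ 0) →
  Real.exp (-(10 * y * 4 ^ (Nat.primeCounting y))) ≤ |∑ m ∈ (primorial y).divisors, (e m : ℝ) / Real.sqrt m| ∧
  ∀ k : ℕ, Squarefree k → (∃ m, m ≠ k ∧ e m ≠ 0) →
    Real.exp (-(10 * y * 4 ^ (Nat.primeCounting y))) ≤
      |(∑ m ∈ (primorial y).divisors, (e m : ℝ) / Real.sqrt m) ^ 2 - 1 / k|

/-- N2: a dyadic interval with many divisors of the primorial -/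
def StmtN2 : Prop := ∃ c : ℝ, 0 < c ∧ ∃ y0 : ℕ, ∀ y : ℕ, y0 ≤ y → ∃ j : ℕ, 3 ≤ j ∧ 2 ^ j ≤ 4 ^ y ∧
  Real.exp (c * (Real.sqrt y / Real.log y)) ≤ ∑ m ∈ Sd y j, 1 / Real.sqrt m

/-- P2: Chebyshev's upper bound -/
def StmtP2 : Prop := ∃ C : ℝ, 0 < C ∧ ∃ y0 : ℕ, ∀ y : ℕ, y0 ≤ y → (Nat.primeCounting y : ℝ) ≤ C * (y / Real.log y)

/-- L2: one-sided bounds for the extended sums are large, stronger form -/
def StmtL2 : Prop := ∃ c T0 : ℝ, 0 < c ∧ 16 ≤ T0 ∧ ∀ T : ℝ, T0 ≤ T → ∀ f K : ℝ, (∀ u : ℝ, FT T f u ≤ K) →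
  Real.exp (c * Real.sqrt (Real.log (Real.log T) / Real.log (Real.log (Real.log T)))) ≤ K

end Pool.Agent.E7
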