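import Pool.Agent.Helper66.E7.Sum

/-!
# Project 7E: the dual function and the extended sums
-/

set_option autoImplicit false

open Complex Filter Topology MeasureTheory Set
open Pool.Agent.Helper18.ES (mu mu_le)
open Pool.Agent.Helper71.MA (Sys Fail Big)

namespace Pool.Agent.E7

theorem FT_eq (hF : StmtF) {T f r : ℝ} (hT : 0 < T) (hr : 0 < r) (hrT : T < r ^ 2) :
    FT T f (Real.log T - 2 * Real.log r) = r / Real.sqrt T * Qr T f r := by
  have h1 : Real.log T - 2 * Real.log r = Real.log (T / r ^ 2) := by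
    rw [Real.log_div hT.ne' (by positivity), Real.log_pow]; push_cast; ring
  have hlt : Real.log T - 2 * Real.log r < 0 := by
    rw [h1]
    apply Real.log_neg (by positivity)
    rw [div_lt_one (by positivity)]
    exact hrT
  obtain ⟨_, h2⟩ := hF T f _ hlt
  rw [h2]
  have e1 : Real.exp (-(Real.log T - 2 * Real.log r)) = r ^ 2 / T := by
    rw [h1, Real.exp_neg, Real.exp_log (by positivity)]
    field_simp
  have e2 : Real.exp (-((Real.log T - 2 * Real.log r) / 2)) = r / Real.sqrt T := by
    have h3 : -((Real.log T - 2 * Real.log r) / 2) = Real.log r - Real.log T / 2 := by ring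
    rw [h3, Real.exp_sub, Real.exp_log hr, ← Real.log_sqrt hT.le, Real.exp_log (Real.sqrt_pos.2 hT)]
  rw [e1, e2]
  unfold Qr
  have e3 : ∀ k : ℕ, 2 * Real.pi * (r ^ 2 / T) / (k : ℝ) = 2 * Real.pi * r ^ 2 / (T * k) := by
    intro k
    rw [← mul_div_assoc, div_div]
  simp_rw [e3]

theorem Qr_eq (hF : StmtF) {T f r : ℝ} (hT : 0 < T) (hr : 0 < r) (hrT : T < r ^ 2) :
    Qr T f r = Real.sqrt T / r * FT T f (Real.log T - 2 * Real.log r) := by
  rw [FT_eq hF hT hr hrT]
  have h1 := Real.sqrt_pos.2 hT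
  field_simp

theorem sqT {T ρ τ : ℝ} (hT : 3 ≤ T) (hρ : 1 ≤ ρ) (hτ : 0 ≤ τ) : T < (ρ * T + τ) ^ 2 := by
  have h1 : T ≤ ρ * T + τ := by nlinarith
  nlinarith

theorem qI (hB : StmtB) (hF : StmtF) (hFB : StmtFB) : QI := by
  intro T f ρ hT hρ
  have hT0 : 0 < T := by linarith
  have hT1 : 1 ≤ T := by linarith
  have hR0 : 0 < T ^ (1 / 3 : ℝ) := Real.rpow_pos_of_pos hT0 _
  obtain ⟨A, hS⟩ := hB T f
  have hm := hS.meas
  have hpi := Real.pi_pos
  rw [intervalIntegrable_iff_integrableOn_Ioc_of_le hR0.le]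
  have h1 : IntegrableOn (fun τ : ℝ => Real.sqrt T / (ρ * T + τ) * FT T f (Real.log T - 2 * Real.log (ρ * T + τ)))
      (Ioc 0 (T ^ (1 / 3 : ℝ))) := by
    apply Measure.integrableOn_of_bounded (M := 2 + 2 * (zc T (ρ * T + T ^ (1 / 3 : ℝ)) * ∑' k : ℕ, 1 / (k : ℝ) ^ (5 / 4 : ℝ))) (by simp)
    swap
    · rw [ae_restrict_iff' measurableSet_Ioc]
      filter_upwards with τ hτ
      have hr : 0 < ρ * T + τ := by have := hτ.1; positivity
      rw [← Qr_eq hF hT0 hr (sqT hT hρ hτ.1.le), Real.norm_eq_abs]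
      unfold Qr
      refine (abs_sub _ _).trans ?_
      rw [abs_mul, abs_mul, abs_of_pos (by norm_num : (0:ℝ) < 2)]
      have h2 := Real.abs_cos_le_one f
      have h3 : |∑' k : ℕ, mu k / k * BB T f (2 * Real.pi * (ρ * T + τ) ^ 2 / (T * k))| ≤
          zc T (ρ * T + T ^ (1 / 3 : ℝ)) * ∑' k : ℕ, 1 / (k : ℝ) ^ (5 / 4 : ℝ) := by
        rw [← tsum_mul_left, ← Real.norm_eq_abs]
        apply tsum_of_norm_bounded ((sm54.mul_left _).hasSum)
        intro k
        rw [Real.norm_eq_abs]
        refine (term_le hFB hT1 k).trans ?_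
        apply mul_le_mul_of_nonneg_right _ (by positivity)
        unfold zc
        apply mul_le_mul_of_nonneg_left _ (by positivity)
        apply Real.rpow_le_rpow (by positivity) _ (by norm_num)
        apply div_le_div_of_nonneg_right _ hT0.le
        apply mul_le_mul_of_nonneg_left _ (by positivity)
        apply pow_le_pow_left₀ hr.le
        linarith [hτ.2]
      linarith
    · apply Measurable.aestronglyMeasurable
      fun_prop
  refine h1.congr_fun ?_ measurableSet_Ioc
  intro τ hτ
  have hr : 0 < ρ * T + τ := by have := hτ.1; positivity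
  exact (Qr_eq hF hT0 hr (sqT hT hρ hτ.1.le)).symm

theorem F_ii {F : ℝ → ℝ} {A : ℝ} {c : ℂ → ℂ} (hS : Sys F A c) (a b : ℝ) :
    IntervalIntegrable (fun t => |F t|) volume a b := by
  rw [intervalIntegrable_iff]
  have hA := hS.pos
  apply Measure.integrableOn_of_bounded (M := A * Real.exp (3 / 4 * (|a| + |b|))) (by simp [uIoc])
  swap
  · rw [ae_restrict_iff' measurableSet_uIoc]
    filter_upwards with t ht
    rw [Real.norm_eq_abs, abs_abs]
    refine (hS.bd t).trans ?_
    apply mul_le_mul_of_nonneg_left _ hA.le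
    apply Real.exp_le_exp.mpr
    apply mul_le_mul_of_nonneg_left _ (by norm_num)
    have h1 := uIoc_subset_uIcc ht
    rw [uIcc, mem_Icc] at h1
    rw [abs_le]
    constructor
    · have h2 : -(|a| + |b|) ≤ min a b := by
        apply le_min
        · linarith [neg_abs_le a, abs_nonneg b]
        · linarith [neg_abs_le b, abs_nonneg a]
      linarith [h1.1]
    · have h2 : max a b ≤ |a| + |b| := by
        apply max_le
        · linarith [le_abs_self a, abs_nonneg b]
        · linarith [le_abs_self b, abs_nonneg a]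
      linarith [h1.2]
  · apply Measurable.aestronglyMeasurable
    have := hS.meas
    fun_prop

/-- logarithmic window -/
theorem win {F : ℝ → ℝ} {A : ℝ} {c : ℂ → ℂ} (hS : Sys F A c) {D : ℝ} (hD : ∀ s : ℝ, ∫ v in (-2:ℝ)..2, |F (s + v)| ≤ D)
    {X : ℝ} (hX : 0 < X) (l : ℝ) : ∫ r in Icc X (5 / 2 * X), |F (l - 2 * Real.log r)| / r ≤ D / 2 := by
  set V := Real.log (5 / 2) with hV
  have hV0 : 0 < V := Real.log_pos (by norm_num)
  have hV1 : V ≤ 1 := by
    rw [hV, Real.log_le_iff_le_exp (by norm_num)]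
    have := Real.exp_one_gt_d9
    linarith
  have himg : (fun v : ℝ => X * Real.exp v) '' Icc 0 V = Icc X (5 / 2 * X) := by
    ext r
    constructor
    · rintro ⟨v, hv, rfl⟩
      have h1 : 1 ≤ Real.exp v := Real.one_le_exp hv.1
      have h2 : Real.exp v ≤ 5 / 2 := by
        rw [← Real.exp_log (by norm_num : (0:ℝ) < 5 / 2)]
        exact Real.exp_le_exp.mpr hv.2
      constructor
      · nlinarith
      · nlinarith
    · intro hr
      have hr0 : 0 < r := lt_of_lt_of_le hX hr.1
      refine ⟨Real.log (r / X), ⟨?_, ?_⟩, ?_⟩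
      · apply Real.log_nonneg
        rw [le_div_iff₀ hX]; linarith [hr.1]
      · apply Real.log_le_log (by positivity)
        rw [div_le_iff₀ hX]; exact hr.2
      · simp only
        rw [Real.exp_log (by positivity)]
        field_simp
  have h1 := integral_image_eq_integral_abs_deriv_smul (s := Icc 0 V) (f := fun v : ℝ => X * Real.exp v)
    (f' := fun v : ℝ => X * Real.exp v) measurableSet_Icc
    (fun v _ => ((Real.hasDerivAt_exp v).const_mul X).hasDerivWithinAt)
    (fun a _ b _ h => Real.exp_injective (mul_left_cancel₀ hX.ne' h)) (fun r => |F (l - 2 * Real.log r)| / r)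
  rw [himg] at h1
  rw [h1]
  have h2 : ∀ v : ℝ, |X * Real.exp v| • (|F (l - 2 * Real.log (X * Real.exp v))| / (X * Real.exp v)) =
      |F ((l - 2 * Real.log X) - 2 * v)| := by
    intro v
    have h3 : 0 < X * Real.exp v := by positivity
    rw [abs_of_pos h3, smul_eq_mul, mul_div_cancel₀ _ h3.ne', Real.log_mul hX.ne' (Real.exp_pos _).ne', Real.log_exp]
    congr 2
    ring
  simp_rw [h2]
  rw [integral_Icc_eq_integral_Ioc, ← intervalIntegral.integral_of_le hV0.le,
    intervalIntegral.integral_comp_sub_mul (fun t => |F t|) (by norm_num : (2:ℝ) ≠ 0)]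
  set s0 := l - 2 * Real.log X with hs0
  have h3 := hD (s0 - 2)
  rw [intervalIntegral.integral_comp_add_left (fun t => |F t|)] at h3
  have h4 : ∫ t in (s0 - 2 * V)..(s0 - 2 * 0), |F t| ≤ ∫ t in (s0 - 2 + -2)..(s0 - 2 + 2), |F t| := by
    apply intervalIntegral.integral_mono_interval (by linarith) (by linarith) (by linarith)
    · filter_upwards with t
      exact abs_nonneg _
    · exact F_ii hS _ _
  rw [smul_eq_mul]
  refine (mul_le_mul_of_nonneg_left (h4.trans h3) (by norm_num)).trans (by linarith)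

theorem G_bd {F : ℝ → ℝ} {A : ℝ} {c : ℂ → ℂ} (hS : Sys F A c) {X : ℝ} (hX : 0 < X) (l : ℝ) :
    ∃ M : ℝ, 0 ≤ M ∧ ∀ r ∈ Icc X (5 / 2 * X), |F (l - 2 * Real.log r)| / r ≤ M := by
  have hA := hS.pos
  refine ⟨A * Real.exp (3 / 4 * (|l| + 2 * (|Real.log X| + |Real.log (5 / 2 * X)|))) / X, by positivity, ?_⟩
  intro r hr
  have hr0 : 0 < r := lt_of_lt_of_le hX hr.1
  apply div_le_div₀ (by positivity) _ hX hr.1
  refine (hS.bd _).trans ?_
  apply mul_le_mul_of_nonneg_left _ hA.le
  apply Real.exp_le_exp.mpr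
  apply mul_le_mul_of_nonneg_left _ (by norm_num)
  have h1 : |Real.log r| ≤ |Real.log X| + |Real.log (5 / 2 * X)| := by
    have h2 := Real.log_le_log hX hr.1
    have h3 := Real.log_le_log hr0 hr.2
    rw [abs_le]
    constructor
    · linarith [neg_abs_le (Real.log X), abs_nonneg (Real.log (5 / 2 * X))]
    · linarith [le_abs_self (Real.log (5 / 2 * X)), abs_nonneg (Real.log X)]
  refine (abs_sub _ _).trans ?_
  rw [abs_mul, abs_of_pos (by norm_num : (0:ℝ) < 2)]
  linarith

/-- choice of the centre of the window -/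
theorem sel {F : ℝ → ℝ} {A : ℝ} {c : ℂ → ℂ} (hS : Sys F A c) {D : ℝ} (hD : ∀ s : ℝ, ∫ v in (-2:ℝ)..2, |F (s + v)| ≤ D)
    {l X R : ℝ} (hX : 0 < X) (hR : 0 < R) (hRX : R ≤ X / 2) :
    ∃ y : ℝ, X ≤ y ∧ y ≤ 2 * X ∧ ∫ τ in (0:ℝ)..R, kap R τ * (|F (l - 2 * Real.log (y + τ))| / (y + τ)) ≤ D / (2 * X) := by
  have hw := win hS hD hX l
  obtain ⟨M, hM0, hM⟩ := G_bd hS hX l
  have hm := hS.meas
  have hGi : IntegrableOn (fun r : ℝ => |F (l - 2 * Real.log r)| / r) (Icc X (5 / 2 * X)) := by
    apply Measure.integrableOn_of_bounded (M := M) (by simp)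
    swap
    · rw [ae_restrict_iff' measurableSet_Icc]
      filter_upwards with r hr
      have hr0 : 0 < r := lt_of_lt_of_le hX hr.1
      rw [Real.norm_eq_abs, abs_of_nonneg (by positivity)]
      exact hM r hr
    · apply Measurable.aestronglyMeasurable
      fun_prop
  have hprod : IntegrableOn (Function.uncurry fun y τ : ℝ => kap R τ * (|F (l - 2 * Real.log (y + τ))| / (y + τ)))
      (uIoc X (2 * X) ×ˢ uIoc 0 R) := by
    have hfin : (volume : Measure (ℝ × ℝ)) (uIoc X (2 * X) ×ˢ uIoc 0 R) ≠ ⊤ := by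
      rw [Measure.volume_eq_prod, Measure.prod_prod]
      exact ENNReal.mul_ne_top (by simp [uIoc]) (by simp [uIoc])
    apply Measure.integrableOn_of_bounded (M := 6 * R * R / R ^ 3 * M) hfin
    · rw [ae_restrict_iff' (measurableSet_uIoc.prod measurableSet_uIoc)]
      filter_upwards with p hp
      rw [uIoc_of_le (by linarith), uIoc_of_le hR.le] at hp
      obtain ⟨hp1, hp2⟩ := hp
      have hr : p.1 + p.2 ∈ Icc X (5 / 2 * X) := ⟨by linarith [hp1.1, hp2.1], by linarith [hp1.2, hp2.2]⟩
      have hr0 : 0 < p.1 + p.2 := lt_of_lt_of_le hX hr.1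
      simp only [Function.uncurry]
      have hk := kap_nonneg hp2.1.le hp2.2
      rw [Real.norm_eq_abs, abs_of_nonneg (by positivity)]
      apply mul_le_mul _ (hM _ hr) (by positivity) (by positivity)
      unfold kap
      apply div_le_div_of_nonneg_right _ (by positivity)
      apply mul_le_mul _ _ (by linarith [hp2.2]) (by positivity)
      · linarith [hp2.2]
      · linarith [hp2.1]
    · apply Measurable.aestronglyMeasurable
      have := (kap_cont R).measurable
      simp only [Function.uncurry_def]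
      fun_prop
  have hsw := intervalIntegral_intervalIntegral_swap hprod
  have hΦ : IntegrableOn (fun y : ℝ => ∫ τ in (0:ℝ)..R, kap R τ * (|F (l - 2 * Real.log (y + τ))| / (y + τ))) (Ioc X (2 * X)) := by
    rw [uIoc_of_le (by linarith), uIoc_of_le hR.le, IntegrableOn, Measure.volume_eq_prod, ← Measure.prod_restrict] at hprod
    have := hprod.integral_prod_left
    refine this.congr ?_
    filter_upwards with y
    rw [intervalIntegral.integral_of_le hR.le]
    rfl
  have hin : ∀ τ ∈ Icc 0 R, ∫ y in X..(2 * X), kap R τ * (|F (l - 2 * Real.log (y + τ))| / (y + τ)) ≤ kap R τ * (D / 2) := by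
    intro τ hτ
    rw [intervalIntegral.integral_const_mul]
    apply mul_le_mul_of_nonneg_left _ (kap_nonneg hτ.1 hτ.2)
    rw [intervalIntegral.integral_comp_add_right (fun r : ℝ => |F (l - 2 * Real.log r)| / r),
      intervalIntegral.integral_of_le (by linarith)]
    refine le_trans (setIntegral_mono_set hGi ?_ ?_) hw
    · rw [EventuallyLE, ae_restrict_iff' measurableSet_Icc]
      filter_upwards with r hr
      have hr0 : 0 < r := lt_of_lt_of_le hX hr.1
      simp only [Pi.zero_apply]
      positivity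
    · apply LE.le.eventuallyLE
      intro r hr
      exact ⟨by linarith [hr.1, hτ.1], by linarith [hr.2, hτ.2]⟩
  have htot : ∫ y in X..(2 * X), ∫ τ in (0:ℝ)..R, kap R τ * (|F (l - 2 * Real.log (y + τ))| / (y + τ)) ≤ D / 2 := by
    rw [hsw]
    have h1 : ∫ τ in (0:ℝ)..R, ∫ y in X..(2 * X), kap R τ * (|F (l - 2 * Real.log (y + τ))| / (y + τ)) ≤
        ∫ τ in (0:ℝ)..R, kap R τ * (D / 2) := by
      apply intervalIntegral.integral_mono_on hR.le
      · rw [intervalIntegrable_iff_integrableOn_Ioc_of_le hR.le]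
        have hp2 := hprod
        rw [uIoc_of_le (by linarith), uIoc_of_le hR.le, IntegrableOn, Measure.volume_eq_prod, ← Measure.prod_restrict] at hp2
        have := hp2.integral_prod_right
        refine this.congr ?_
        filter_upwards with τ
        rw [intervalIntegral.integral_of_le (by linarith)]
        rfl
      · exact ((kap_cont R).mul continuous_const).intervalIntegrable _ _
      · exact hin
    rw [intervalIntegral.integral_mul_const, kap_int hR, one_mul] at h1
    exact h1
  obtain ⟨y, hy, hy2⟩ := exists_le_setAverage (μ := volume) (s := Ioc X (2 * X)) (by simp; linarith) (by simp) hΦ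
  refine ⟨y, hy.1.le, hy.2, hy2.trans ?_⟩
  rw [setAverage_eq, smul_eq_mul, ← intervalIntegral.integral_of_le (by linarith)]
  have hv : (volume.real (Ioc X (2 * X))) = X := by
    rw [Measure.real, Real.volume_Ioc, ENNReal.toReal_ofReal (by linarith)]; ring
  rw [hv]
  calc X⁻¹ * ∫ y in X..(2 * X), ∫ τ in (0:ℝ)..R, kap R τ * (|F (l - 2 * Real.log (y + τ))| / (y + τ)) ≤ X⁻¹ * (D / 2) :=
        mul_le_mul_of_nonneg_left htot (by positivity)
    _ = _ := by field_simp

end Pool.Agent.E7
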