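import Pool.Agent.Helper66.E7.Freq2

/-!
# Project 7E: the frequencies of the Riesz product, nonresonance
-/

set_option autoImplicit false

open Complex Filter Topology MeasureTheory Set
open Pool.Agent.Helper18.ES (mu mu_le)

namespace Pool.Agent.E7

theorem primorial_ne (y : ℕ) : primorial y ≠ 0 := (primorial_pos y).ne'

theorem primorial_sqf (y : ℕ) : Squarefree (primorial y) := by
  unfold primorial
  apply Finset.squarefree_prod_of_pairwise_isCoprime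
  · intro a ha b hb hab
    rw [Finset.mem_coe, Finset.mem_filter] at ha hb
    exact Nat.coprime_iff_isRelPrime.1 ((Nat.coprime_primes ha.2 hb.2).2 hab)
  · intro p hp
    rw [Finset.mem_filter] at hp
    exact hp.2.squarefree

theorem mem_Sd {y j m : ℕ} (h : m ∈ Sd y j) : 2 ^ j < m ∧ m ≤ 2 ^ (j + 1) ∧ m ∣ primorial y ∧ Squarefree m := by
  rw [Sd, Finset.mem_filter, Finset.mem_Ioc] at h
  exact ⟨h.1.1, h.1.2, h.2, (primorial_sqf y).squarefree_of_dvd h.2⟩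

theorem card_Sd (y j : ℕ) : (Sd y j).card ≤ 2 ^ (Nat.primeCounting y) := by
  have h1 : Sd y j ⊆ (primorial y).divisors := by
    intro m hm
    rw [Nat.mem_divisors]
    exact ⟨(mem_Sd hm).2.2.1, primorial_ne y⟩
  refine (Finset.card_le_card h1).trans ?_
  rw [Nat.card_divisors (primorial_ne y)]
  have h2 : ∀ p ∈ (primorial y).primeFactors, (primorial y).factorization p + 1 ≤ 2 := by
    intro p _
    have := (primorial_sqf y).natFactorization_le_one p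
    omega
  refine (Finset.prod_le_prod' h2).trans ?_
  rw [Finset.prod_const]
  apply Nat.pow_le_pow_right (by norm_num)
  have h3 : (primorial y).primeFactors ⊆ (Finset.range (y + 1)).filter Nat.Prime := by
    intro p hp
    rw [Nat.mem_primeFactors] at hp
    obtain ⟨hpp, hpd, _⟩ := hp
    unfold primorial at hpd
    rw [Prime.dvd_finsetProd_iff hpp.prime] at hpd
    obtain ⟨q, hq, hpq⟩ := hpd
    rw [Finset.mem_filter] at hq
    have : p = q := (Nat.prime_dvd_prime_iff_eq hpp hq.2).1 hpq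
    rw [this, Finset.mem_filter]
    exact hq
  refine (Finset.card_le_card h3).trans ?_
  rw [Nat.primeCounting, Nat.primeCounting', Nat.count_eq_card_filter_range]

/-- restriction of the coefficients -/
def rd (y j : ℕ) (e : ℕ → ℤ) (m : ℕ) : ℤ := if m ∈ Sd y j then e m else 0

theorem sum_rd (y j : ℕ) (e : ℕ → ℤ) : ∑ m ∈ Sd y j, (e m : ℝ) * (2 / Real.sqrt m) =
    2 * ∑ m ∈ (primorial y).divisors, (rd y j e m : ℝ) / Real.sqrt m := by
  have hsub : Sd y j ⊆ (primorial y).divisors := by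
    intro m hm
    rw [Nat.mem_divisors]
    exact ⟨(mem_Sd hm).2.2.1, primorial_ne y⟩
  rw [← Finset.sum_subset hsub, Finset.mul_sum]
  · apply Finset.sum_congr rfl
    intro m hm
    rw [rd, if_pos hm]
    ring
  · intro m _ hm
    rw [rd, if_neg hm]
    simp

theorem rd_abs {y j : ℕ} {e : ℕ → ℤ} (he : ∀ m, |e m| ≤ 1) (m : ℕ) : |rd y j e m| ≤ 1 := by
  unfold rd
  split_ifs
  · exact he m
  · simp

theorem rd_ne {y j : ℕ} {e : ℕ → ℤ} (m : ℕ) (h : rd y j e m ≠ 0) : m ∣ primorial y := by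
  unfold rd at h
  split_ifs at h with hm
  · exact (mem_Sd hm).2.2.1
  · exact absurd rfl h

theorem sum_le_card {y j : ℕ} {e : ℕ → ℤ} (he : ∀ m, |e m| ≤ 1) : |∑ m ∈ Sd y j, (e m : ℝ) * (2 / Real.sqrt m)| ≤ 2 * (Sd y j).card := by
  refine (Finset.abs_sum_le_sum_abs _ _).trans ?_
  have h1 : ∀ m ∈ Sd y j, |(e m : ℝ) * (2 / Real.sqrt m)| ≤ 2 := by
    intro m hm
    have hm1 : 1 ≤ m := by
      have h0 := (mem_Sd hm).1
      have h00 : 0 < 2 ^ j := by positivity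
      omega
    have h2 : (1:ℝ) ≤ Real.sqrt m := by
      rw [Real.one_le_sqrt]
      exact_mod_cast hm1
    have h3 : |(e m : ℝ)| ≤ 1 := by exact_mod_cast he m
    rw [abs_mul, abs_of_nonneg (by positivity : 0 ≤ 2 / Real.sqrt m)]
    have h4 : 2 / Real.sqrt m ≤ 2 := by
      rw [div_le_iff₀ (by linarith)]; linarith
    calc |(e m : ℝ)| * (2 / Real.sqrt m) ≤ 1 * 2 := mul_le_mul h3 h4 (by positivity) (by norm_num)
      _ = 2 := by norm_num
  refine (Finset.sum_le_sum h1).trans ?_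
  rw [Finset.sum_const, nsmul_eq_mul, mul_comm]

/-- a nonzero frequency is in the basic range; no resonance -/
theorem fr2 {y0 : ℕ} (hI : ∀ y : ℕ, y0 ≤ y → ∀ e : ℕ → ℤ, (∀ m, |e m| ≤ 1) →
    (∀ m, e m ≠ 0 → m ∣ primorial y) → (∃ m, e m ≠ 0) →
    Real.exp (-(10 * y * 4 ^ (Nat.primeCounting y))) ≤ |∑ m ∈ (primorial y).divisors, (e m : ℝ) / Real.sqrt m| ∧
    ∀ k : ℕ, Squarefree k → (∃ m, m ≠ k ∧ e m ≠ 0) →
      Real.exp (-(10 * y * 4 ^ (Nat.primeCounting y))) ≤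
        |(∑ m ∈ (primorial y).divisors, (e m : ℝ) / Real.sqrt m) ^ 2 - 1 / k|)
    {T : ℝ} (hT : 3 ≤ T) {y j : ℕ} (hy : y0 ≤ y) (h1 : T ^ (-(1 / 400) : ℝ) ≤ Real.exp (-(10 * y * 4 ^ (Nat.primeCounting y))))
    (h2 : (2 : ℝ) ^ (Nat.primeCounting y) ≤ T ^ (1 / 400 : ℝ) / 64)
    {e : ℕ → ℤ} (he : ∀ m, |e m| ≤ 1) (hex : ∃ m ∈ Sd y j, e m ≠ 0) :
    FR T (∑ m ∈ Sd y j, (e m : ℝ) * (2 / Real.sqrt m)) ∧
    ∀ k : ℕ, Squarefree k → (∃ m ∈ Sd y j, m ≠ k ∧ e m ≠ 0) →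
      T ^ (-(1 / 100) : ℝ) ≤ |(∑ m ∈ Sd y j, (e m : ℝ) * (2 / Real.sqrt m)) ^ 2 - 4 / k| := by
  have hT0 : 0 < T := by linarith
  have hT1 : 1 ≤ T := by linarith
  have hne : ∃ m, rd y j e m ≠ 0 := by
    obtain ⟨m, hm, hem⟩ := hex
    exact ⟨m, by rw [rd, if_pos hm]; exact hem⟩
  have hmain := hI y hy (rd y j e) (rd_abs he) (fun m h => rd_ne m h) hne
  have hs1 := h1.trans hmain.1
  have p1 : 0 < T ^ (-(1 / 400) : ℝ) := Real.rpow_pos_of_pos hT0 _
  have p2 : T ^ (-(1 / 100) : ℝ) ≤ T ^ (-(1 / 400) : ℝ) := Real.rpow_le_rpow_of_exponent_le hT1 (by norm_num)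
  have p3 : T ^ (-(1 / 100) : ℝ) ≤ (T ^ (-(1 / 400) : ℝ)) ^ 2 := by
    rw [← Real.rpow_natCast, ← Real.rpow_mul hT0.le]
    exact Real.rpow_le_rpow_of_exponent_le hT1 (by norm_num)
  have hup := sum_le_card (y := y) (j := j) he
  refine ⟨⟨?_, ?_, ?_⟩, ?_⟩
  · rw [sum_rd, abs_mul, abs_of_pos (by norm_num : (0:ℝ) < 2)]
    linarith
  · have h8 : ((Sd y j).card : ℝ) ≤ 2 ^ (Nat.primeCounting y) := by exact_mod_cast card_Sd y j
    have h9 : T ^ (1 / 400 : ℝ) ≤ T ^ (1 / 100 : ℝ) := Real.rpow_le_rpow_of_exponent_le hT1 (by norm_num)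
    have h10 : 0 < T ^ (1 / 400 : ℝ) := Real.rpow_pos_of_pos hT0 _
    linarith
  · rw [sum_rd]
    have h8 := pow_le_pow_left₀ p1.le hs1 2
    rw [sq_abs] at h8
    nlinarith
  · intro k hk hm
    have h8 : ∃ m, m ≠ k ∧ rd y j e m ≠ 0 := by
      obtain ⟨m, hm, hmk, hem⟩ := hm
      exact ⟨m, hmk, by rw [rd, if_pos hm]; exact hem⟩
    have h9 := h1.trans (hmain.2 k hk h8)
    rw [sum_rd]
    have e1 : (2 * ∑ m ∈ (primorial y).divisors, (rd y j e m : ℝ) / Real.sqrt m) ^ 2 - 4 / k =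
        4 * ((∑ m ∈ (primorial y).divisors, (rd y j e m : ℝ) / Real.sqrt m) ^ 2 - 1 / k) := by ring
    rw [e1, abs_mul, abs_of_pos (by norm_num : (0:ℝ) < 4)]
    linarith

/-- the single frequency as a combination -/
theorem sum_single2 {y j m : ℕ} (hm : m ∈ Sd y j) : ∑ n ∈ Sd y j, (((if n = m then 1 else 0 : ℤ)) : ℝ) * (2 / Real.sqrt n) = 2 / Real.sqrt m := by
  rw [Finset.sum_eq_single m]
  · simp
  · intro n _ hn
    simp [hn]
  · intro h
    exact absurd hm h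

end Pool.Agent.E7
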