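import Pool.Agent.Helper66.E7.Dual
import Pool.Agent.Helper66.E7.Defs2

/-!
# Project 7E: the frequencies of the Riesz product (divisors of primorials)
-/

set_option autoImplicit false

open Complex Filter Topology MeasureTheory Set
open Pool.Agent.Helper18.ES (mu mu_le)

namespace Pool.Agent.E7

/-- the number `y` as a function of `x = log log T` -/
noncomputable def yf (δ x : ℝ) : ℕ := ⌊δ * (x * Real.log x)⌋₊

/-- facts about `y` -/
theorem yf_facts (hP : StmtP2) (y0 : ℕ) : ∃ δ c : ℝ, 0 < δ ∧ 0 < c ∧ ∀ᶠ x : ℝ in atTop, y0 ≤ yf δ x ∧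
    (Nat.primeCounting (yf δ x) : ℝ) ≤ x / 4 ∧ (yf δ x : ℝ) ≤ x ^ 2 ∧ 1 < Real.log (yf δ x) ∧
    c * Real.sqrt (x / Real.log x) ≤ Real.sqrt (yf δ x) / Real.log (yf δ x) := by
  obtain ⟨C, hC, y1, hP⟩ := hP
  set δ : ℝ := 1 / (8 * C) with hδ
  have hδ0 : 0 < δ := by positivity
  refine ⟨δ, Real.sqrt (δ / 2) / 2, hδ0, by positivity, ?_⟩
  have e1 : Tendsto (fun x : ℝ => δ * (x * Real.log x)) atTop atTop :=
    Tendsto.const_mul_atTop hδ0 (tendsto_id.atTop_mul_atTop₀ Real.tendsto_log_atTop)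
  have e2 : Tendsto (fun x : ℝ => yf δ x) atTop atTop := tendsto_nat_floor_atTop.comp e1
  have e3 : ∀ᶠ x : ℝ in atTop, δ * Real.log x ≤ x := by
    have := ev_log (a := 1) one_pos δ
    filter_upwards [this] with x hx
    rwa [Real.rpow_one] at hx
  have e4 : ∀ᶠ x : ℝ in atTop, 4 / δ ^ 2 ≤ Real.log x := Real.tendsto_log_atTop.eventually_ge_atTop _
  filter_upwards [e2.eventually_ge_atTop y0, e2.eventually_ge_atTop y1, e2.eventually_ge_atTop 3, e1.eventually_ge_atTop 2, e3,
    Real.tendsto_log_atTop.eventually_ge_atTop 4, e4, eventually_ge_atTop 1] with x h1 h2 h3 h4 h5 h6 h7 h8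
  have hx0 : 0 < x := by linarith
  have hl0 : 0 < Real.log x := by linarith
  have hy1 : (yf δ x : ℝ) ≤ δ * (x * Real.log x) := Nat.floor_le (by positivity)
  have hy2 : δ * (x * Real.log x) < yf δ x + 1 := Nat.lt_floor_add_one _
  have hy3 : δ * (x * Real.log x) / 2 ≤ yf δ x := by linarith
  have hy0 : (3:ℝ) ≤ yf δ x := by exact_mod_cast h3
  have hyx : (yf δ x : ℝ) ≤ x ^ 2 := by
    refine hy1.trans ?_
    calc δ * (x * Real.log x) = x * (δ * Real.log x) := by ring
      _ ≤ x * x := mul_le_mul_of_nonneg_left h5 hx0.le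
      _ = x ^ 2 := by ring
  have hlog1 : Real.log (yf δ x) ≤ 2 * Real.log x := by
    have := Real.log_le_log (by linarith) hyx
    rwa [Real.log_pow] at this
  have hlog3 : 1 < Real.log (yf δ x) := by
    rw [Real.lt_log_iff_exp_lt (by linarith)]
    have := Real.exp_one_lt_d9
    linarith
  have hlog2 : Real.log x / 2 ≤ Real.log (yf δ x) := by
    rw [← Real.log_sqrt hx0.le]
    apply Real.log_le_log (Real.sqrt_pos.2 hx0)
    refine le_trans ?_ hy3
    -- sqrt x ≤ δ x log x / 2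
    rw [Real.sqrt_le_left (by positivity)]
    have h9 : 4 ≤ δ ^ 2 * Real.log x := by
      rw [div_le_iff₀ (by positivity)] at h7
      linarith
    have h10 : (1:ℝ) ≤ x * Real.log x := by nlinarith
    calc x = x * 1 := by ring
      _ ≤ x * ((δ ^ 2 * Real.log x) / 4 * (x * Real.log x)) := by
          apply mul_le_mul_of_nonneg_left _ hx0.le
          nlinarith
      _ = (δ * (x * Real.log x) / 2) ^ 2 := by ring
  refine ⟨h1, ?_, hyx, hlog3, ?_⟩
  · refine (hP _ h2).trans ?_
    have h9 : (yf δ x : ℝ) / Real.log (yf δ x) ≤ (δ * (x * Real.log x)) / (Real.log x / 2) :=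
      div_le_div₀ (by positivity) hy1 (by positivity) hlog2
    calc C * ((yf δ x : ℝ) / Real.log (yf δ x)) ≤ C * ((δ * (x * Real.log x)) / (Real.log x / 2)) :=
          mul_le_mul_of_nonneg_left h9 hC.le
      _ = x / 4 := by
          rw [hδ]
          field_simp
          norm_num
  · have h9 : Real.sqrt (δ * (x * Real.log x) / 2) ≤ Real.sqrt (yf δ x) := Real.sqrt_le_sqrt hy3
    have h10 : Real.sqrt (δ / 2) / 2 * Real.sqrt (x / Real.log x) = Real.sqrt (δ * (x * Real.log x) / 2) / (2 * Real.log x) := by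
      have h11 : δ * (x * Real.log x) / 2 = (δ / 2) * (x / Real.log x) * (Real.log x) ^ 2 := by field_simp
      rw [h11, Real.sqrt_mul (by positivity), Real.sqrt_mul (by positivity), Real.sqrt_sq hl0.le]
      field_simp
    rw [h10]
    exact div_le_div₀ (Real.sqrt_nonneg _) h9 (by linarith) hlog1

/-- the facts used in the final inequality -/
theorem T_facts (hP : StmtP2) (y0 : ℕ) : ∃ c : ℝ, 0 < c ∧ ∀ᶠ T : ℝ in atTop, ∃ y : ℕ, y0 ≤ y ∧
    T ^ (-(1 / 400) : ℝ) ≤ Real.exp (-(10 * y * 4 ^ (Nat.primeCounting y))) ∧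
    (2 : ℝ) ^ (Nat.primeCounting y) ≤ T ^ (1 / 400 : ℝ) / 64 ∧ (3 : ℝ) ^ (2 ^ (Nat.primeCounting y)) ≤ T ^ (1 / 200 : ℝ) ∧
    (4 : ℝ) ^ y * 4 ≤ T ^ (1 / 400 : ℝ) ∧
    c * Real.sqrt (Real.log (Real.log T) / Real.log (Real.log (Real.log T))) ≤ Real.sqrt y / Real.log y := by
  obtain ⟨δ, c, hδ, hc, h⟩ := yf_facts hP y0
  refine ⟨c, hc, ?_⟩
  have hLL : Tendsto (fun T : ℝ => Real.log (Real.log T)) atTop atTop := Real.tendsto_log_atTop.comp Real.tendsto_log_atTop
  have f1 : ∀ᶠ x : ℝ in atTop, 10 * x ^ 2 ≤ Real.exp (x / 10) := by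
    have h1 := (isLittleO_pow_exp_pos_mul_atTop (k := 2) (b := 1 / 10) (by norm_num)).bound (c := 1 / 10) (by norm_num)
    filter_upwards [h1, eventually_ge_atTop 0] with x hx hx0
    rw [Real.norm_of_nonneg (by positivity), Real.norm_of_nonneg (Real.exp_pos _).le] at hx
    rw [show x / 10 = 1 / 10 * x by ring]
    linarith
  have f2 : ∀ᶠ x : ℝ in atTop, 2 * x ^ 2 + 2 ≤ Real.exp x / 400 := by
    have h1 := (isLittleO_pow_exp_pos_mul_atTop (k := 2) (b := 1) (by norm_num)).bound (c := 1 / 2000) (by norm_num)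
    filter_upwards [h1, eventually_ge_atTop 1] with x hx hx0
    rw [Real.norm_of_nonneg (by positivity), Real.norm_of_nonneg (Real.exp_pos _).le, one_mul] at hx
    nlinarith
  filter_upwards [hLL.eventually h, hLL.eventually f1, hLL.eventually f2, hLL.eventually_ge_atTop 40,
    Real.tendsto_log_atTop.eventually_ge_atTop 1000000, eventually_ge_atTop 3, ev_rpow (a := 1 / 800) (by norm_num) 64]
    with T h h1 h2 h3 h4 hT3 h64
  obtain ⟨a1, a2, a3, a4, a5⟩ := h
  set x := Real.log (Real.log T) with hx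
  set y := yf δ x with hy
  have hT0 : 0 < T := by linarith
  have hL0 : 0 < Real.log T := by linarith
  have hexp : Real.exp x = Real.log T := Real.exp_log hL0
  have hhalf : Real.exp (x / 2) = Real.sqrt (Real.log T) := by
    rw [hx, ← Real.log_sqrt hL0.le, Real.exp_log (Real.sqrt_pos.2 hL0)]
  have hsq : Real.sqrt (Real.log T) ≤ Real.log T / 1000 := by
    rw [Real.sqrt_le_left (by positivity)]
    nlinarith
  have hl4 : Real.log 4 ≤ 1.4 := by
    rw [show (4:ℝ) = 2 ^ 2 by norm_num, Real.log_pow]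
    have := Real.log_two_lt_d9
    push_cast
    linarith
  have h4p : (4 : ℝ) ^ (Nat.primeCounting y) ≤ Real.exp (1.4 * (x / 4)) := by
    have : (4 : ℝ) ^ (Nat.primeCounting y) = Real.exp (Real.log 4 * (Nat.primeCounting y)) := by
      rw [← Real.rpow_natCast, Real.rpow_def_of_pos (by norm_num)]
    rw [this]
    apply Real.exp_le_exp.mpr
    apply mul_le_mul hl4 a2 (by positivity) (by norm_num)
  have h2p : (2 : ℝ) ^ (Nat.primeCounting y) ≤ Real.exp (x / 4) := by
    have : (2 : ℝ) ^ (Nat.primeCounting y) = Real.exp (Real.log 2 * (Nat.primeCounting y)) := by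
      rw [← Real.rpow_natCast, Real.rpow_def_of_pos (by norm_num)]
    rw [this]
    apply Real.exp_le_exp.mpr
    have := Real.log_two_lt_d9
    have h5 : Real.log 2 ≤ 1 := by linarith
    calc Real.log 2 * (Nat.primeCounting y) ≤ 1 * (x / 4) := mul_le_mul h5 a2 (by positivity) (by norm_num)
      _ = _ := one_mul _
  refine ⟨y, a1, ?_, ?_, ?_, ?_, a5⟩
  · rw [Real.rpow_def_of_pos hT0]
    apply Real.exp_le_exp.mpr
    have h5 : 10 * (y : ℝ) * 4 ^ (Nat.primeCounting y) ≤ Real.exp (x / 2) := by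
      calc 10 * (y : ℝ) * 4 ^ (Nat.primeCounting y) ≤ (10 * x ^ 2) * Real.exp (1.4 * (x / 4)) := by
            apply mul_le_mul _ h4p (by positivity) (by positivity)
            linarith
        _ ≤ Real.exp (x / 10) * Real.exp (1.4 * (x / 4)) := mul_le_mul_of_nonneg_right h1 (Real.exp_pos _).le
        _ = Real.exp (x / 10 + 1.4 * (x / 4)) := (Real.exp_add _ _).symm
        _ ≤ Real.exp (x / 2) := Real.exp_le_exp.mpr (by linarith)
    rw [hhalf] at h5
    linarith
  · have h5 : Real.exp (x / 4) ≤ T ^ (1 / 800 : ℝ) := by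
      rw [Real.rpow_def_of_pos hT0]
      apply Real.exp_le_exp.mpr
      have h6 : x ≤ Real.log T / 400 := by nlinarith
      linarith
    have h6 : T ^ (1 / 400 : ℝ) = T ^ (1 / 800 : ℝ) * T ^ (1 / 800 : ℝ) := by
      rw [← Real.rpow_add hT0]; norm_num
    rw [le_div_iff₀ (by norm_num), h6]
    exact mul_le_mul (h2p.trans h5) h64 (by norm_num) (by positivity)
  · have h5 : (3 : ℝ) ^ (2 ^ (Nat.primeCounting y)) ≤ Real.exp (2 * (2 : ℝ) ^ (Nat.primeCounting y)) := by
      have h7 : (3 : ℝ) ≤ Real.exp 2 := by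
        have := Real.add_one_le_exp (2 : ℝ)
        linarith
      calc (3 : ℝ) ^ (2 ^ (Nat.primeCounting y)) ≤ (Real.exp 2) ^ (2 ^ (Nat.primeCounting y)) := pow_le_pow_left₀ (by norm_num) h7 _
        _ = Real.exp (2 * (2 : ℝ) ^ (Nat.primeCounting y)) := by
            rw [← Real.exp_nat_mul]; congr 1; push_cast; ring
    refine h5.trans ?_
    rw [Real.rpow_def_of_pos hT0]
    apply Real.exp_le_exp.mpr
    have h6 : Real.exp (x / 4) ≤ Real.exp (x / 2) := Real.exp_le_exp.mpr (by linarith)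
    rw [hhalf] at h6
    linarith
  · have h5 : (4 : ℝ) ^ y * 4 ≤ Real.exp (2 * x ^ 2 + 2) := by
      have h6 : (4 : ℝ) ≤ Real.exp 2 := by
        have h7 : Real.exp 2 = Real.exp 1 * Real.exp 1 := by rw [← Real.exp_add]; norm_num
        have := Real.exp_one_gt_d9
        rw [h7]
        nlinarith
      have h8 : (4 : ℝ) ^ y ≤ Real.exp (2 * x ^ 2) := by
        calc (4 : ℝ) ^ y ≤ (Real.exp 2) ^ y := pow_le_pow_left₀ (by norm_num) h6 _
          _ = Real.exp (y * 2) := by rw [← Real.exp_nat_mul]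
          _ ≤ _ := Real.exp_le_exp.mpr (by linarith)
      rw [Real.exp_add]
      exact mul_le_mul h8 h6 (by norm_num) (Real.exp_pos _).le
    refine h5.trans ?_
    rw [Real.rpow_def_of_pos hT0]
    apply Real.exp_le_exp.mpr
    rw [hexp] at h2
    linarith

end Pool.Agent.E7
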