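import Pool.Agent.Helper66.E7.Defs

/-!
# Project 7E: the kernel
-/

set_option autoImplicit false

open Complex Filter Topology MeasureTheory Set

namespace Pool.Agent.E7

theorem kap_nonneg {R τ : ℝ} (h0 : 0 ≤ τ) (h1 : τ ≤ R) : 0 ≤ kap R τ := by
  have hR : 0 ≤ R := h0.trans h1
  unfold kap
  have := sub_nonneg.2 h1
  positivity

theorem kap_cont (R : ℝ) : Continuous (kap R) := by
  unfold kap
  fun_prop

theorem kap_int {R : ℝ} (hR : 0 < R) : ∫ τ in (0:ℝ)..R, kap R τ = 1 := by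
  have h : ∀ τ ∈ uIcc 0 R, HasDerivAt (fun τ : ℝ => (3 * R * τ ^ 2 - 2 * τ ^ 3) / R ^ 3) (kap R τ) τ := by
    intro τ _
    unfold kap
    have h1 := ((((hasDerivAt_id τ).pow 2).const_mul (3 * R)).sub (((hasDerivAt_id τ).pow 3).const_mul 2)).div_const (R ^ 3)
    refine h1.congr_deriv ?_
    simp only [id]
    ring
  rw [intervalIntegral.integral_eq_sub_of_hasDerivAt h ((kap_cont R).intervalIntegrable _ _)]
  field_simp
  ring

theorem norm_ph (x : ℝ) : ‖cexp (-((x : ℝ) : ℂ) * I)‖ = 1 := by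
  have : -((x : ℝ) : ℂ) * I = ((-x : ℝ) : ℂ) * I := by push_cast; ring
  rw [this, Complex.norm_exp_ofReal_mul_I]

theorem av_norm_le {R η M : ℝ} (hR : 0 < R) {g : ℝ → ℝ} (hg : ∀ τ ∈ Icc 0 R, |g τ| ≤ M) : ‖av R η g‖ ≤ M := by
  unfold av
  have h1 : ‖∫ τ in (0:ℝ)..R, ((kap R τ * g τ : ℝ) : ℂ) * cexp (-((2 * Real.pi * η * τ : ℝ) : ℂ) * I)‖ ≤
      ∫ τ in (0:ℝ)..R, kap R τ * M := by
    apply intervalIntegral.norm_integral_le_of_norm_le hR.le
    · filter_upwards with τ hτ
      rw [norm_mul, norm_ph, mul_one, Complex.norm_real, Real.norm_eq_abs, abs_mul]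
      have h2 := kap_nonneg hτ.1.le hτ.2
      rw [abs_of_nonneg h2]
      exact mul_le_mul_of_nonneg_left (hg τ ⟨hτ.1.le, hτ.2⟩) h2
    · exact ((kap_cont R).mul continuous_const).intervalIntegrable _ _
  rw [intervalIntegral.integral_mul_const, kap_int hR, one_mul] at h1
  exact h1

/-- the weight of the average is interval integrable if the function is -/
theorem av_ii {R η : ℝ} {g : ℝ → ℝ} (hg : IntervalIntegrable g volume 0 R) :
    IntervalIntegrable (fun τ => ((kap R τ * g τ : ℝ) : ℂ) * cexp (-((2 * Real.pi * η * τ : ℝ) : ℂ) * I)) volume 0 R := by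
  have h1 : IntervalIntegrable (fun τ => kap R τ * g τ) volume 0 R :=
    hg.continuousOn_mul (kap_cont R).continuousOn
  have h2 : IntervalIntegrable (fun τ => ((kap R τ * g τ : ℝ) : ℂ)) volume 0 R := by
    rw [intervalIntegrable_iff] at h1 ⊢
    exact h1.ofReal
  exact h2.mul_continuousOn (by fun_prop)

theorem av_add {R η : ℝ} {g h : ℝ → ℝ} (hg : IntervalIntegrable g volume 0 R) (hh : IntervalIntegrable h volume 0 R) :
    av R η (fun τ => g τ + h τ) = av R η g + av R η h := by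
  unfold av
  rw [← intervalIntegral.integral_add (av_ii hg) (av_ii hh)]
  congr 1
  ext τ
  push_cast
  ring

theorem av_const_mul {R η c : ℝ} {g : ℝ → ℝ} : av R η (fun τ => c * g τ) = c * av R η g := by
  unfold av
  rw [← intervalIntegral.integral_const_mul]
  congr 1
  ext τ
  push_cast
  ring

theorem av_sum {R η : ℝ} {ι : Type*} (J : Finset ι) {g : ι → ℝ → ℝ} (hg : ∀ i ∈ J, IntervalIntegrable (g i) volume 0 R) :
    av R η (fun τ => ∑ i ∈ J, g i τ) = ∑ i ∈ J, av R η (g i) := by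
  classical
  induction J using Finset.induction_on with
  | empty => simp [av]
  | insert a s ha ih =>
    simp only [Finset.sum_insert ha]
    rw [av_add (hg a (Finset.mem_insert_self a s)), ih (fun i hi => hg i (Finset.mem_insert_of_mem hi))]
    have h := IntervalIntegrable.sum s (f := g) (μ := volume) (a := 0) (b := R)
      (fun i hi => hg i (Finset.mem_insert_of_mem hi))
    have e : (fun τ => ∑ i ∈ s, g i τ) = ∑ i ∈ s, g i := by
      funext τ
      rw [Finset.sum_apply]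
    rw [e]
    exact h

/-- decay of the transform of the kernel -/
theorem av_one_le {R η : ℝ} (hR : 0 < R) (hη : η ≠ 0) : ‖av R η (fun _ => 1)‖ ≤ 24 / (2 * Real.pi * R * |η|) ^ 2 := by
  have hpi := Real.pi_pos
  set s : ℂ := -((2 * Real.pi * η : ℝ) : ℂ) * I with hs
  have hs0 : s ≠ 0 := by
    rw [hs]
    refine mul_ne_zero (neg_ne_zero.2 ?_) I_ne_zero
    exact_mod_cast mul_ne_zero (by positivity) hη
  have hsn : ‖s‖ = 2 * Real.pi * |η| := by
    rw [hs, norm_mul, Complex.norm_I, mul_one, norm_neg, Complex.norm_real, Real.norm_eq_abs, abs_mul, abs_of_pos (by positivity)]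
  have hR3 : (R : ℂ) ≠ 0 := by exact_mod_cast hR.ne'
  -- the primitive of kap e^{sτ}, up to a second integration
  have hd : ∀ τ ∈ uIcc 0 R, HasDerivAt (fun τ : ℝ => ((kap R τ : ℝ) : ℂ) * cexp (s * τ) / s -
      ((6 * (R - 2 * τ) / R ^ 3 : ℝ) : ℂ) * cexp (s * τ) / s ^ 2)
      (((kap R τ : ℝ) : ℂ) * cexp (s * τ) + ((12 / R ^ 3 : ℝ) : ℂ) * cexp (s * τ) / s ^ 2) τ := by
    intro τ _
    have e1 : HasDerivAt (fun τ : ℝ => cexp (s * τ)) (cexp (s * τ) * s) τ := by
      have h1 : HasDerivAt (fun τ : ℝ => s * (τ : ℂ)) s τ := by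
        have := (Complex.ofRealCLM.hasDerivAt (x := τ)).const_mul s
        simpa using this
      exact h1.cexp
    have e2 : HasDerivAt (fun τ : ℝ => ((kap R τ : ℝ) : ℂ)) ((6 * (R - 2 * τ) / R ^ 3 : ℝ) : ℂ) τ := by
      apply HasDerivAt.ofReal_comp
      unfold kap
      have h1 := ((((hasDerivAt_id τ).const_mul 6).mul ((hasDerivAt_id τ).const_sub R)).div_const (R ^ 3))
      refine h1.congr_deriv ?_
      simp only [id]
      ring
    have e3 : HasDerivAt (fun τ : ℝ => ((6 * (R - 2 * τ) / R ^ 3 : ℝ) : ℂ)) ((-12 / R ^ 3 : ℝ) : ℂ) τ := by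
      apply HasDerivAt.ofReal_comp
      have h1 := (((((hasDerivAt_id τ).const_mul 2).const_sub R).const_mul 6).div_const (R ^ 3))
      refine h1.congr_deriv ?_
      ring
    have h4 := ((e2.mul e1).div_const s).sub ((e3.mul e1).div_const (s ^ 2))
    refine h4.congr_deriv ?_
    push_cast
    field_simp
    ring
  have hint := intervalIntegral.integral_eq_sub_of_hasDerivAt hd (by
    apply Continuous.intervalIntegrable
    have := kap_cont R
    fun_prop)
  rw [intervalIntegral.integral_add (by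
    apply Continuous.intervalIntegrable
    have := kap_cont R
    fun_prop) (by apply Continuous.intervalIntegrable; fun_prop)] at hint
  have e5 : av R η (fun _ => 1) = ∫ τ in (0:ℝ)..R, ((kap R τ : ℝ) : ℂ) * cexp (s * τ) := by
    unfold av
    congr 1
    ext τ
    rw [mul_one, hs]
    congr 2
    push_cast
    ring
  have hre : ∀ τ : ℝ, ‖cexp (s * τ)‖ = 1 := by
    intro τ
    have : s * τ = -((2 * Real.pi * η * τ : ℝ) : ℂ) * I := by rw [hs]; push_cast; ring
    rw [this, norm_ph]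
  have e6 : ‖∫ τ in (0:ℝ)..R, ((12 / R ^ 3 : ℝ) : ℂ) * cexp (s * τ) / s ^ 2‖ ≤ 12 / R ^ 3 / ‖s‖ ^ 2 * |R - 0| := by
    apply intervalIntegral.norm_integral_le_of_norm_le_const
    intro τ _
    rw [norm_div, norm_mul, hre, mul_one, Complex.norm_real, Real.norm_eq_abs, abs_of_nonneg (by positivity), norm_pow]
  have hk0 : kap R 0 = 0 := by unfold kap; simp
  have hkR : kap R R = 0 := by unfold kap; simp
  rw [hk0, hkR] at hint
  have e7 : (∫ τ in (0:ℝ)..R, ((kap R τ : ℝ) : ℂ) * cexp (s * τ)) =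
      ((6 / R ^ 2 : ℝ) : ℂ) * cexp (s * R) / s ^ 2 + ((6 / R ^ 2 : ℝ) : ℂ) * cexp (s * ((0:ℝ) : ℂ)) / s ^ 2 -
        ∫ τ in (0:ℝ)..R, ((12 / R ^ 3 : ℝ) : ℂ) * cexp (s * τ) / s ^ 2 := by
    have hc1 : (6 * (R - 2 * R) / R ^ 3 : ℝ) = -(6 / R ^ 2) := by field_simp; ring
    have hc2 : (6 * (R - 2 * 0) / R ^ 3 : ℝ) = 6 / R ^ 2 := by field_simp; ring
    rw [hc1, hc2] at hint
    have := eq_sub_of_add_eq hint
    rw [this]
    push_cast
    ring
  rw [e5, e7]
  have n1 : ∀ τ : ℝ, ‖((6 / R ^ 2 : ℝ) : ℂ) * cexp (s * τ) / s ^ 2‖ = 6 / R ^ 2 / ‖s‖ ^ 2 := by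
    intro τ
    rw [norm_div, norm_mul, hre, mul_one, Complex.norm_real, Real.norm_eq_abs, abs_of_nonneg (by positivity), norm_pow]
  refine (norm_sub_le _ _).trans ((add_le_add ((norm_add_le _ _).trans (add_le_add (n1 R).le (n1 0).le)) e6).trans ?_)
  rw [sub_zero, abs_of_pos hR, hsn]
  have hη0 : 0 < |η| := abs_pos.2 hη
  apply le_of_eq
  field_simp
  ring

end Pool.Agent.E7
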