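import Pool.Agent.Helper66.E7.Core
import Pool.Agent.Helper52.IT.TwB

/-!
# Project 7E: assembly
-/

set_option autoImplicit false

open Complex Filter Topology MeasureTheory Set
open Pool.Agent.Helper57.Zeta
open Pool.Agent.Helper18.ES (mu mu_le)
open Pool.Agent.Helper71.MR (cw cw_ne zero_re)
open Pool.Agent.Helper71.MA (Sys Fail Big)

namespace Pool.Agent.E7

theorem l2 (hB : StmtB) (hE : StmtE) (hF : StmtF) (hFB : StmtFB) (hF2 : StmtF2) (hG : StmtG) (hH : StmtH) (hI : StmtI2)
    (hJ : StmtJ) (hN : StmtN2) (hP : StmtP2) : StmtL2 := by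
  have hQI := qI hB hF hFB
  obtain ⟨CE, hCE0, hE⟩ := hE
  obtain ⟨cH, TH, hcH, hH⟩ := hH
  obtain ⟨y1, hI⟩ := hI
  obtain ⟨cN, hcN, y2, hN⟩ := hN
  obtain ⟨cT, hcT, hTf⟩ := T_facts hP (max y1 y2)
  set κ : ℝ := cH / 10 / (2 + CE) with hκ
  have hκ0 : 0 < κ := by positivity
  set c : ℝ := cN * cT / 2 with hc
  have hc0 : 0 < c := by positivity
  -- the rate tends to infinity
  have hLL : Tendsto (fun T : ℝ => Real.log (Real.log T)) atTop atTop := Real.tendsto_log_atTop.comp Real.tendsto_log_atTop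
  have hrate : Tendsto (fun T : ℝ => Real.sqrt (Real.log (Real.log T) / Real.log (Real.log (Real.log T)))) atTop atTop := by
    have h1 : Tendsto (fun x : ℝ => Real.sqrt (x / Real.log x)) atTop atTop := by
      apply Real.tendsto_sqrt_atTop.comp
      have h2 : Tendsto (fun x : ℝ => Real.log x / x) atTop (𝓝[>] 0) := by
        apply tendsto_nhdsWithin_of_tendsto_nhds_of_eventually_within
        · have h3 := (isLittleO_log_rpow_atTop (r := 1) one_pos).tendsto_div_nhds_zero
          simpa using h3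
        · filter_upwards [eventually_gt_atTop 1] with x hx
          exact div_pos (Real.log_pos hx) (by linarith)
      have h4 := h2.inv_tendsto_nhdsGT_zero
      refine h4.congr ?_
      intro x
      simp [inv_div]
    exact h1.comp hLL
  have hev : ∀ᶠ T : ℝ in atTop, ∀ f K : ℝ, (∀ u : ℝ, FT T f u ≤ K) →
      Real.exp (c * Real.sqrt (Real.log (Real.log T) / Real.log (Real.log (Real.log T)))) ≤ K := by
    filter_upwards [avQ_nr hF2 hFB hG hQI, avQ_res hF2 hFB hG hQI, hTf, eventually_ge_atTop 3,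
      eventually_ge_atTop TH, ev_rpow (a := 1 / 100) (by norm_num) (64 / cH), ev_rpow (a := 1 / 100) (by norm_num) 4,
      ev_rpow (a := 1 / 3) (by norm_num) 2, hrate.eventually_ge_atTop (Real.log (1 / κ) / c), hrate.eventually_ge_atTop 0]
      with T hnr hres hTf hT3 hTH hc1 hc4 hR2 hbig hr0 f K hle
    obtain ⟨y, hy, hy1, hy2, hy3, hy4, hy5⟩ := hTf
    obtain ⟨j, hj, hj2, hSg⟩ := hN y ((le_max_right _ _).trans hy)
    obtain ⟨A, hS⟩ := hB T f
    have hT0 : 0 < T := by linarith
    have hT1 : 1 ≤ T := by linarith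
    have hj2' : (4 : ℝ) * 2 ^ j ≤ T ^ (1 / 400 : ℝ) := by
      have h1 : (2 : ℝ) ^ j ≤ 4 ^ y := by exact_mod_cast hj2
      linarith
    have hp0 : 0 < T ^ (1 / 400 : ℝ) := Real.rpow_pos_of_pos hT0 _
    have hcard : ((Sd y j).card : ℝ) ≤ T ^ (1 / 400 : ℝ) := by
      have h1 : ((Sd y j).card : ℝ) ≤ 2 ^ (Nat.primeCounting y) := by exact_mod_cast card_Sd y j
      linarith
    have h3 : (3 : ℝ) ^ (Sd y j).card ≤ T ^ (1 / 200 : ℝ) :=
      (pow_le_pow_right₀ (by norm_num) (card_Sd y j)).trans hy3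
    set r := Real.sqrt (Real.log (Real.log T) / Real.log (Real.log (Real.log T))) with hr
    have hSg1 : Real.exp (2 * c * r) ≤ ∑ m ∈ Sd y j, 1 / Real.sqrt m := by
      refine le_trans (Real.exp_le_exp.mpr ?_) hSg
      have h5 := mul_le_mul_of_nonneg_left hy5 hcN.le
      rw [hc]
      linarith
    have hSg2 : 1 ≤ ∑ m ∈ Sd y j, 1 / Real.sqrt m := by
      refine le_trans ?_ hSg1
      apply Real.one_le_exp
      positivity
    have hgoal : ∀ K' : ℝ, 0 ≤ K' → (∀ u : ℝ, FT T f u ≤ K') → Real.exp (c * r) ≤ K' := by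
      intro K' hK' hle'
      have h5 := core_T hF hQI hJ hT3 hS hcH hCE0 hK' hle' (hE _ _ _ hS K' hK' hle') hnr hres (hH T hTH) hj hj2'
        (fun e he hex => fr2 hI hT3 ((le_max_left _ _).trans hy) hy1 hy2 he hex) hcard h3 hc1 hc4 hR2 hSg2
      have h6 : κ * Real.exp (2 * c * r) ≤ K' := (mul_le_mul_of_nonneg_left hSg1 hκ0.le).trans h5
      have h7 : 1 ≤ κ * Real.exp (c * r) := by
        have h8 : 1 / κ ≤ Real.exp (c * r) := by
          rw [div_le_iff₀ hc0] at hbig
          rw [← Real.log_le_iff_le_exp (by positivity)]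
          linarith
        rw [div_le_iff₀ hκ0] at h8
        linarith
      have h9 : Real.exp (2 * c * r) = Real.exp (c * r) * Real.exp (c * r) := by
        rw [← Real.exp_add]; congr 1; ring
      have h10 := Real.exp_pos (c * r)
      rw [h9] at h6
      nlinarith
    rcases le_or_gt 0 K with hK | hK
    · exact hgoal K hK hle
    · exfalso
      have h5 := hgoal 0 le_rfl (fun u => (hle u).trans hK.le)
      exact absurd h5 (not_le.mpr (Real.exp_pos _))
  obtain ⟨T0, hT0⟩ := eventually_atTop.1 hev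
  exact ⟨c, max T0 16, hc0, le_max_right _ _, fun T hT => hT0 T ((le_max_left _ _).trans hT)⟩

/-- one-sided bounds in windows give one-sided bounds everywhere -/
theorem ft_le (hA1 : StmtA1) (hA2 : StmtA2) (hB : StmtB) (hC : StmtC) (hD : StmtD) : ∃ T1 : ℝ, ∀ T : ℝ, T1 ≤ T → ∀ f K : ℝ,
    (∀ C : ℝ, ∃ X : ℝ, C ≤ X ∧ ∀ x : ℝ, X ≤ x → x ≤ C * X * Real.log X → ST T f x ≤ K * Real.sqrt x) →
    ∀ u : ℝ, FT T f u ≤ K := by
  -- the hypothesis gives the failure of recurrence for every larger bound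
  have key : ∀ T f K : ℝ, (∀ C : ℝ, ∃ X : ℝ, C ≤ X ∧ ∀ x : ℝ, X ≤ x → x ≤ C * X * Real.log X → ST T f x ≤ K * Real.sqrt x) →
      ∀ η : ℝ, 0 < η → Fail (FT T f) 1 (K + η) 1 := by
    intro T f K h η hη C
    obtain ⟨CD, hCD⟩ := hD T f
    obtain ⟨X, hX, hx⟩ := h (max (max (Real.exp C) (Real.exp (2 * (|CD| / η)))) 3)
    have hX1 : Real.exp C ≤ X := ((le_max_left _ _).trans (le_max_left _ _)).trans hX
    have hX2 : Real.exp (2 * (|CD| / η)) ≤ X := ((le_max_right _ _).trans (le_max_left _ _)).trans hX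
    have hX3 : 3 ≤ X := (le_max_right _ _).trans hX
    have hX0 : 0 < X := by linarith
    have hlX : 1 ≤ Real.log X := by
      rw [Real.le_log_iff_exp_le hX0]
      have := Real.exp_one_lt_d9
      linarith
    refine ⟨Real.log X, ?_, fun t ht => ?_⟩
    · rw [Real.le_log_iff_exp_le hX0]; exact hX1
    · have ht0 : 0 ≤ t := by linarith [ht.1]
      have h1 : X ≤ Real.exp t := by
        rw [← Real.log_le_iff_le_exp hX0]; exact ht.1
      have h2 : Real.exp t ≤ (max (max (Real.exp C) (Real.exp (2 * (|CD| / η)))) 3) * X * Real.log X := by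
        have h3 : Real.exp t ≤ Real.exp (Real.log X + Real.log (Real.log X) + C) := Real.exp_le_exp.mpr ht.2
        rw [Real.exp_add, Real.exp_add, Real.exp_log hX0, Real.exp_log (by linarith)] at h3
        refine h3.trans ?_
        have h4 : Real.exp C ≤ max (max (Real.exp C) (Real.exp (2 * (|CD| / η)))) 3 := (le_max_left _ _).trans (le_max_left _ _)
        have h5 : 0 ≤ X * Real.log X := by positivity
        nlinarith
      have h3 := hx (Real.exp t) h1 h2
      have h4 := hCD t ht0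
      have h5 : Real.exp (-(t / 2)) * ST T f (Real.exp t) ≤ K := by
        have h6 : Real.sqrt (Real.exp t) = Real.exp (t / 2) := by
          rw [Real.sqrt_eq_rpow, ← Real.exp_mul]; congr 1; ring
        rw [h6] at h3
        have h7 := mul_le_mul_of_nonneg_left h3 (Real.exp_pos (-(t / 2))).le
        have h8 : Real.exp (-(t / 2)) * (K * Real.exp (t / 2)) = K := by
          have : Real.exp (-(t / 2)) * Real.exp (t / 2) = 1 := by rw [← Real.exp_add]; simp
          calc _ = K * (Real.exp (-(t / 2)) * Real.exp (t / 2)) := by ring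
            _ = K := by rw [this, mul_one]
        linarith
      have h6 : CD * Real.exp (-(t / 2)) ≤ η := by
        have h7 : |CD| / η ≤ Real.exp (t / 2) := by
          have h8 : |CD| / η ≤ t / 2 := by
            have h9 : 2 * (|CD| / η) ≤ Real.log X := by
              rw [Real.le_log_iff_exp_le hX0]; exact hX2
            linarith [ht.1]
          have := Real.add_one_le_exp (t / 2)
          linarith
        rw [div_le_iff₀ hη] at h7
        rw [Real.exp_neg, ← div_eq_mul_inv, div_le_iff₀ (Real.exp_pos _)]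
        have := le_abs_self CD
        linarith
      rw [one_mul, one_mul]
      linarith [(abs_le.mp h4).2]
  have lim : ∀ (F : ℝ → ℝ) (K : ℝ), (∀ η : ℝ, 0 < η → ∀ u : ℝ, F u ≤ K + η) → ∀ u : ℝ, F u ≤ K := by
    intro F K h u
    apply le_of_forall_pos_le_add
    intro η hη
    exact h η hη u
  by_cases hR : RHS
  · refine ⟨0, fun T _ f K h => lim _ _ fun η hη => ?_⟩
    obtain ⟨A, hS⟩ := hB T f
    exact hA1 hR _ _ _ hS _ (key T f K h η hη)
  · obtain ⟨w0, hw0, hA2⟩ := hA2 hR
    obtain ⟨T1, hT1⟩ := hC w0 (zero_re hw0) (Pool.Agent.Helper52.Tw.zero_im hw0)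
    refine ⟨T1, fun T hT f K h => ?_⟩
    exfalso
    obtain ⟨A, hS⟩ := hB T f
    exact hA2 _ _ _ hS (mul_ne_zero (cw_ne hw0) (hT1 T hT f)) _ (key T f K h 1 one_pos)

/-- the sums for negative `T` -/
theorem ST_neg (T f x : ℝ) : ST (-T) f x = ST T (-f) x := by
  unfold ST
  apply Finset.sum_congr rfl
  intro n _
  rw [← Real.cos_neg]
  congr 2
  ring

/-- the theorem -/
theorem main (hA1 : StmtA1) (hA2 : StmtA2) (hB : StmtB) (hC : StmtC) (hD : StmtD) (hL : StmtL2) :
    ∃ c T0 : ℝ, 0 < c ∧ 16 ≤ T0 ∧ ∀ T : ℝ, T0 ≤ |T| → ∀ f : ℝ, ∃ C : ℝ, ∀ X : ℝ, C ≤ X → ∃ x : ℝ,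
      X ≤ x ∧ x ≤ C * X * Real.log X ∧
      Real.exp (c * Real.sqrt (Real.log (Real.log |T|) / Real.log (Real.log (Real.log |T|)))) * Real.sqrt x < ST T f x := by
  obtain ⟨c, T0, hc, hT0, hL⟩ := hL
  obtain ⟨T1, hT1⟩ := ft_le hA1 hA2 hB hC hD
  have pos : ∀ T : ℝ, max T0 T1 ≤ T → ∀ f : ℝ, ∃ C : ℝ, ∀ X : ℝ, C ≤ X → ∃ x : ℝ, X ≤ x ∧ x ≤ C * X * Real.log X ∧
      Real.exp (c / 2 * Real.sqrt (Real.log (Real.log T) / Real.log (Real.log (Real.log T)))) * Real.sqrt x < ST T f x := by
    intro T hT f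
    by_contra hcon
    push Not at hcon
    have h1 := hT1 T ((le_max_right _ _).trans hT) f _ hcon
    have h2 := hL T ((le_max_left _ _).trans hT) f _ h1
    have hT16 : 16 ≤ T := hT0.trans ((le_max_left _ _).trans hT)
    have hT0' : 0 < T := by linarith
    have h3 : 0 < Real.sqrt (Real.log (Real.log T) / Real.log (Real.log (Real.log T))) := by
      apply Real.sqrt_pos.2
      have h4 : Real.exp 1 < Real.log T := by
        rw [Real.lt_log_iff_exp_lt hT0']
        have h5 := Real.exp_one_lt_d9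
        have h6 : Real.exp (Real.exp 1) ≤ Real.exp 2.7182818286 := Real.exp_le_exp.mpr h5.le
        have h7 : Real.exp 2.7182818286 < 16 := by
          have h8 : Real.exp 2.7182818286 ≤ Real.exp (2.76) := Real.exp_le_exp.mpr (by norm_num)
          have h9 : Real.exp 2.76 < 16 := by
            rw [← Real.lt_log_iff_exp_lt (by norm_num), show (16:ℝ) = 2 ^ 4 by norm_num, Real.log_pow]
            have := Real.log_two_gt_d9
            push_cast
            linarith
          linarith
        linarith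
      have h5 : 1 < Real.log (Real.log T) := by
        rw [Real.lt_log_iff_exp_lt (by linarith [Real.exp_pos 1])]
        exact h4
      have h6 : 0 < Real.log (Real.log (Real.log T)) := Real.log_pos h5
      positivity
    have h4 : c / 2 * Real.sqrt (Real.log (Real.log T) / Real.log (Real.log (Real.log T))) <
        c * Real.sqrt (Real.log (Real.log T) / Real.log (Real.log (Real.log T))) := by nlinarith
    exact absurd h2 (not_le.mpr (Real.exp_lt_exp.mpr h4))
  refine ⟨c / 2, max (max T0 T1) 16, by positivity, le_max_right _ _, fun T hT f => ?_⟩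
  rcases le_total 0 T with h | h
  · rw [abs_of_nonneg h] at hT ⊢
    exact pos T ((le_max_left _ _).trans hT) f
  · rw [abs_of_nonpos h] at hT ⊢
    have h1 := pos (-T) ((le_max_left _ _).trans hT) (-f)
    simp_rw [ST_neg, neg_neg] at h1
    exact h1

end Pool.Agent.E7
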