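import Pool.Agent.Helper66.E7.FrOf2

/-!
# Project 7E: the Riesz product
-/

set_option autoImplicit false

open Complex Filter Topology MeasureTheory Set
open Pool.Agent.Helper18.ES (mu mu_le)
open Pool.Agent.Helper71.MA (Sys Fail Big)

namespace Pool.Agent.E7

/-- the factor of the Riesz product -/
noncomputable def rf (z : ℂ) (ω τ : ℝ) : ℝ := 1 + (z * cexp (-((2 * Real.pi * ω * τ : ℝ) : ℂ) * I)).re

theorem rf_nonneg {z : ℂ} (hz : ‖z‖ = 1) (ω τ : ℝ) : 0 ≤ rf z ω τ := by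
  unfold rf
  have h1 := Complex.abs_re_le_norm (z * cexp (-((2 * Real.pi * ω * τ : ℝ) : ℂ) * I))
  rw [norm_mul, norm_ph, hz, one_mul] at h1
  linarith [(abs_le.mp h1).1]

theorem rf_cont (z : ℂ) (ω : ℝ) : Continuous (rf z ω) := by
  unfold rf
  apply continuous_const.add
  apply Complex.continuous_re.comp
  fun_prop

theorem mu_sq {m : ℕ} (hm : Squarefree m) : mu m * mu m = 1 := by
  unfold Pool.Agent.Helper18.ES.mu
  have := ArithmeticFunction.moebius_sq_eq_one_of_squarefree hm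
  rw [← sq]
  exact_mod_cast this

/-- the phase of the factor -/
noncomputable def zp (o : ℂ) (c : ℝ) : ℂ := if o = 0 then 1 else -(c : ℂ) * (starRingEnd ℂ o) / (‖o‖ : ℂ)

theorem zp_norm {o : ℂ} {c : ℝ} (hc : c * c = 1) : ‖zp o c‖ = 1 := by
  unfold zp
  split_ifs with h
  · simp
  · have h1 : ‖o‖ ≠ 0 := norm_ne_zero_iff.2 h
    have h2 : |c| = 1 := by
      rw [← abs_one, ← sq_eq_sq_iff_abs_eq_abs]
      rw [sq, hc]; norm_num
    rw [norm_div, norm_mul, norm_neg, Complex.norm_real, Real.norm_eq_abs, h2, Complex.norm_real, norm_norm, one_mul,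
      Complex.norm_conj, div_self h1]

theorem zp_re {o a : ℂ} {c m ε : ℝ} (hc : c * c = 1) (ho : o ≠ 0) (h : ‖a + ((c / m : ℝ) : ℂ) * o‖ ≤ ε) :
    ‖o‖ / m - ε ≤ (zp o c * a).re := by
  have hz := zp_norm (o := o) hc
  have e1 : zp o c * a = zp o c * (a + ((c / m : ℝ) : ℂ) * o) - zp o c * (((c / m : ℝ) : ℂ) * o) := by ring
  have e2 : zp o c * (((c / m : ℝ) : ℂ) * o) = ((-(‖o‖ / m) : ℝ) : ℂ) := by
    unfold zp
    rw [if_neg ho]
    have h1 : (‖o‖ : ℂ) ≠ 0 := by exact_mod_cast norm_ne_zero_iff.2 ho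
    have h2 : (starRingEnd ℂ) o * o = (‖o‖ : ℂ) ^ 2 := by
      rw [mul_comm, Complex.mul_conj, Complex.normSq_eq_norm_sq]; push_cast; rfl
    have h3 : (c : ℂ) * c = 1 := by exact_mod_cast hc
    push_cast
    calc -(c : ℂ) * (starRingEnd ℂ) o / (‖o‖ : ℂ) * ((c : ℂ) / m * o) = -((c : ℂ) * c) * ((starRingEnd ℂ) o * o) / (‖o‖ : ℂ) / m := by ring
      _ = _ := by
          rw [h2, h3]
          field_simp
  rw [e1, e2, Complex.sub_re, Complex.ofReal_re]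
  have h3 := Complex.abs_re_le_norm (zp o c * (a + ((c / m : ℝ) : ℂ) * o))
  rw [norm_mul, hz, one_mul] at h3
  linarith [(abs_le.mp (h3.trans h)).1]


/-- upper bound for the mean of the product -/
theorem prod_mean {R ε : ℝ} (hR0 : 0 < R) {S : Finset ℕ} {z : ℕ → ℂ} {ω : ℕ → ℝ} (hz1 : ∀ m, ‖z m‖ = 1)
    (hJ2 : |(∫ τ in (0:ℝ)..R, (kap R τ * 1) * ∏ m ∈ S, (1 + (z m * cexp (-((2 * Real.pi * ω m * τ : ℝ) : ℂ) * I)).re)) -
    (∫ τ in (0:ℝ)..R, kap R τ * 1) -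
    ∑ m ∈ S, (z m * ∫ τ in (0:ℝ)..R, ((kap R τ * 1 : ℝ) : ℂ) * cexp (-((2 * Real.pi * ω m * τ : ℝ) : ℂ) * I)).re| ≤ 3 ^ S.card * ε)
    (hsmall : ∀ m ∈ S, ‖av R (ω m) (fun _ => 1)‖ ≤ ε) (h3 : (3:ℝ) ^ S.card * ε ≤ 1 / 2) (h4 : (S.card : ℝ) * ε ≤ 1 / 2) :
    ∫ τ in (0:ℝ)..R, kap R τ * 1 * ∏ m ∈ S, (1 + (z m * cexp (-((2 * Real.pi * ω m * τ : ℝ) : ℂ) * I)).re) ≤ 2 := by
  have h1 : ∀ m ∈ S, (z m * av R (ω m) (fun _ => 1)).re ≤ ε := by
    intro m hm
    refine (Complex.re_le_norm _).trans ?_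
    rw [norm_mul, hz1, one_mul]
    exact hsmall m hm
  have h2 : ∑ m ∈ S, (z m * av R (ω m) (fun _ => 1)).re ≤ S.card * ε := by
    have := Finset.sum_le_sum h1
    rwa [Finset.sum_const, nsmul_eq_mul] at this
  have h5 : ∫ τ in (0:ℝ)..R, kap R τ * 1 = 1 := by
    simp_rw [mul_one]
    exact kap_int hR0
  have h6 := (abs_le.mp hJ2).2
  rw [h5] at h6
  have h8 : (∑ m ∈ S, (z m * ∫ τ in (0:ℝ)..R, ((kap R τ * 1 : ℝ) : ℂ) * cexp (-((2 * Real.pi * ω m * τ : ℝ) : ℂ) * I)).re) =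
    ∑ m ∈ S, (z m * av R (ω m) (fun _ => 1)).re := rfl
  rw [h8] at h6
  linarith

/-- decay of the mean of the kernel -/
theorem av_one_small {T R η : ℝ} (hT3 : 3 ≤ T) (hR : R = T ^ (1 / 3 : ℝ)) (hη : FR T η) :
    ‖av R η (fun _ => 1)‖ ≤ T ^ (-(13 / 25) : ℝ) := by
  have hT0 : 0 < T := by linarith
  have hT1 : 1 ≤ T := by linarith
  have hR0 : 0 < R := by rw [hR]; exact Real.rpow_pos_of_pos hT0 _
  have hη0 : 0 < |η| := lt_of_lt_of_le (Real.rpow_pos_of_pos hT0 _) hη.1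
  refine (av_one_le hR0 (abs_pos.1 hη0)).trans ?_
  have h3 : 6 * (R * T ^ (-(1 / 100) : ℝ)) ≤ 2 * Real.pi * R * |η| := by
    have h5 := Real.pi_gt_three
    have h6 := mul_le_mul_of_nonneg_left hη.1 hR0.le
    have h7 : 0 ≤ R * |η| := by positivity
    nlinarith
  rw [hR, ← Real.rpow_add hT0] at h3
  rw [hR]
  have h8 : 0 < T ^ (1 / 3 + -(1 / 100) : ℝ) := Real.rpow_pos_of_pos hT0 _
  have h9 := pow_le_pow_left₀ (by positivity) h3 2
  have h10 : (6 * T ^ (1 / 3 + -(1 / 100) : ℝ)) ^ 2 = 36 * T ^ (97 / 150 : ℝ) := by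
    rw [mul_pow, ← Real.rpow_natCast, ← Real.rpow_natCast, ← Real.rpow_mul hT0.le]
    norm_num
  rw [h10] at h9
  have h11 : 0 < T ^ (97 / 150 : ℝ) := Real.rpow_pos_of_pos hT0 _
  rw [div_le_iff₀ (by positivity)]
  have h12 : T ^ (-(13 / 25) : ℝ) * T ^ (97 / 150 : ℝ) = T ^ (19 / 150 : ℝ) := by
    rw [← Real.rpow_add hT0]; norm_num
  have h13 : 1 ≤ T ^ (19 / 150 : ℝ) := Real.one_le_rpow hT1 (by norm_num)
  have h14 : 0 < T ^ (-(13 / 25) : ℝ) := Real.rpow_pos_of_pos hT0 _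
  have h15 := mul_le_mul_of_nonneg_left h9 h14.le
  nlinarith

/-- upper bound for the average against the product -/
theorem upper {T f K ρ R s : ℝ} (hF : StmtF) (hQI : QI) (hT3 : 3 ≤ T) (hR0 : 0 < R) (hR : R = T ^ (1 / 3 : ℝ)) (hρ3 : 1 ≤ ρ) (hs0 : 0 < s) (hρ1 : s ≤ ρ)
    (hK : 0 ≤ K) (hle : ∀ u : ℝ, FT T f u ≤ K) {P : ℝ → ℝ} (hP0 : ∀ τ, 0 ≤ P τ) (hPc : Continuous P)
    (hPm : ∫ τ in (0:ℝ)..R, kap R τ * 1 * P τ ≤ 2) :
    ∫ τ in (0:ℝ)..R, kap R τ * Qr T f (ρ * T + τ) * P τ ≤ 2 * (K / (s * Real.sqrt T)) := by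
  have hT0 : 0 < T := by linarith
  have hsT : 0 < Real.sqrt T := Real.sqrt_pos.2 hT0
  have hsTT : Real.sqrt T * Real.sqrt T = T := Real.mul_self_sqrt hT0.le
  have hgi : IntervalIntegrable (fun τ => kap R τ * Qr T f (ρ * T + τ)) volume 0 R := by
    have := hQI T f ρ hT3 hρ3
    rw [← hR] at this
    exact this.continuousOn_mul (kap_cont R).continuousOn
  have h1 : ∫ τ in (0:ℝ)..R, kap R τ * Qr T f (ρ * T + τ) * P τ ≤
      ∫ τ in (0:ℝ)..R, kap R τ * 1 * P τ * (K / (s * Real.sqrt T)) := by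
    apply intervalIntegral.integral_mono_on hR0.le
    · exact hgi.mul_continuousOn hPc.continuousOn
    · apply Continuous.intervalIntegrable
      have := kap_cont R
      fun_prop
    · intro τ hτ
      have hk := kap_nonneg hτ.1 hτ.2
      have hr : 0 < ρ * T + τ := by have := hτ.1; positivity
      have h2 : Qr T f (ρ * T + τ) ≤ K / (s * Real.sqrt T) := by
        rw [Qr_eq hF hT0 hr (sqT hT3 hρ3 hτ.1)]
        have h3 : Real.sqrt T / (ρ * T + τ) * FT T f (Real.log T - 2 * Real.log (ρ * T + τ)) ≤ Real.sqrt T / (ρ * T + τ) * K :=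
          mul_le_mul_of_nonneg_left (hle _) (by positivity)
        refine h3.trans ?_
        have h4 : Real.sqrt T / (ρ * T + τ) ≤ 1 / (s * Real.sqrt T) := by
          rw [div_le_div_iff₀ hr (by positivity)]
          have h5 := mul_le_mul_of_nonneg_right hρ1 hT0.le
          have h6 := hτ.1
          calc Real.sqrt T * (s * Real.sqrt T) = s * (Real.sqrt T * Real.sqrt T) := by ring
            _ = s * T := by rw [hsTT]
            _ ≤ 1 * (ρ * T + τ) := by linarith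
        calc Real.sqrt T / (ρ * T + τ) * K ≤ 1 / (s * Real.sqrt T) * K := mul_le_mul_of_nonneg_right h4 hK
          _ = _ := by ring
      have h3 := mul_le_mul_of_nonneg_left h2 (mul_nonneg hk (hP0 τ))
      calc kap R τ * Qr T f (ρ * T + τ) * P τ = kap R τ * P τ * Qr T f (ρ * T + τ) := by ring
        _ ≤ _ := h3
        _ = _ := by ring
  rw [intervalIntegral.integral_mul_const] at h1
  exact h1.trans (mul_le_mul_of_nonneg_right hPm (by positivity))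

/-- the plain mean -/
theorem mean {T f D ρ R s : ℝ} (hF : StmtF) (hQI : QI) (hT3 : 3 ≤ T) (hR0 : 0 < R) (hR : R = T ^ (1 / 3 : ℝ)) (hρ3 : 1 ≤ ρ) (hs0 : 0 < s)
    (hy3 : ∫ τ in (0:ℝ)..R, kap R τ * (|FT T f (Real.log T - 2 * Real.log (ρ * T + τ))| / (ρ * T + τ)) ≤ D / (2 * (s * T))) :
    |∫ τ in (0:ℝ)..R, kap R τ * Qr T f (ρ * T + τ)| ≤ 1 / 2 * (D / (s * Real.sqrt T)) := by
  have hT0 : 0 < T := by linarith
  have hsT : 0 < Real.sqrt T := Real.sqrt_pos.2 hT0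
  have hsTT : Real.sqrt T * Real.sqrt T = T := Real.mul_self_sqrt hT0.le
  have hgi : IntervalIntegrable (fun τ => kap R τ * Qr T f (ρ * T + τ)) volume 0 R := by
    have := hQI T f ρ hT3 hρ3
    rw [← hR] at this
    exact this.continuousOn_mul (kap_cont R).continuousOn
  have hki2 : IntervalIntegrable (fun τ => kap R τ * (|FT T f (Real.log T - 2 * Real.log (ρ * T + τ))| / (ρ * T + τ))) volume 0 R := by
    have h1 : IntervalIntegrable (fun τ => (1 / Real.sqrt T) * |kap R τ * Qr T f (ρ * T + τ)|) volume 0 R := hgi.abs.const_mul _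
    refine h1.congr_ae ?_
    rw [uIoc_of_le hR0.le, EventuallyEq, ae_restrict_iff' measurableSet_Ioc]
    filter_upwards with τ hτ
    have hr : 0 < ρ * T + τ := by have := hτ.1; positivity
    rw [Qr_eq hF hT0 hr (sqT hT3 hρ3 hτ.1.le), abs_mul, abs_mul, abs_of_nonneg (kap_nonneg hτ.1.le hτ.2), abs_of_pos (by positivity)]
    field_simp
  have h1 : |∫ τ in (0:ℝ)..R, kap R τ * Qr T f (ρ * T + τ)| ≤
      ∫ τ in (0:ℝ)..R, Real.sqrt T * (kap R τ * (|FT T f (Real.log T - 2 * Real.log (ρ * T + τ))| / (ρ * T + τ))) := by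
    rw [← Real.norm_eq_abs]
    apply intervalIntegral.norm_integral_le_of_norm_le hR0.le
    · filter_upwards with τ hτ
      have hr : 0 < ρ * T + τ := by have := hτ.1; positivity
      rw [Real.norm_eq_abs, Qr_eq hF hT0 hr (sqT hT3 hρ3 hτ.1.le), abs_mul, abs_mul, abs_of_nonneg (kap_nonneg hτ.1.le hτ.2),
        abs_of_pos (by positivity)]
      apply le_of_eq
      ring
    · exact hki2.const_mul _
  rw [intervalIntegral.integral_const_mul] at h1
  refine h1.trans ((mul_le_mul_of_nonneg_left hy3 hsT.le).trans (le_of_eq ?_))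
  have e1 : 1 / 2 * (D / (s * Real.sqrt T)) = D * Real.sqrt T / (2 * (s * (Real.sqrt T * Real.sqrt T))) := by
    field_simp
  rw [e1, hsTT]
  ring

end Pool.Agent.E7
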