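import Pool.Agent.Helper66.E7.AvB

/-!
# Project 7E: averages of the dual function
-/

set_option autoImplicit false

open Complex Filter Topology MeasureTheory Set
open Pool.Agent.Helper18.ES (mu mu_le)

namespace Pool.Agent.E7

/-- the dual function in the variable `r = sqrt (T / x)` -/
noncomputable def Qr (T f r : ℝ) : ℝ := 2 * Real.cos f - 2 * ∑' k : ℕ, mu k / k * BB T f (2 * Real.pi * r ^ 2 / (T * k))

/-- the coefficient bound -/
noncomputable def zc (T r : ℝ) : ℝ := 100 * T * (2 * Real.pi * r ^ 2 / T) ^ (1 / 4 : ℝ)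

theorem term_le (hFB : StmtFB) {T f r : ℝ} (hT : 1 ≤ T) (k : ℕ) :
    |mu k / k * BB T f (2 * Real.pi * r ^ 2 / (T * k))| ≤ zc T r * (1 / (k : ℝ) ^ (5 / 4 : ℝ)) := by
  have hpi := Real.pi_pos
  rcases Nat.eq_zero_or_pos k with hk | hk
  · subst hk
    simp [Real.zero_rpow]
  have hk0 : (0:ℝ) < k := by exact_mod_cast hk
  have hT0 : 0 < T := by linarith
  have hz : 0 ≤ 2 * Real.pi * r ^ 2 / T := by positivity
  have e1 : 2 * Real.pi * r ^ 2 / (T * k) = 2 * Real.pi * r ^ 2 / T / k := by field_simp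
  rw [abs_mul, e1]
  have h1 : |mu k / k| ≤ 1 / k := by
    rw [abs_div, abs_of_pos hk0]
    exact div_le_div_of_nonneg_right (mu_le k) hk0.le
  have h2 := hFB T f (2 * Real.pi * r ^ 2 / T / k) hT (by positivity)
  rw [Real.div_rpow hz hk0.le] at h2
  have h3 : (1 : ℝ) / (k : ℝ) ^ (5 / 4 : ℝ) = 1 / k * (1 / (k : ℝ) ^ (1 / 4 : ℝ)) := by
    rw [show (5 / 4 : ℝ) = 1 + 1 / 4 by norm_num, Real.rpow_add hk0, Real.rpow_one]
    field_simp
  calc |mu k / k| * |BB T f (2 * Real.pi * r ^ 2 / T / k)|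
      ≤ (1 / k) * (100 * T * ((2 * Real.pi * r ^ 2 / T) ^ (1 / 4 : ℝ) / (k : ℝ) ^ (1 / 4 : ℝ))) :=
        mul_le_mul h1 h2 (abs_nonneg _) (by positivity)
    _ = _ := by
        rw [h3]
        unfold zc
        ring

theorem zc_nonneg {T r : ℝ} (hT : 1 ≤ T) : 0 ≤ zc T r := by
  unfold zc
  have := Real.pi_pos
  positivity

theorem sm54 : Summable (fun k : ℕ => 1 / (k : ℝ) ^ (5 / 4 : ℝ)) := Real.summable_one_div_nat_rpow.mpr (by norm_num)

theorem sm98 : Summable (fun k : ℕ => 1 / (k : ℝ) ^ (9 / 8 : ℝ)) := Real.summable_one_div_nat_rpow.mpr (by norm_num)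

noncomputable def C98 : ℝ := ∑' k : ℕ, 1 / (k : ℝ) ^ (9 / 8 : ℝ)

theorem C98_nonneg : 0 ≤ C98 := tsum_nonneg fun k => by positivity

theorem term_summable (hFB : StmtFB) {T f r : ℝ} (hT : 1 ≤ T) :
    Summable (fun k : ℕ => mu k / k * BB T f (2 * Real.pi * r ^ 2 / (T * k))) := by
  apply Summable.of_norm_bounded (sm54.mul_left (zc T r))
  intro k
  rw [Real.norm_eq_abs]
  exact term_le hFB hT k

theorem tail_le (hFB : StmtFB) {T f r : ℝ} (hT : 1 ≤ T) (M : ℕ) :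
    |Qr T f r - (2 * Real.cos f * 1 + ∑ k ∈ Finset.range (M + 1), (-2 * (mu k / k)) * BB T f (2 * Real.pi * r ^ 2 / (T * k)))| ≤
      2 * (zc T r * (C98 * (1 / ((M : ℝ) + 1) ^ (1 / 8 : ℝ)))) := by
  have hs := term_summable hFB (f := f) (r := r) hT
  have hz := zc_nonneg (r := r) hT
  have h1 := hs.sum_add_tsum_nat_add (M + 1)
  have hs2 : Summable (fun k : ℕ => mu ((k + (M + 1) : ℕ)) / ((k + (M + 1) : ℕ) : ℝ) *
      BB T f (2 * Real.pi * r ^ 2 / (T * ((k + (M + 1) : ℕ) : ℝ)))) := (summable_nat_add_iff (M + 1)).2 hs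
  have h98 : Summable (fun k : ℕ => 1 / ((k + (M + 1) : ℕ) : ℝ) ^ (9 / 8 : ℝ)) := (summable_nat_add_iff (M + 1)).2 sm98
  have e1 : Qr T f r - (2 * Real.cos f * 1 + ∑ k ∈ Finset.range (M + 1), (-2 * (mu k / k)) * BB T f (2 * Real.pi * r ^ 2 / (T * k))) =
      -2 * ∑' k : ℕ, mu ((k + (M + 1) : ℕ)) / ((k + (M + 1) : ℕ) : ℝ) *
      BB T f (2 * Real.pi * r ^ 2 / (T * ((k + (M + 1) : ℕ) : ℝ))) := by
    unfold Qr
    rw [← h1]
    have e2 : ∑ k ∈ Finset.range (M + 1), (-2 * (mu k / k)) * BB T f (2 * Real.pi * r ^ 2 / (T * k)) =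
        -2 * ∑ k ∈ Finset.range (M + 1), mu k / k * BB T f (2 * Real.pi * r ^ 2 / (T * k)) := by
      rw [Finset.mul_sum]
      apply Finset.sum_congr rfl
      intro k _
      ring
    rw [e2]
    ring
  rw [e1, abs_mul, show |(-2 : ℝ)| = 2 by norm_num]
  apply mul_le_mul_of_nonneg_left _ (by norm_num)
  have hb : ∀ k : ℕ, ‖mu ((k + (M + 1) : ℕ)) / ((k + (M + 1) : ℕ) : ℝ) *
      BB T f (2 * Real.pi * r ^ 2 / (T * ((k + (M + 1) : ℕ) : ℝ)))‖ ≤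
      zc T r * (1 / ((M : ℝ) + 1) ^ (1 / 8 : ℝ)) * (1 / ((k + (M + 1) : ℕ) : ℝ) ^ (9 / 8 : ℝ)) := by
    intro k
    rw [Real.norm_eq_abs]
    refine (term_le hFB hT (k + (M + 1))).trans ?_
    rw [mul_assoc]
    apply mul_le_mul_of_nonneg_left _ hz
    have hn : (0:ℝ) < ((k + (M + 1) : ℕ) : ℝ) := by positivity
    have e3 : (1 : ℝ) / ((k + (M + 1) : ℕ) : ℝ) ^ (5 / 4 : ℝ) =
        1 / ((k + (M + 1) : ℕ) : ℝ) ^ (1 / 8 : ℝ) * (1 / ((k + (M + 1) : ℕ) : ℝ) ^ (9 / 8 : ℝ)) := by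
      rw [show (5 / 4 : ℝ) = 1 / 8 + 9 / 8 by norm_num, Real.rpow_add hn]
      field_simp
    rw [e3]
    apply mul_le_mul_of_nonneg_right _ (by positivity)
    apply one_div_le_one_div_of_le (by positivity)
    apply Real.rpow_le_rpow (by positivity) _ (by norm_num)
    push_cast
    linarith [Nat.cast_nonneg (α := ℝ) k]
  have h3 := tsum_of_norm_bounded ((h98.mul_left _).hasSum) hb
  rw [Real.norm_eq_abs, tsum_mul_left] at h3
  refine h3.trans ?_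
  rw [mul_assoc]
  apply mul_le_mul_of_nonneg_left _ hz
  rw [mul_comm C98]
  apply mul_le_mul_of_nonneg_left _ (by positivity)
  unfold C98
  rw [← sm98.sum_add_tsum_nat_add (M + 1)]
  have : 0 ≤ ∑ k ∈ Finset.range (M + 1), 1 / (k : ℝ) ^ (9 / 8 : ℝ) := Finset.sum_nonneg fun k _ => by positivity
  linarith

theorem harm (M : ℕ) : ∑ k ∈ Finset.range (M + 1), 1 / (k : ℝ) ≤ 1 + Real.log M := by
  have h := harmonic_le_one_add_log M
  have e : (harmonic M : ℝ) = ∑ k ∈ Finset.range (M + 1), 1 / (k : ℝ) := by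
    rw [Finset.sum_range_succ', harmonic]
    push_cast
    simp
  rw [← e]
  exact h

/-- measurability and boundedness of the dual function near `ρ T` -/
def QI : Prop := ∀ T f ρ : ℝ, 3 ≤ T → 1 ≤ ρ → IntervalIntegrable (fun τ => Qr T f (ρ * T + τ)) volume 0 (T ^ (1 / 3 : ℝ))

/-- the average of the dual function, up to a small error -/
theorem avQ (hFB : StmtFB) (hQI : QI) : ∀ᶠ T : ℝ in atTop, ∀ ρ : ℝ, 1 ≤ ρ → ρ ≤ T ^ (1 / 100 : ℝ) →
    ∀ η f : ℝ, FR T η → ‖av (T ^ (1 / 3 : ℝ)) η (fun τ => Qr T f (ρ * T + τ)) -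
      ∑ k ∈ Finset.range (⌈T ^ (24:ℝ)⌉₊ + 1), (-2 * (mu k / k) : ℝ) * av (T ^ (1 / 3 : ℝ)) η (Bk T f ρ k)‖ ≤ T ^ (-(3 / 5) : ℝ) := by
  have hpi := Real.pi_pos
  filter_upwards [eventually_ge_atTop 3, ev_rpow (a := 1 / 100) (by norm_num) 4, ev_rpow (a := 1 / 100) (by norm_num) (6000 * C98 + 1)]
    with T hT3 h4 h6 ρ hρ1 hρT η f hη
  have hT0 : 0 < T := by linarith
  have hT1 : 1 ≤ T := by linarith
  set M := ⌈T ^ (24:ℝ)⌉₊ with hM
  have hMT : T ^ (24:ℝ) ≤ M := Nat.le_ceil _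
  have hR0 : 0 < T ^ (1 / 3 : ℝ) := Real.rpow_pos_of_pos hT0 _
  have hRT : T ^ (1 / 3 : ℝ) ≤ T := by
    calc T ^ (1 / 3 : ℝ) ≤ T ^ (1:ℝ) := Real.rpow_le_rpow_of_exponent_le hT1 (by norm_num)
      _ = T := Real.rpow_one T
  have hiQ := hQI T f ρ hT3 hρ1
  have hiB : ∀ k : ℕ, IntervalIntegrable (fun τ => (-2 * (mu k / k)) * Bk T f ρ k τ) volume 0 (T ^ (1 / 3 : ℝ)) := by
    intro k
    apply IntervalIntegrable.const_mul
    exact BB_ii hFB hT1 hR0.le (by positivity) (by linarith)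
  have hiS : IntervalIntegrable (fun τ => ∑ k ∈ Finset.range (M + 1), (-2 * (mu k / k)) * Bk T f ρ k τ) volume 0 (T ^ (1 / 3 : ℝ)) := by
    have h := IntervalIntegrable.sum (Finset.range (M + 1)) (f := fun (k : ℕ) (τ : ℝ) => (-2 * (mu k / k)) * Bk T f ρ k τ)
      (μ := volume) (a := 0) (b := T ^ (1 / 3 : ℝ)) (fun k _ => hiB k)
    have e : (fun τ => ∑ k ∈ Finset.range (M + 1), (-2 * (mu k / k)) * Bk T f ρ k τ) =
        ∑ k ∈ Finset.range (M + 1), fun τ : ℝ => (-2 * (mu k / k)) * Bk T f ρ k τ := by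
      funext τ
      rw [Finset.sum_apply]
    rw [e]
    exact h
  have hi1 : IntervalIntegrable (fun _ : ℝ => 2 * Real.cos f * 1) volume 0 (T ^ (1 / 3 : ℝ)) := by simp
  have e1 : av (T ^ (1 / 3 : ℝ)) η (fun τ => Qr T f (ρ * T + τ)) = av (T ^ (1 / 3 : ℝ)) η
      (fun τ => (Qr T f (ρ * T + τ) + -1 * (2 * Real.cos f * 1 + ∑ k ∈ Finset.range (M + 1), (-2 * (mu k / k)) * Bk T f ρ k τ)) +
        (2 * Real.cos f * 1 + ∑ k ∈ Finset.range (M + 1), (-2 * (mu k / k)) * Bk T f ρ k τ)) := by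
    congr 1
    ext τ
    ring
  rw [e1, av_add (hiQ.add ((hi1.add hiS).const_mul _)) (hi1.add hiS), av_add hi1 hiS, av_sum _ (fun k _ => hiB k)]
  have e2 : ∀ k : ℕ, av (T ^ (1 / 3 : ℝ)) η (fun τ => (-2 * (mu k / k)) * Bk T f ρ k τ) =
      ((-2 * (mu k / k) : ℝ) : ℂ) * av (T ^ (1 / 3 : ℝ)) η (Bk T f ρ k) := fun k => av_const_mul
  simp_rw [e2]
  have e3 : av (T ^ (1 / 3 : ℝ)) η (fun _ => 2 * Real.cos f * 1) = ((2 * Real.cos f : ℝ) : ℂ) * av (T ^ (1 / 3 : ℝ)) η (fun _ => 1) := av_const_mul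
  rw [e3]
  have hη0 : 0 < |η| := lt_of_lt_of_le (Real.rpow_pos_of_pos hT0 _) hη.1
  have n1 : ‖((2 * Real.cos f : ℝ) : ℂ) * av (T ^ (1 / 3 : ℝ)) η (fun _ => 1)‖ ≤ 2 * T ^ (-(61 / 100) : ℝ) := by
    rw [norm_mul, Complex.norm_real, Real.norm_eq_abs, abs_mul, abs_of_pos (by norm_num : (0:ℝ) < 2)]
    have h1 := av_one_le hR0 (abs_pos.1 hη0)
    have h2 : 24 / (2 * Real.pi * T ^ (1 / 3 : ℝ) * |η|) ^ 2 ≤ T ^ (-(61 / 100) : ℝ) := by
      have h3 : 6 * (T ^ (1 / 3 : ℝ) * T ^ (-(1 / 100) : ℝ)) ≤ 2 * Real.pi * T ^ (1 / 3 : ℝ) * |η| := by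
        have h5 := Real.pi_gt_three
        have h6 := mul_le_mul_of_nonneg_left hη.1 hR0.le
        have h7 : 0 ≤ T ^ (1 / 3 : ℝ) * |η| := by positivity
        nlinarith
      rw [← Real.rpow_add hT0] at h3
      have h8 : 0 < T ^ (1 / 3 + -(1 / 100) : ℝ) := Real.rpow_pos_of_pos hT0 _
      have h9 := pow_le_pow_left₀ (by positivity) h3 2
      have h10 : (6 * T ^ (1 / 3 + -(1 / 100) : ℝ)) ^ 2 = 36 * T ^ (97 / 150 : ℝ) := by
        rw [mul_pow, ← Real.rpow_natCast, ← Real.rpow_natCast, ← Real.rpow_mul hT0.le]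
        norm_num
      rw [h10] at h9
      have h11 : 0 < T ^ (97 / 150 : ℝ) := Real.rpow_pos_of_pos hT0 _
      rw [div_le_iff₀ (by positivity)]
      have h12 : T ^ (-(61 / 100) : ℝ) * T ^ (97 / 150 : ℝ) = T ^ (11 / 300 : ℝ) := by
        rw [← Real.rpow_add hT0]; norm_num
      have h13 : 1 ≤ T ^ (11 / 300 : ℝ) := Real.one_le_rpow hT1 (by norm_num)
      have h14 : 0 < T ^ (-(61 / 100) : ℝ) := Real.rpow_pos_of_pos hT0 _
      have h15 := mul_le_mul_of_nonneg_left h9 h14.le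
      nlinarith
    have h3 : |Real.cos f| ≤ 1 := Real.abs_cos_le_one f
    calc 2 * |Real.cos f| * ‖av (T ^ (1 / 3 : ℝ)) η (fun _ => 1)‖ ≤ 2 * 1 * T ^ (-(61 / 100) : ℝ) := by
          apply mul_le_mul _ (h1.trans h2) (norm_nonneg _) (by norm_num)
          linarith
      _ = _ := by ring
  have n2 : ‖av (T ^ (1 / 3 : ℝ)) η (fun τ => Qr T f (ρ * T + τ) + -1 * (2 * Real.cos f * 1 +
      ∑ k ∈ Finset.range (M + 1), (-2 * (mu k / k)) * Bk T f ρ k τ))‖ ≤ T ^ (-(61 / 100) : ℝ) := by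
    apply av_norm_le hR0
    intro τ hτ
    have h1 := tail_le hFB (f := f) (r := ρ * T + τ) hT1 M
    have e4 : Qr T f (ρ * T + τ) + -1 * (2 * Real.cos f * 1 + ∑ k ∈ Finset.range (M + 1), (-2 * (mu k / k)) * Bk T f ρ k τ) =
        Qr T f (ρ * T + τ) - (2 * Real.cos f * 1 + ∑ k ∈ Finset.range (M + 1), (-2 * (mu k / k)) *
          BB T f (2 * Real.pi * (ρ * T + τ) ^ 2 / (T * k))) := by
      unfold Bk
      ring
    rw [e4]
    refine h1.trans ?_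
    have hr : ρ * T + τ ≤ 2 * (T ^ (1 / 100 : ℝ) * T) := by
      have h8 := mul_le_mul_of_nonneg_right hρT hT0.le
      have h9 := hτ.2
      have : T ≤ ρ * T := by nlinarith
      linarith
    have hr0 : 0 ≤ ρ * T + τ := by have := hτ.1; positivity
    have h2 : zc T (ρ * T + τ) ≤ 300 * T ^ (3 / 2 : ℝ) := by
      unfold zc
      have h3 : 2 * Real.pi * (ρ * T + τ) ^ 2 / T ≤ 81 * T ^ (51 / 50 : ℝ) := by
        rw [div_le_iff₀ hT0]
        have h5 := pow_le_pow_left₀ hr0 hr 2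
        have h6 : (2 * (T ^ (1 / 100 : ℝ) * T)) ^ 2 = 4 * (T ^ (51 / 50 : ℝ) * T) := by
          have : (T ^ (1 / 100 : ℝ)) ^ 2 = T ^ (1 / 50 : ℝ) := by
            rw [← Real.rpow_natCast, ← Real.rpow_mul hT0.le]; norm_num
          have h7 : T ^ (51 / 50 : ℝ) = T ^ (1 / 50 : ℝ) * T := by
            rw [show (51 / 50 : ℝ) = 1 / 50 + 1 by norm_num, Real.rpow_add hT0, Real.rpow_one]
          rw [h7, mul_pow, mul_pow, this]; ring
        rw [h6] at h5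
        have h7 := Real.pi_le_four
        have h8 : 0 < T ^ (51 / 50 : ℝ) * T := by positivity
        nlinarith [sq_nonneg (ρ * T + τ)]
      have h4 : (2 * Real.pi * (ρ * T + τ) ^ 2 / T) ^ (1 / 4 : ℝ) ≤ 3 * T ^ (51 / 200 : ℝ) := by
        calc (2 * Real.pi * (ρ * T + τ) ^ 2 / T) ^ (1 / 4 : ℝ) ≤ (81 * T ^ (51 / 50 : ℝ)) ^ (1 / 4 : ℝ) :=
              Real.rpow_le_rpow (by positivity) h3 (by norm_num)
          _ = 3 * T ^ (51 / 200 : ℝ) := by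
              rw [Real.mul_rpow (by norm_num) (by positivity), ← Real.rpow_mul hT0.le]
              have : (81 : ℝ) ^ (1 / 4 : ℝ) = 3 := by
                rw [show (81 : ℝ) = 3 ^ (4:ℝ) by norm_num, ← Real.rpow_mul (by norm_num)]; norm_num
              rw [this]; norm_num
      have h5 : T * T ^ (51 / 200 : ℝ) ≤ T ^ (3 / 2 : ℝ) := by
        nth_rewrite 1 [← Real.rpow_one T]
        rw [← Real.rpow_add hT0]
        exact Real.rpow_le_rpow_of_exponent_le hT1 (by norm_num)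
      have h6 := mul_le_mul_of_nonneg_left h4 (by positivity : 0 ≤ 100 * T)
      nlinarith
    have h3 : 1 / ((M : ℝ) + 1) ^ (1 / 8 : ℝ) ≤ T ^ (-(3:ℝ)) := by
      rw [Real.rpow_neg hT0.le, one_div]
      apply inv_anti₀ (by positivity)
      calc T ^ (3:ℝ) = (T ^ (24:ℝ)) ^ (1 / 8 : ℝ) := by rw [← Real.rpow_mul hT0.le]; norm_num
        _ ≤ _ := Real.rpow_le_rpow (by positivity) (by linarith) (by norm_num)
    have hC := C98_nonneg
    have h5 : zc T (ρ * T + τ) * (C98 * (1 / ((M : ℝ) + 1) ^ (1 / 8 : ℝ))) ≤ 300 * T ^ (3 / 2 : ℝ) * (C98 * T ^ (-(3:ℝ))) := by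
      apply mul_le_mul h2 (mul_le_mul_of_nonneg_left h3 hC) (by positivity) (by positivity)
    have h7 : T ^ (3 / 2 : ℝ) * T ^ (-(3:ℝ)) = T ^ (-(89 / 100) : ℝ) * T ^ (-(61 / 100) : ℝ) := by
      rw [← Real.rpow_add hT0, ← Real.rpow_add hT0]; norm_num
    have h8 : 600 * C98 * T ^ (-(89 / 100) : ℝ) ≤ 1 := by
      rw [Real.rpow_neg hT0.le, ← div_eq_mul_inv, div_le_one (Real.rpow_pos_of_pos hT0 _)]
      have h9 : T ^ (1 / 100 : ℝ) ≤ T ^ (89 / 100 : ℝ) := Real.rpow_le_rpow_of_exponent_le hT1 (by norm_num)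
      linarith
    have h10 : 0 < T ^ (-(61 / 100) : ℝ) := Real.rpow_pos_of_pos hT0 _
    calc 2 * (zc T (ρ * T + τ) * (C98 * (1 / ((M : ℝ) + 1) ^ (1 / 8 : ℝ)))) ≤ 2 * (300 * T ^ (3 / 2 : ℝ) * (C98 * T ^ (-(3:ℝ)))) := by linarith
      _ = 600 * C98 * (T ^ (3 / 2 : ℝ) * T ^ (-(3:ℝ))) := by ring
      _ = (600 * C98 * T ^ (-(89 / 100) : ℝ)) * T ^ (-(61 / 100) : ℝ) := by rw [h7]; ring
      _ ≤ 1 * T ^ (-(61 / 100) : ℝ) := mul_le_mul_of_nonneg_right h8 h10.le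
      _ = _ := one_mul _
  have e5 : ∀ x y z : ℂ, x + (y + z) - z = x + y := fun x y z => by ring
  rw [e5]
  refine (norm_add_le _ _).trans ((add_le_add n2 n1).trans ?_)
  have h5 : T ^ (-(3 / 5) : ℝ) = T ^ (1 / 100 : ℝ) * T ^ (-(61 / 100) : ℝ) := by
    rw [← Real.rpow_add hT0]; norm_num
  rw [h5]
  have h10 : 0 < T ^ (-(61 / 100) : ℝ) := Real.rpow_pos_of_pos hT0 _
  nlinarith

theorem logM {T : ℝ} (hT : 3 ≤ T) : 1 + Real.log (⌈T ^ (24:ℝ)⌉₊ : ℝ) ≤ 26 * Real.log T := by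
  have hT0 : 0 < T := by linarith
  have hlog : 1 ≤ Real.log T := by
    rw [Real.le_log_iff_exp_le hT0]
    have := Real.exp_one_lt_d9
    linarith
  have h1 : (1:ℝ) ≤ T ^ (24:ℝ) := Real.one_le_rpow (by linarith) (by norm_num)
  have h2 : (⌈T ^ (24:ℝ)⌉₊ : ℝ) ≤ T ^ (25:ℝ) := by
    have h3 := (Nat.ceil_lt_add_one (zero_le_one.trans h1)).le
    have h4 : T ^ (25:ℝ) = T ^ (24:ℝ) * T := by
      rw [show (25:ℝ) = 24 + 1 by norm_num, Real.rpow_add hT0, Real.rpow_one]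
    rw [h4]
    nlinarith
  have h5 : Real.log (⌈T ^ (24:ℝ)⌉₊ : ℝ) ≤ 25 * Real.log T := by
    rw [← Real.log_rpow hT0]
    apply Real.log_le_log _ h2
    have h6 : (1:ℝ) ≤ ⌈T ^ (24:ℝ)⌉₊ := h1.trans (Nat.le_ceil _)
    linarith
  linarith

/-- non-resonant averages of the dual function -/
theorem avQ_nr (hF2 : StmtF2) (hFB : StmtFB) (hG : StmtG) (hQI : QI) : ∀ᶠ T : ℝ in atTop, ∀ ρ : ℝ, 1 ≤ ρ →
    ρ ≤ T ^ (1 / 100 : ℝ) → ∀ η f : ℝ, FR T η → (∀ k : ℕ, Squarefree k → T ^ (-(1 / 100) : ℝ) ≤ |η ^ 2 - 4 / k|) →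
    ‖av (T ^ (1 / 3 : ℝ)) η (fun τ => Qr T f (ρ * T + τ))‖ ≤ T ^ (-(13 / 25) : ℝ) := by
  filter_upwards [avQ hFB hQI, avB_nr hF2 hFB hG, eventually_ge_atTop 3, ev_log (a := 1 / 100) (by norm_num) 53]
    with T h1 h2 hT3 hl ρ hρ1 hρT η f hη hres
  have hT0 : 0 < T := by linarith
  have hT1 : 1 ≤ T := by linarith
  have hlog : 1 ≤ Real.log T := by
    rw [Real.le_log_iff_exp_le hT0]
    have := Real.exp_one_lt_d9
    linarith
  have h3 := h1 ρ hρ1 hρT η f hη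
  have h4 : ‖∑ k ∈ Finset.range (⌈T ^ (24:ℝ)⌉₊ + 1), ((-2 * (mu k / k) : ℝ) : ℂ) * av (T ^ (1 / 3 : ℝ)) η (Bk T f ρ k)‖ ≤
      52 * Real.log T * T ^ (-(27 / 50) : ℝ) := by
    have h5 : ∀ k ∈ Finset.range (⌈T ^ (24:ℝ)⌉₊ + 1), ‖((-2 * (mu k / k) : ℝ) : ℂ) * av (T ^ (1 / 3 : ℝ)) η (Bk T f ρ k)‖ ≤
        2 * T ^ (-(27 / 50) : ℝ) * (1 / k) := by
      intro k _
      by_cases hk : Squarefree k
      · have hk0 : 1 ≤ k := Nat.one_le_iff_ne_zero.2 hk.ne_zero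
        have hk1 : (1:ℝ) ≤ k := by exact_mod_cast hk0
        have h6 := h2 ρ hρ1 hρT η f k hk1 hη (hres k hk)
        rw [norm_mul, Complex.norm_real, Real.norm_eq_abs, abs_mul, abs_div, abs_of_pos (by linarith : (0:ℝ) < k)]
        have h7 := mu_le k
        have h8 : |mu k| / k ≤ 1 / k := div_le_div_of_nonneg_right h7 (by linarith)
        have h9 : |(-2 : ℝ)| = 2 := by norm_num
        rw [h9]
        calc 2 * (|mu k| / k) * ‖av (T ^ (1 / 3 : ℝ)) η (Bk T f ρ k)‖ ≤ 2 * (1 / k) * T ^ (-(27 / 50) : ℝ) :=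
              mul_le_mul (by linarith) h6 (norm_nonneg _) (by positivity)
          _ = _ := by ring
      · have : mu k = 0 := by
          unfold Pool.Agent.Helper18.ES.mu
          rw [ArithmeticFunction.moebius_eq_zero_of_not_squarefree hk]
          simp
        rw [this]
        simp
        positivity
    refine (norm_sum_le_of_le _ h5).trans ?_
    rw [← Finset.mul_sum]
    have h6 := (harm ⌈T ^ (24:ℝ)⌉₊).trans (logM hT3)
    have h7 : 0 ≤ 2 * T ^ (-(27 / 50) : ℝ) := by positivity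
    have := mul_le_mul_of_nonneg_left h6 h7
    linarith
  have h5 := norm_add_le_of_le h3 h4
  rw [sub_add_cancel] at h5
  refine h5.trans ?_
  have h6 : T ^ (-(13 / 25) : ℝ) = T ^ (1 / 50 : ℝ) * T ^ (-(27 / 50) : ℝ) := by
    rw [← Real.rpow_add hT0]; norm_num
  have h7 : T ^ (-(3 / 5) : ℝ) ≤ T ^ (-(27 / 50) : ℝ) := Real.rpow_le_rpow_of_exponent_le hT1 (by norm_num)
  have h8 : T ^ (1 / 100 : ℝ) ≤ T ^ (1 / 50 : ℝ) := Real.rpow_le_rpow_of_exponent_le hT1 (by norm_num)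
  have h9 : 0 < T ^ (-(27 / 50) : ℝ) := Real.rpow_pos_of_pos hT0 _
  rw [h6]
  have h10 : (1 + 52 * Real.log T) * T ^ (-(27 / 50) : ℝ) ≤ T ^ (1 / 50 : ℝ) * T ^ (-(27 / 50) : ℝ) :=
    mul_le_mul_of_nonneg_right (by linarith) h9.le
  linarith

/-- resonant averages of the dual function -/
theorem avQ_res (hF2 : StmtF2) (hFB : StmtFB) (hG : StmtG) (hQI : QI) : ∀ᶠ T : ℝ in atTop, ∀ ρ : ℝ, 1 ≤ ρ →
    ρ ≤ T ^ (1 / 100 : ℝ) → ∀ f : ℝ, ∀ m : ℕ, 1 ≤ m → (m : ℝ) ≤ T → ∀ η : ℝ, FR T η →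
    (∀ k : ℕ, Squarefree k → k ≠ m → T ^ (-(1 / 100) : ℝ) ≤ |η ^ 2 - 4 / k|) →
    ‖av (T ^ (1 / 3 : ℝ)) η (fun τ => Qr T f (ρ * T + τ)) +
      ((mu m / m : ℝ) : ℂ) * osc T ρ η 1 (1 / m) f (Real.log ρ) (3 * Real.log T)‖ ≤ T ^ (-(13 / 25) : ℝ) := by
  filter_upwards [avQ hFB hQI, avB_nr hF2 hFB hG, avB_res hF2 hFB hG, eventually_ge_atTop 3, ev_log (a := 1 / 100) (by norm_num) 55]
    with T h1 h2 h2' hT3 hl ρ hρ1 hρT f m hm hmT η hη hres
  have hT0 : 0 < T := by linarith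
  have hT1 : 1 ≤ T := by linarith
  have hlog : 1 ≤ Real.log T := by
    rw [Real.le_log_iff_exp_le hT0]
    have := Real.exp_one_lt_d9
    linarith
  have hmR : (1:ℝ) ≤ m := by exact_mod_cast hm
  have h3 := h1 ρ hρ1 hρT η f hη
  have hmem : m ∈ Finset.range (⌈T ^ (24:ℝ)⌉₊ + 1) := by
    rw [Finset.mem_range, Nat.lt_succ_iff]
    have h4 : (m : ℝ) ≤ T ^ (24:ℝ) := by
      refine hmT.trans ?_
      calc T = T ^ (1:ℝ) := (Real.rpow_one T).symm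
        _ ≤ _ := Real.rpow_le_rpow_of_exponent_le hT1 (by norm_num)
    exact_mod_cast h4.trans (Nat.le_ceil _)
  rw [← Finset.add_sum_erase _ _ hmem] at h3
  have h4 : ‖∑ k ∈ (Finset.range (⌈T ^ (24:ℝ)⌉₊ + 1)).erase m, ((-2 * (mu k / k) : ℝ) : ℂ) * av (T ^ (1 / 3 : ℝ)) η (Bk T f ρ k)‖ ≤
      52 * Real.log T * T ^ (-(27 / 50) : ℝ) := by
    have h5 : ∀ k ∈ (Finset.range (⌈T ^ (24:ℝ)⌉₊ + 1)).erase m, ‖((-2 * (mu k / k) : ℝ) : ℂ) * av (T ^ (1 / 3 : ℝ)) η (Bk T f ρ k)‖ ≤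
        2 * T ^ (-(27 / 50) : ℝ) * (1 / k) := by
      intro k hkm
      by_cases hk : Squarefree k
      · have hk0 : 1 ≤ k := Nat.one_le_iff_ne_zero.2 hk.ne_zero
        have hk1 : (1:ℝ) ≤ k := by exact_mod_cast hk0
        have h6 := h2 ρ hρ1 hρT η f k hk1 hη (hres k hk (Finset.ne_of_mem_erase hkm))
        rw [norm_mul, Complex.norm_real, Real.norm_eq_abs, abs_mul, abs_div, abs_of_pos (by linarith : (0:ℝ) < k)]
        have h7 := mu_le k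
        have h8 : |mu k| / k ≤ 1 / k := div_le_div_of_nonneg_right h7 (by linarith)
        have h9 : |(-2 : ℝ)| = 2 := by norm_num
        rw [h9]
        calc 2 * (|mu k| / k) * ‖av (T ^ (1 / 3 : ℝ)) η (Bk T f ρ k)‖ ≤ 2 * (1 / k) * T ^ (-(27 / 50) : ℝ) :=
              mul_le_mul (by linarith) h6 (norm_nonneg _) (by positivity)
          _ = _ := by ring
      · have : mu k = 0 := by
          unfold Pool.Agent.Helper18.ES.mu
          rw [ArithmeticFunction.moebius_eq_zero_of_not_squarefree hk]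
          simp
        rw [this]
        simp
        positivity
    refine (norm_sum_le_of_le _ h5).trans ?_
    rw [← Finset.mul_sum]
    have h6 := (harm ⌈T ^ (24:ℝ)⌉₊).trans (logM hT3)
    have h8 : ∑ k ∈ (Finset.range (⌈T ^ (24:ℝ)⌉₊ + 1)).erase m, 1 / (k : ℝ) ≤
        ∑ k ∈ Finset.range (⌈T ^ (24:ℝ)⌉₊ + 1), 1 / (k : ℝ) :=
      Finset.sum_le_sum_of_subset_of_nonneg (Finset.erase_subset _ _) (fun _ _ _ => by positivity)
    have h7 : 0 ≤ 2 * T ^ (-(27 / 50) : ℝ) := by positivity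
    have := mul_le_mul_of_nonneg_left (h8.trans h6) h7
    linarith
  have h5 : ‖((-2 * (mu m / m) : ℝ) : ℂ) * (av (T ^ (1 / 3 : ℝ)) η (Bk T f ρ m) -
      1 / 2 * osc T ρ η 1 (1 / m) f (Real.log ρ) (3 * Real.log T))‖ ≤ 2 * T ^ (-(27 / 50) : ℝ) := by
    have h6 := h2' ρ hρ1 hρT η f m hmR hη
    rw [norm_mul, Complex.norm_real, Real.norm_eq_abs, abs_mul, abs_div, abs_of_pos (by linarith : (0:ℝ) < m)]
    have h7 := mu_le m
    have h8 : |mu m| / m ≤ 1 := by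
      rw [div_le_one (by linarith)]; linarith
    have h9 : |(-2 : ℝ)| = 2 := by norm_num
    rw [h9]
    exact mul_le_mul (by linarith) h6 (norm_nonneg _) (by positivity)
  have h6 := norm_add_le_of_le (norm_add_le_of_le h3 h4) h5
  have e1 : ∀ Q X S A o : ℂ, ∀ c : ℝ, Q - (((-2 * c : ℝ) : ℂ) * A + S) + S + ((-2 * c : ℝ) : ℂ) * (A - 1 / 2 * o) = Q + ((c : ℝ) : ℂ) * o := by
    intro Q X S A o c
    push_cast
    ring
  rw [e1 _ 0] at h6
  refine h6.trans ?_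
  have h6 : T ^ (-(13 / 25) : ℝ) = T ^ (1 / 50 : ℝ) * T ^ (-(27 / 50) : ℝ) := by
    rw [← Real.rpow_add hT0]; norm_num
  have h7 : T ^ (-(3 / 5) : ℝ) ≤ T ^ (-(27 / 50) : ℝ) := Real.rpow_le_rpow_of_exponent_le hT1 (by norm_num)
  have h8 : T ^ (1 / 100 : ℝ) ≤ T ^ (1 / 50 : ℝ) := Real.rpow_le_rpow_of_exponent_le hT1 (by norm_num)
  have h9 : 0 < T ^ (-(27 / 50) : ℝ) := Real.rpow_pos_of_pos hT0 _
  rw [h6]
  have h10 : (3 + 52 * Real.log T) * T ^ (-(27 / 50) : ℝ) ≤ T ^ (1 / 50 : ℝ) * T ^ (-(27 / 50) : ℝ) :=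
    mul_le_mul_of_nonneg_right (by linarith) h9.le
  linarith

end Pool.Agent.E7
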